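import Mathlib

set_option autoImplicit false

namespace Pool.Agent.Helper876

open MeasureTheory Set

lemma lintegral_tri {s : ℝ} (hs : 0 ≤ s) :
    ∫⁻ x : ℝ, (if 0 ≤ x then ENNReal.ofReal (s - x) else 0) = ENNReal.ofReal (s ^ 2 / 2) := by
  have h1 : (fun x : ℝ => (if 0 ≤ x then ENNReal.ofReal (s - x) else 0)) =
      (Icc (0:ℝ) s).indicator (fun x => ENNReal.ofReal (s - x)) := by
    funext x
    by_cases h0 : 0 ≤ x
    · by_cases h1 : x ≤ s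
      · rw [indicator_of_mem (show x ∈ Icc (0:ℝ) s from ⟨h0, h1⟩), if_pos h0]
      · rw [indicator_of_notMem (fun h : x ∈ Icc (0:ℝ) s => h1 h.2), if_pos h0,
          ENNReal.ofReal_of_nonpos (by linarith)]
    · rw [indicator_of_notMem (fun h : x ∈ Icc (0:ℝ) s => h0 h.1), if_neg h0]
  rw [h1, lintegral_indicator measurableSet_Icc]
  rw [← ofReal_integral_eq_lintegral_ofReal]
  · congr 1
    rw [integral_Icc_eq_integral_Ioc, ← intervalIntegral.integral_of_le hs]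
    simp only [intervalIntegral.integral_sub intervalIntegrable_const
      (intervalIntegral.intervalIntegrable_id), integral_id, intervalIntegral.integral_const,
      smul_eq_mul]
    ring
  · exact (Continuous.integrableOn_Icc (by fun_prop))
  · filter_upwards [ae_restrict_mem measurableSet_Icc] with x hx
    have := hx.2
    simp only [Pi.zero_apply]; linarith

lemma area_tri {s : ℝ} (hs : 0 ≤ s) :
    volume {p : ℝ × ℝ | 0 ≤ p.1 ∧ 0 ≤ p.2 ∧ p.1 + p.2 ≤ s} = ENNReal.ofReal (s ^ 2 / 2) := by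
  have hm : MeasurableSet {p : ℝ × ℝ | 0 ≤ p.1 ∧ 0 ≤ p.2 ∧ p.1 + p.2 ≤ s} := by
    measurability
  rw [Measure.volume_eq_prod, Measure.prod_apply hm, ← lintegral_tri hs]
  congr 1
  funext x
  by_cases h0 : 0 ≤ x
  · have : Prod.mk x ⁻¹' {p : ℝ × ℝ | 0 ≤ p.1 ∧ 0 ≤ p.2 ∧ p.1 + p.2 ≤ s} = Icc 0 (s - x) := by
      ext y
      simp only [mem_preimage, mem_ofPred_eq, mem_Icc]
      constructor
      · rintro ⟨_, h1, h2⟩; exact ⟨h1, by linarith⟩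
      · rintro ⟨h1, h2⟩; exact ⟨h0, h1, by linarith⟩
    rw [this, Real.volume_Icc, if_pos h0, sub_zero]
  · have : Prod.mk x ⁻¹' {p : ℝ × ℝ | 0 ≤ p.1 ∧ 0 ≤ p.2 ∧ p.1 + p.2 ≤ s} = ∅ := by
      ext y
      simp only [mem_preimage, mem_ofPred_eq, mem_empty_iff_false, iff_false]
      rintro ⟨h1, _⟩; exact h0 h1
    rw [this, measure_empty, if_neg h0]

lemma area_tri' {s : ℝ} (hs : 0 ≤ s) :
    volume {p : ℝ × ℝ | 0 ≤ p.1 ∧ 0 ≤ p.2 ∧ p.1 + p.2 < s} = ENNReal.ofReal (s ^ 2 / 2) := by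
  have hm : MeasurableSet {p : ℝ × ℝ | 0 ≤ p.1 ∧ 0 ≤ p.2 ∧ p.1 + p.2 < s} := by
    measurability
  rw [Measure.volume_eq_prod, Measure.prod_apply hm, ← lintegral_tri hs]
  congr 1
  funext x
  by_cases h0 : 0 ≤ x
  · have : Prod.mk x ⁻¹' {p : ℝ × ℝ | 0 ≤ p.1 ∧ 0 ≤ p.2 ∧ p.1 + p.2 < s} = Ico 0 (s - x) := by
      ext y
      simp only [mem_preimage, mem_ofPred_eq, mem_Ico]
      constructor
      · rintro ⟨_, h1, h2⟩; exact ⟨h1, by linarith⟩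
      · rintro ⟨h1, h2⟩; exact ⟨h0, h1, by linarith⟩
    rw [this, Real.volume_Ico, if_pos h0, sub_zero]
  · have : Prod.mk x ⁻¹' {p : ℝ × ℝ | 0 ≤ p.1 ∧ 0 ≤ p.2 ∧ p.1 + p.2 < s} = ∅ := by
      ext y
      simp only [mem_preimage, mem_ofPred_eq, mem_empty_iff_false, iff_false]
      rintro ⟨h1, _⟩; exact h0 h1
    rw [this, measure_empty, if_neg h0]

/-- triangle with offsets -/
lemma area_T (a b c : ℝ) (hs : 0 ≤ a + b + c) :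
    volume {p : ℝ × ℝ | -p.1 ≤ a ∧ -p.2 ≤ b ∧ p.1 + p.2 ≤ c} =
      ENNReal.ofReal ((a + b + c) ^ 2 / 2) := by
  rw [← area_tri hs, ← measure_preimage_add_right volume ((a, b) : ℝ × ℝ)
    {p : ℝ × ℝ | 0 ≤ p.1 ∧ 0 ≤ p.2 ∧ p.1 + p.2 ≤ a + b + c}]
  congr 1
  ext p
  simp only [mem_preimage, mem_ofPred_eq, Prod.fst_add, Prod.snd_add]
  constructor
  · rintro ⟨h1, h2, h3⟩; exact ⟨by linarith, by linarith, by linarith⟩
  · rintro ⟨h1, h2, h3⟩; exact ⟨by linarith, by linarith, by linarith⟩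

lemma area_corner (a b c : ℝ) (hs : 0 ≤ a + b - c) :
    volume {p : ℝ × ℝ | p.1 ≤ a ∧ p.2 ≤ b ∧ c < p.1 + p.2} =
      ENNReal.ofReal ((a + b - c) ^ 2 / 2) := by
  have h1 : volume {p : ℝ × ℝ | p.1 ≤ a ∧ p.2 ≤ b ∧ c < p.1 + p.2} =
      volume ((fun p : ℝ × ℝ => (a, b) - p) ⁻¹' {p : ℝ × ℝ | 0 ≤ p.1 ∧ 0 ≤ p.2 ∧ p.1 + p.2 < a + b - c}) := by
    congr 1
    ext p
    simp only [mem_preimage, mem_ofPred_eq, Prod.fst_sub, Prod.snd_sub]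
    constructor
    · rintro ⟨h1, h2, h3⟩; exact ⟨by linarith, by linarith, by linarith⟩
    · rintro ⟨h1, h2, h3⟩; exact ⟨by linarith, by linarith, by linarith⟩
  rw [h1, ← area_tri' hs]
  have h2 : (fun p : ℝ × ℝ => (a, b) - p) ⁻¹' {p : ℝ × ℝ | 0 ≤ p.1 ∧ 0 ≤ p.2 ∧ p.1 + p.2 < a + b - c} =
      -((fun p : ℝ × ℝ => p + (a, b)) ⁻¹' {p : ℝ × ℝ | 0 ≤ p.1 ∧ 0 ≤ p.2 ∧ p.1 + p.2 < a + b - c}) := by
    ext p
    simp only [mem_preimage, mem_neg, sub_eq_add_neg, add_comm]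
  rw [h2, Measure.measure_neg, measure_preimage_add_right]

lemma area_corner' (a b c : ℝ) (hs : 0 ≤ a + b - c) :
    volume {p : ℝ × ℝ | -p.1 ≤ a ∧ -p.2 ≤ b ∧ c < -(p.1 + p.2)} =
      ENNReal.ofReal ((a + b - c) ^ 2 / 2) := by
  rw [← area_corner a b c hs, ← Measure.measure_neg volume {p : ℝ × ℝ | p.1 ≤ a ∧ p.2 ≤ b ∧ c < p.1 + p.2}]
  congr 1
  ext p
  simp only [mem_neg, mem_ofPred_eq, Prod.fst_neg, Prod.snd_neg]
  constructor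
  · rintro ⟨h1, h2, h3⟩; exact ⟨by linarith, by linarith, by linarith⟩
  · rintro ⟨h1, h2, h3⟩; exact ⟨by linarith, by linarith, by linarith⟩

/-- hexagon with offsets -/
lemma area_H (a₁ a₂ b₁ b₂ c₁ c₂ : ℝ) (h1 : 0 ≤ a₂ + b₂ - c₂) (h2 : 0 ≤ a₁ + b₁ - c₁)
    (h3 : -a₁ ≤ c₂ - b₂) (h4 : -b₁ ≤ c₂ - a₂) (h5 : -a₂ ≤ c₁ - b₁) (h6 : -b₂ ≤ c₁ - a₁)
    (h7 : -c₁ ≤ c₂) :
    volume {p : ℝ × ℝ | (-p.1 ≤ a₁ ∧ p.1 ≤ a₂) ∧ (-p.2 ≤ b₁ ∧ p.2 ≤ b₂) ∧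
      (-(p.1 + p.2) ≤ c₁ ∧ p.1 + p.2 ≤ c₂)} =
      ENNReal.ofReal ((a₁ + a₂) * (b₁ + b₂) - (a₂ + b₂ - c₂) ^ 2 / 2 - (a₁ + b₁ - c₁) ^ 2 / 2) := by
  set R : Set (ℝ × ℝ) := Icc (-a₁) a₂ ×ˢ Icc (-b₁) b₂ with hR
  set S₁ : Set (ℝ × ℝ) := {p : ℝ × ℝ | p.1 ≤ a₂ ∧ p.2 ≤ b₂ ∧ c₂ < p.1 + p.2} with hS₁
  set S₂ : Set (ℝ × ℝ) := {p : ℝ × ℝ | -p.1 ≤ a₁ ∧ -p.2 ≤ b₁ ∧ c₁ < -(p.1 + p.2)} with hS₂
  have m1 : MeasurableSet S₁ := by
    rw [hS₁]; measurability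
  have m2 : MeasurableSet S₂ := by
    rw [hS₂]; measurability
  have hdisj : Disjoint S₁ S₂ := by
    rw [Set.disjoint_left]
    rintro p ⟨_, _, e1⟩ ⟨_, _, e2⟩
    linarith
  have hsub : S₁ ∪ S₂ ⊆ R := by
    rintro p (⟨e1, e2, e3⟩ | ⟨e1, e2, e3⟩)
    · exact ⟨⟨by linarith, e1⟩, ⟨by linarith, e2⟩⟩
    · exact ⟨⟨by linarith, by linarith⟩, ⟨by linarith, by linarith⟩⟩
  have heq : {p : ℝ × ℝ | (-p.1 ≤ a₁ ∧ p.1 ≤ a₂) ∧ (-p.2 ≤ b₁ ∧ p.2 ≤ b₂) ∧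
      (-(p.1 + p.2) ≤ c₁ ∧ p.1 + p.2 ≤ c₂)} = R \ (S₁ ∪ S₂) := by
    ext p
    simp only [hR, hS₁, hS₂, mem_ofPred_eq, mem_sdiff, mem_union, mem_prod, mem_Icc]
    constructor
    · rintro ⟨⟨e1, e2⟩, ⟨e3, e4⟩, ⟨e5, e6⟩⟩
      refine ⟨⟨⟨by linarith, e2⟩, ⟨by linarith, e4⟩⟩, ?_⟩
      rintro (⟨_, _, e7⟩ | ⟨_, _, e7⟩)
      · linarith
      · linarith
    · rintro ⟨⟨⟨e1, e2⟩, ⟨e3, e4⟩⟩, e5⟩
      rw [not_or] at e5
      refine ⟨⟨by linarith, e2⟩, ⟨by linarith, e4⟩, ?_, ?_⟩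
      · by_contra hcon
        exact e5.2 ⟨by linarith, by linarith, by linarith⟩
      · by_contra hcon
        exact e5.1 ⟨by linarith, by linarith, by linarith⟩
  have hRvol : volume R = ENNReal.ofReal ((a₁ + a₂) * (b₁ + b₂)) := by
    rw [hR, Measure.volume_eq_prod, Measure.prod_prod, Real.volume_Icc, Real.volume_Icc,
      ← ENNReal.ofReal_mul (by linarith)]
    congr 1; ring
  have hfin : volume (S₁ ∪ S₂) ≠ ⊤ := by
    refine ne_top_of_le_ne_top ?_ (measure_mono hsub)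
    rw [hRvol]; exact ENNReal.ofReal_ne_top
  rw [heq, measure_sdiff hsub (m1.union m2).nullMeasurableSet hfin, measure_union hdisj m2,
    area_corner _ _ _ h1, area_corner' _ _ _ h2, hRvol,
    ← ENNReal.ofReal_add (by positivity) (by positivity), ← ENNReal.ofReal_sub _ (by positivity)]
  congr 1; ring

/-- product formula in `ℝ⁴` -/
lemma vol_prod4 {S S' : Set (ℝ × ℝ)} (hS : MeasurableSet S) (hS' : MeasurableSet S') :
    volume {x : EuclideanSpace ℝ (Fin 4) | (x 0, x 1) ∈ S ∧ (x 2, x 3) ∈ S'} =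
      volume S * volume S' := by
  have e1 := PiLp.volume_preserving_ofLp (Fin 4)
  have e2 := (volume_measurePreserving_piCongrLeft (fun _ : Fin 4 => ℝ)
    (finSumFinEquiv : Fin 2 ⊕ Fin 2 ≃ Fin 4)).symm
  have e3 := volume_measurePreserving_sumPiEquivProdPi (fun _ : Fin 2 ⊕ Fin 2 => ℝ)
  have e4 := (volume_preserving_finTwoArrow ℝ).prod (volume_preserving_finTwoArrow ℝ)
  have e5 := e4.comp (e3.comp (e2.comp e1))
  have hf := e5.measure_preimage (s := S ×ˢ S') (hS.prod hS').nullMeasurableSet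
  rw [Measure.prod_prod] at hf
  rw [← hf]
  congr 1

end Pool.Agent.Helper876
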