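import Mathlib

set_option autoImplicit false

open scoped Pointwise
open TopologicalSpace Metric Set

namespace Pool.Agent.Helper876

/-- Cancellation: if `A ⊆ K + s A` with `K` closed convex and `0 ≤ s < 1` then `(1 - s) A ⊆ K`. -/
lemma cancel {V : Type*} [NormedAddCommGroup V] [NormedSpace ℝ V] {A K : Set V}
    (hA : IsCompact A) (hK : IsClosed K) (hKc : Convex ℝ K) {s : ℝ}
    (hs0 : 0 ≤ s) (hs1 : s < 1) (h : A ⊆ K + s • A) : (1 - s) • A ⊆ K := by
  intro x hx
  by_contra hxK
  obtain ⟨f, u, hf, hu⟩ := geometric_hahn_banach_closed_point hKc hK hxK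
  obtain ⟨a, haA, rfl⟩ := hx
  obtain ⟨a0, ha0, hmax⟩ := hA.exists_isMaxOn ⟨a, haA⟩ (f.continuous.continuousOn)
  have hmax' : ∀ y ∈ A, f y ≤ f a0 := fun y hy => hmax hy
  obtain ⟨k, hk, y, ⟨a1, ha1, rfl⟩, hsum⟩ := h ha0
  simp only at hsum hu
  have h1 : f a0 = f k + s * f a1 := by
    rw [← hsum]; simp
  have h2 := hf k hk
  have h3 := hmax' a1 ha1
  have h4 := hmax' a haA
  have h5 : f ((1 - s) • a) = (1 - s) * f a := by simp
  rw [h5] at hu
  have h6 : s * f a1 ≤ s * f a0 := mul_le_mul_of_nonneg_left h3 hs0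
  have h7 : (1 - s) * f a ≤ (1 - s) * f a0 := mul_le_mul_of_nonneg_left h4 (by linarith)
  nlinarith

/-- If `K` is Hausdorff close to `C` and `C` contains a ball around the origin, then
`(1 - s) C ⊆ K ⊆ (1 + s) C`. -/
lemma near {V : Type*} [NormedAddCommGroup V] [NormedSpace ℝ V] {C K : ConvexBody V}
    {r s : ℝ} (hr : closedBall (0 : V) r ⊆ (C : Set V)) (_hr0 : 0 < r) (hs0 : 0 < s) (hs1 : s < 1)
    (h : dist C K < s * r) :
    (1 - s) • (C : Set V) ⊆ (K : Set V) ∧ (K : Set V) ⊆ (1 + s) • (C : Set V) := by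
  have hd : Metric.hausdorffDist (C : Set V) K < s * r := h
  have key : ∀ v : V, ‖v‖ < s * r → v ∈ s • (C : Set V) := by
    intro v hv
    refine ⟨s⁻¹ • v, hr ?_, ?_⟩
    · rw [mem_closedBall_zero_iff, norm_smul, norm_inv, Real.norm_of_nonneg hs0.le,
        inv_mul_le_iff₀ hs0]
      exact hv.le
    · simp only
      rw [smul_smul, mul_inv_cancel₀ hs0.ne', one_smul]
  constructor
  · refine cancel C.isCompact K.isClosed K.convex hs0.le hs1 ?_
    intro x hx
    obtain ⟨y, hy, hxy⟩ := exists_dist_lt_of_hausdorffDist_lt hx hd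
      ConvexBody.hausdorffEDist_ne_top
    refine ⟨y, hy, x - y, key _ (by rwa [dist_eq_norm] at hxy), ?_⟩
    simp
  · intro x hx
    obtain ⟨y, hy, hxy⟩ := exists_dist_lt_of_hausdorffDist_lt' hx hd
      ConvexBody.hausdorffEDist_ne_top
    rw [C.convex.add_smul zero_le_one hs0.le, one_smul]
    refine ⟨y, hy, x - y, key _ ?_, by simp⟩
    rw [← norm_neg, neg_sub, ← dist_eq_norm]
    exact hxy

/-- A symmetric convex set with nonempty interior contains a ball around the origin. -/
lemma exists_ball {V : Type*} [NormedAddCommGroup V] [NormedSpace ℝ V] {K : Set V}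
    (hc : Convex ℝ K) (hsym : ∀ x ∈ K, -x ∈ K) (hi : (interior K).Nonempty) :
    ∃ r : ℝ, 0 < r ∧ closedBall (0 : V) r ⊆ K := by
  obtain ⟨x, hx⟩ := hi
  obtain ⟨ε, hε, hb⟩ := Metric.isOpen_iff.1 isOpen_interior x hx
  refine ⟨ε / 2, by positivity, ?_⟩
  intro v hv
  rw [mem_closedBall_zero_iff] at hv
  have h1 : x + v ∈ K := interior_subset (hb (by
    rw [mem_ball, dist_eq_norm]; simp; linarith))
  have h2 : x - v ∈ K := interior_subset (hb (by
    rw [mem_ball, dist_eq_norm]; simp; linarith))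
  have h3 := hsym _ h2
  have h4 := hc h1 h3 (by norm_num : (0:ℝ) ≤ 1/2) (by norm_num : (0:ℝ) ≤ 1/2) (by norm_num)
  have h5 : (1/2 : ℝ) • (x + v) + (1/2 : ℝ) • (-(x - v)) = v := by
    rw [← smul_add]
    have : x + v + -(x - v) = (2:ℝ) • v := by rw [two_smul]; abel
    rw [this, smul_smul]; norm_num
  rwa [h5] at h4

/-- The space of o-symmetric convex bodies with nonempty interior. -/
abbrev SymBody (V : Type*) [NormedAddCommGroup V] [NormedSpace ℝ V] :=
  {K : ConvexBody V // (∀ x ∈ (K : Set V), -x ∈ (K : Set V)) ∧ (interior (K : Set V)).Nonempty}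

section Baire

variable {V : Type*} [NormedAddCommGroup V] [NormedSpace ℝ V]

lemma edist_coe_nonemptyCompacts (A B : NonemptyCompacts V) :
    edist A B = hausdorffEDist (A : Set V) B := rfl

lemma isClosed_symConvex :
    IsClosed {K : NonemptyCompacts V | Convex ℝ (K : Set V) ∧ ∀ x ∈ (K : Set V), -x ∈ (K : Set V)} := by
  rw [← isSeqClosed_iff_isClosed]
  intro u K hu hK
  have hdist : ∀ ε > 0, ∃ n, Metric.hausdorffDist (u n : Set V) K < ε := by
    intro ε hε
    rw [Metric.tendsto_atTop] at hK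
    obtain ⟨N, hN⟩ := hK ε hε
    exact ⟨N, by simpa [NonemptyCompacts.dist_eq] using hN N le_rfl⟩
  have hfin : ∀ n, hausdorffEDist (u n : Set V) K ≠ ⊤ := fun n =>
    hausdorffEDist_ne_top_of_nonempty_of_bounded (u n).nonempty K.nonempty
      (u n).isCompact.isBounded K.isCompact.isBounded
  have hcl : IsClosed (K : Set V) := K.isCompact.isClosed
  constructor
  · rw [convex_iff_forall_pos]
    intro x hx y hy a b ha hb hab
    rw [← hcl.closure_eq, Metric.mem_closure_iff]
    intro ε hε
    obtain ⟨n, hn⟩ := hdist (ε / 2) (by positivity)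
    obtain ⟨x', hx', hxx⟩ := exists_dist_lt_of_hausdorffDist_lt' hx hn (hfin n)
    obtain ⟨y', hy', hyy⟩ := exists_dist_lt_of_hausdorffDist_lt' hy hn (hfin n)
    have hz : a • x' + b • y' ∈ (u n : Set V) := (hu n).1 hx' hy' ha.le hb.le hab
    obtain ⟨z, hz', hzz⟩ := exists_dist_lt_of_hausdorffDist_lt hz hn (hfin n)
    refine ⟨z, hz', ?_⟩
    have h1 : dist (a • x + b • y) (a • x' + b • y') < ε / 2 := by
      calc dist (a • x + b • y) (a • x' + b • y')
          ≤ dist (a • x) (a • x') + dist (b • y) (b • y') := dist_add_add_le _ _ _ _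
        _ = a * dist x x' + b * dist y y' := by
            rw [dist_smul₀, dist_smul₀, Real.norm_of_nonneg ha.le, Real.norm_of_nonneg hb.le]
        _ < a * (ε / 2) + b * (ε / 2) := by
            rw [dist_comm x x', dist_comm y y']
            have := mul_lt_mul_of_pos_left hxx ha
            have := mul_lt_mul_of_pos_left hyy hb
            linarith
        _ = ε / 2 := by rw [← add_mul, hab, one_mul]
    calc dist (a • x + b • y) z ≤ dist (a • x + b • y) (a • x' + b • y') +
          dist (a • x' + b • y') z := dist_triangle _ _ _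
      _ < ε := by linarith
  · intro x hx
    rw [← hcl.closure_eq, Metric.mem_closure_iff]
    intro ε hε
    obtain ⟨n, hn⟩ := hdist (ε / 2) (by positivity)
    obtain ⟨x', hx', hxx⟩ := exists_dist_lt_of_hausdorffDist_lt' hx hn (hfin n)
    have hz : -x' ∈ (u n : Set V) := (hu n).2 x' hx'
    obtain ⟨z, hz', hzz⟩ := exists_dist_lt_of_hausdorffDist_lt hz hn (hfin n)
    refine ⟨z, hz', ?_⟩
    calc dist (-x) z ≤ dist (-x) (-x') + dist (-x') z := dist_triangle _ _ _
      _ < ε := by
        rw [dist_neg_neg, dist_comm]; linarith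

/-- symmetric convex bodies, possibly with empty interior -/
abbrev Sub (V : Type*) [NormedAddCommGroup V] [NormedSpace ℝ V] :=
  {K : NonemptyCompacts V | Convex ℝ (K : Set V) ∧ ∀ x ∈ (K : Set V), -x ∈ (K : Set V)}

/-- the natural map to nonempty compacts -/
def toSub (C : SymBody V) : Sub V :=
  ⟨⟨⟨(C.1 : Set V), C.1.isCompact⟩, C.1.nonempty⟩, C.1.convex, C.2.1⟩

lemma isometry_toSub : Isometry (toSub : SymBody V → Sub V) := by
  intro A B
  rw [Subtype.edist_eq, Subtype.edist_eq]
  change hausdorffEDist (A.1 : Set V) (B.1 : Set V) = edist A.1 B.1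
  exact ConvexBody.hausdorffEDist_coe _ _

/-- a member of `Sub` as a convex body -/
def ofSub (K : Sub V) : ConvexBody V := ⟨(K.1 : Set V), K.2.1, K.1.isCompact, K.1.nonempty⟩

lemma dist_ofSub (K L : Sub V) : dist (ofSub K) (ofSub L) = dist K L := rfl

lemma isOpen_range_toSub : IsOpen (range (toSub : SymBody V → Sub V)) := by
  rw [Metric.isOpen_iff]
  rintro _ ⟨C, rfl⟩
  obtain ⟨r, hr0, hr⟩ := exists_ball C.1.convex C.2.1 C.2.2
  refine ⟨1 / 2 * r, by positivity, ?_⟩
  intro K hK
  rw [mem_ball, dist_comm] at hK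
  have h1 := near (C := C.1) (K := ofSub K) hr hr0 (s := 1 / 2) (by norm_num) (by norm_num) hK
  have hint : (interior (ofSub K : Set V)).Nonempty := by
    refine ⟨0, ?_⟩
    have h2 : ball (0 : V) (r / 2) ⊆ (ofSub K : Set V) := by
      intro x hx
      apply h1.1
      refine ⟨(2 : ℝ) • x, hr ?_, ?_⟩
      · rw [mem_closedBall_zero_iff, norm_smul]
        rw [mem_ball_zero_iff] at hx
        norm_num
        linarith
      · simp only
        rw [smul_smul]; norm_num
    exact interior_mono h2 (by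
      rw [isOpen_ball.interior_eq]; exact mem_ball_self (by positivity))
  exact ⟨⟨ofSub K, K.2.2, hint⟩, rfl⟩

instance baireSymBody [CompleteSpace V] : BaireSpace (SymBody V) := by
  have : CompleteSpace (Sub V) :=
    (isClosed_symConvex (V := V)).completeSpace_coe
  have h : Topology.IsOpenEmbedding (toSub : SymBody V → Sub V) :=
    ⟨isometry_toSub.isEmbedding, isOpen_range_toSub⟩
  exact h.baireSpace

end Baire

end Pool.Agent.Helper876
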