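import Mathlib

set_option autoImplicit false

namespace Pool.Agent.Helper876

open MeasureTheory Set Filter Topology
open scoped Pointwise

abbrev E3 := EuclideanSpace ℝ (Fin 3)
abbrev W2 := Fin 2 → ℝ

/-- planar coordinates -/
def tl (x : E3) : W2 := fun j => x j.succ

/-- the point with first coordinate `s` and planar coordinates `w` -/
noncomputable def gl (p : ℝ × W2) : E3 := WithLp.toLp 2 (Fin.cons p.1 p.2)

/-- first unit vector -/
noncomputable def e0 : E3 := EuclideanSpace.single 0 1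

lemma gl_zero (p : ℝ × W2) : gl p 0 = p.1 := rfl
lemma tl_gl (p : ℝ × W2) : tl (gl p) = p.2 := by funext j; rfl
lemma gl_tl (x : E3) : gl (x 0, tl x) = x := by
  ext i
  refine Fin.cases ?_ (fun j => ?_) i
  · rfl
  · rfl

lemma continuous_gl : Continuous gl := by
  refine (PiLp.continuous_toLp 2 _).comp ?_
  refine continuous_pi fun i => ?_
  refine Fin.cases ?_ (fun j => ?_) i
  · exact continuous_fst
  · exact (continuous_apply j).comp continuous_snd

lemma continuous_tl : Continuous tl := by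
  unfold tl
  fun_prop

lemma mp_split : MeasurePreserving (fun x : E3 => (x 0, tl x)) volume
    (volume : Measure (ℝ × W2)) := by
  have e1 := PiLp.volume_preserving_ofLp (Fin 3)
  have e2 := volume_preserving_piFinSuccAbove (fun _ : Fin 3 => ℝ) 0
  exact e2.comp e1

lemma vol_gl {M : Set E3} (hM : MeasurableSet M) : volume M = volume (gl ⁻¹' M) := by
  have h := mp_split.measure_preimage (s := gl ⁻¹' M)
    ((continuous_gl.measurable hM).nullMeasurableSet)
  rw [← h]
  congr 1
  ext x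
  simp only [mem_preimage, gl_tl]

lemma vol_slab {I : Set ℝ} {S : Set W2} (hI : MeasurableSet I) (hS : MeasurableSet S) :
    volume {x : E3 | x 0 ∈ I ∧ tl x ∈ S} = volume I * volume S := by
  have h := mp_split.measure_preimage (s := I ×ˢ S) (hI.prod hS).nullMeasurableSet
  rw [Measure.volume_eq_prod, Measure.prod_prod] at h
  rw [← h]
  rfl

lemma gl_sub (s a : ℝ) (w : W2) : gl (s, w) - a • e0 = gl (s - a, w) := by
  ext i
  refine Fin.cases ?_ (fun j => ?_) i
  · simp [gl, e0]
  · simp [gl, e0]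

lemma gl_add (s a : ℝ) (w : W2) : gl (s, w) + a • e0 = gl (s + a, w) := by
  ext i
  refine Fin.cases ?_ (fun j => ?_) i
  · simp [gl, e0]
  · simp [gl, e0]

lemma segment_e0 : segment ℝ (0 : E3) e0 = (fun a : ℝ => a • e0) '' Icc 0 1 := by
  rw [segment_eq_image]
  ext x
  simp

/-- Cavalieri's principle for sweeping a convex body by a unit segment. -/
lemma cavalieri {M : Set E3} (hM : IsCompact M) (hc : Convex ℝ M) :
    volume (M + segment ℝ (0 : E3) e0) = volume M + volume (tl '' M) := by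
  have hseg : IsCompact (segment ℝ (0 : E3) e0) := by
    rw [segment_e0]
    exact isCompact_Icc.image (by fun_prop)
  have hM1 : IsCompact (M + segment ℝ (0 : E3) e0) := hM.add hseg
  rw [vol_gl hM1.measurableSet, vol_gl hM.measurableSet, Measure.volume_eq_prod,
    Measure.prod_apply_symm (continuous_gl.measurable hM1.measurableSet),
    Measure.prod_apply_symm (continuous_gl.measurable hM.measurableSet)]
  have hpl : MeasurableSet (tl '' M) := (hM.image continuous_tl).measurableSet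
  have key : ∀ w : W2, volume ((fun s : ℝ => (s, w)) ⁻¹' (gl ⁻¹' (M + segment ℝ (0 : E3) e0))) =
      volume ((fun s : ℝ => (s, w)) ⁻¹' (gl ⁻¹' M)) + (tl '' M).indicator 1 w := by
    intro w
    set T : Set ℝ := (fun s : ℝ => (s, w)) ⁻¹' (gl ⁻¹' M) with hT
    have hfib : (fun s : ℝ => (s, w)) ⁻¹' (gl ⁻¹' (M + segment ℝ (0 : E3) e0)) = T + Icc 0 1 := by
      ext s
      simp only [mem_preimage]
      constructor
      · rintro ⟨m, hm, y, hy, hmy⟩
        rw [segment_e0] at hy
        obtain ⟨a, ha, rfl⟩ := hy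
        refine ⟨s - a, ?_, a, ha, by simp⟩
        show gl (s - a, w) ∈ M
        rw [← gl_sub, ← hmy]
        simpa using hm
      · rintro ⟨s', hs', a, ha, rfl⟩
        refine ⟨gl (s', w), hs', a • e0, ?_, ?_⟩
        · rw [segment_e0]; exact ⟨a, ha, rfl⟩
        · exact gl_add s' a w
    rw [hfib]
    by_cases hw : w ∈ tl '' M
    · rw [indicator_of_mem hw]
      have hTne : T.Nonempty := by
        obtain ⟨x, hx, rfl⟩ := hw
        refine ⟨x 0, ?_⟩
        show gl (x 0, tl x) ∈ M
        rw [gl_tl]; exact hx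
      have hTclosed : IsClosed T := by
        apply IsClosed.preimage (by fun_prop)
        exact hM.isClosed.preimage continuous_gl
      have hTsub : T ⊆ (fun x : E3 => x 0) '' M := by
        intro s hs
        exact ⟨gl (s, w), hs, rfl⟩
      have hTc : IsCompact T :=
        IsCompact.of_isClosed_subset (hM.image (by fun_prop)) hTclosed hTsub
      have hTconv : Convex ℝ T := by
        intro s hs s' hs' a b ha hb hab
        have := hc hs hs' ha hb hab
        show gl (a • s + b • s', w) ∈ M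
        have e : a • gl (s, w) + b • gl (s', w) = gl (a • s + b • s', w) := by
          ext i
          refine Fin.cases ?_ (fun j => ?_) i
          · simp [gl]
          · simp only [gl, PiLp.add_apply, PiLp.smul_apply, Fin.cons_succ, smul_eq_mul]
            rw [← add_mul, hab, one_mul]
        rw [← e]; exact this
      have hTicc := eq_Icc_of_connected_compact ⟨hTne, hTconv.isPreconnected⟩ hTc
      have hle : sInf T ≤ sSup T := csInf_le_csSup hTne hTc.bddBelow hTc.bddAbove
      rw [hTicc]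
      have hadd : Icc (sInf T) (sSup T) + Icc (0:ℝ) 1 = Icc (sInf T + 0) (sSup T + 1) :=
        Set.Icc_add_Icc hle zero_le_one
      rw [hadd, Real.volume_Icc, Real.volume_Icc, add_zero, Pi.one_apply,
        ← ENNReal.ofReal_one, ← ENNReal.ofReal_add (by linarith) zero_le_one]
      congr 1; ring
    · rw [indicator_of_notMem hw]
      have hTe : T = ∅ := by
        ext s
        simp only [mem_empty_iff_false, iff_false]
        intro hs
        exact hw ⟨gl (s, w), hs, tl_gl _⟩
      rw [hTe, Set.empty_add, measure_empty, add_zero]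
  simp only [key]
  rw [lintegral_add_right _ (measurable_one.indicator hpl), lintegral_indicator_one hpl]

/-- orthogonal projection along `e0` -/
noncomputable def pz (x : E3) : E3 := x - (x 0) • e0

lemma pz_zero (x : E3) : pz x 0 = 0 := by simp [pz, e0]
lemma tl_pz (x : E3) : tl (pz x) = tl x := by
  funext j; simp [tl, pz, e0]

lemma norm_sq_E3 (x : E3) : ‖x‖ ^ 2 = x 0 ^ 2 + (tl x 0 ^ 2 + tl x 1 ^ 2) := by
  rw [EuclideanSpace.norm_sq_eq, Fin.sum_univ_three]
  simp only [Real.norm_eq_abs, sq_abs, tl]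
  have h1 : (Fin.succ (0 : Fin 2) : Fin 3) = 1 := rfl
  have h2 : (Fin.succ (1 : Fin 2) : Fin 3) = 2 := rfl
  rw [h1, h2]; ring

/-- planar disc -/
def disc (r : ℝ) : Set W2 := {w | w 0 ^ 2 + w 1 ^ 2 ≤ r ^ 2}

lemma disc_smul {r t : ℝ} (hr : 0 < r) (ht : 0 < t) {w : W2} (hw : w ∈ disc t) :
    w ∈ (t / r) • disc r := by
  rw [mem_smul_set_iff_inv_smul_mem₀ (by positivity)]
  simp only [disc, mem_ofPred_eq, Pi.smul_apply, smul_eq_mul] at hw ⊢
  have : ((t / r)⁻¹ * w 0) ^ 2 + ((t / r)⁻¹ * w 1) ^ 2 = (r / t) ^ 2 * (w 0 ^ 2 + w 1 ^ 2) := by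
    rw [inv_div]; ring
  rw [this]
  calc (r / t) ^ 2 * (w 0 ^ 2 + w 1 ^ 2) ≤ (r / t) ^ 2 * t ^ 2 := by gcongr
    _ = r ^ 2 := by field_simp

lemma tl_add (x y : E3) : tl (x + y) = tl x + tl y := by funext j; simp [tl]

lemma convex_tl {M : Set E3} (hc : Convex ℝ M) : Convex ℝ (tl '' M) := by
  rintro _ ⟨x, hx, rfl⟩ _ ⟨y, hy, rfl⟩ a b ha hb hab
  exact ⟨a • x + b • y, hc hx hy ha hb hab, by funext j; simp [tl]⟩

lemma upper_vol {M : Set E3} (hM : IsCompact M) (hc : Convex ℝ M) {r t : ℝ} (hr : 0 < r)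
    (ht : 0 < t) (hd : disc r ⊆ tl '' M) :
    (volume (pz '' M + Metric.closedBall (0 : E3) t)).toReal ≤
      2 * t * (1 + t / r) ^ 2 * (volume (tl '' M)).toReal := by
  have hLc := convex_tl hc
  have hLk : IsCompact (tl '' M) := hM.image continuous_tl
  have hsub : pz '' M + Metric.closedBall (0 : E3) t ⊆
      {x : E3 | x 0 ∈ Icc (-t) t ∧ tl x ∈ (1 + t / r) • (tl '' M)} := by
    rintro _ ⟨_, ⟨m, hm, rfl⟩, v, hv, rfl⟩
    rw [mem_closedBall_zero_iff] at hv
    have hv2 : ‖v‖ ^ 2 ≤ t ^ 2 := pow_le_pow_left₀ (norm_nonneg _) hv 2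
    rw [norm_sq_E3] at hv2
    constructor
    · have : (pz m + v) 0 = v 0 := by simp [pz_zero]
      simp only [this, mem_Icc]
      exact abs_le.1 (abs_le_of_sq_le_sq (by nlinarith [sq_nonneg (tl v 0), sq_nonneg (tl v 1)]) ht.le)
    · simp only [tl_add, tl_pz]
      rw [hLc.add_smul zero_le_one (by positivity), one_smul]
      refine ⟨tl m, ⟨m, hm, rfl⟩, tl v, ?_, rfl⟩
      have h1 : tl v ∈ disc t := by
        simp only [disc, mem_ofPred_eq]
        nlinarith [sq_nonneg (v 0)]
      exact smul_set_mono hd (disc_smul hr ht h1)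
  have hms : MeasurableSet ((1 + t / r) • (tl '' M)) := (hLk.smul _).measurableSet
  have hvol := vol_slab (I := Icc (-t) t) (S := (1 + t / r) • (tl '' M)) measurableSet_Icc hms
  have hfin : volume (tl '' M) ≠ ⊤ := hLk.measure_lt_top.ne
  rw [Real.volume_Icc, Measure.addHaar_smul, Module.finrank_fin_fun] at hvol
  calc (volume (pz '' M + Metric.closedBall (0 : E3) t)).toReal
      ≤ (volume {x : E3 | x 0 ∈ Icc (-t) t ∧ tl x ∈ (1 + t / r) • (tl '' M)}).toReal := by
        apply ENNReal.toReal_mono _ (measure_mono hsub)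
        rw [hvol]
        exact ENNReal.mul_ne_top ENNReal.ofReal_ne_top (ENNReal.mul_ne_top ENNReal.ofReal_ne_top hfin)
    _ = 2 * t * (1 + t / r) ^ 2 * (volume (tl '' M)).toReal := by
        rw [hvol, ENNReal.toReal_mul, ENNReal.toReal_mul, ENNReal.toReal_ofReal (by linarith),
          ENNReal.toReal_ofReal (abs_nonneg _), abs_of_nonneg (by positivity)]
        ring

lemma lower_vol {M : Set E3} (hM : IsCompact M) {R t : ℝ} (hR : 0 < R)
    (ht : 0 < t) (hd : tl '' M ⊆ disc R) :
    (volume (tl '' M)).toReal * (2 * t + 48 * t ^ 2 / (25 * R)) ≤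
    (volume (pz '' M + Metric.closedBall (0 : E3) t)).toReal := by
  have hLk : IsCompact (tl '' M) := hM.image continuous_tl
  set σ : ℝ := 3 * t / (5 * R) with hσ
  have hσ0 : 0 < σ := by positivity
  set A₁ : Set E3 := {x : E3 | x 0 ∈ Icc (-(4 * t / 5)) (4 * t / 5) ∧ tl x ∈ (1 + σ) • (tl '' M)}
    with hA₁
  set A₂ : Set E3 := {x : E3 | x 0 ∈ Icc (-t) t \ Icc (-(4 * t / 5)) (4 * t / 5) ∧ tl x ∈ tl '' M}
    with hA₂
  have hms : MeasurableSet ((1 + σ) • (tl '' M)) := (hLk.smul _).measurableSet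
  have hmL : MeasurableSet (tl '' M) := hLk.measurableSet
  have hfin : volume (tl '' M) ≠ ⊤ := hLk.measure_lt_top.ne
  have hv1 : volume A₁ = _ := vol_slab (I := Icc (-(4 * t / 5)) (4 * t / 5)) measurableSet_Icc hms
  have hv2 : volume A₂ = _ := vol_slab (I := Icc (-t) t \ Icc (-(4 * t / 5)) (4 * t / 5))
    (measurableSet_Icc.diff measurableSet_Icc) hmL
  have hsub1 : A₁ ⊆ pz '' M + Metric.closedBall (0 : E3) t := by
    rintro x ⟨⟨h1, h1'⟩, y, hy, hxy⟩
    obtain ⟨m, hm, rfl⟩ := hy
    refine ⟨pz m, ⟨m, hm, rfl⟩, x - pz m, ?_, by simp⟩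
    rw [mem_closedBall_zero_iff]
    apply le_of_sq_le_sq _ ht.le
    rw [norm_sq_E3]
    have e1 : (x - pz m) 0 = x 0 := by simp [pz_zero]
    have e2 : tl (x - pz m) = σ • tl m := by
      have : tl (x - pz m) = tl x - tl (pz m) := by funext j; simp [tl]
      rw [this, tl_pz, ← hxy]
      simp only
      rw [add_smul, one_smul]; abel
    have e3 : tl m ∈ disc R := hd ⟨m, hm, rfl⟩
    simp only [disc, mem_ofPred_eq] at e3
    rw [e1, e2]
    simp only [Pi.smul_apply, smul_eq_mul]
    have e4 : (x 0) ^ 2 ≤ (4 * t / 5) ^ 2 := sq_le_sq' h1 h1'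
    have e5 : (σ * tl m 0) ^ 2 + (σ * tl m 1) ^ 2 ≤ (3 * t / 5) ^ 2 := by
      have : (σ * tl m 0) ^ 2 + (σ * tl m 1) ^ 2 = σ ^ 2 * (tl m 0 ^ 2 + tl m 1 ^ 2) := by ring
      rw [this]
      calc σ ^ 2 * (tl m 0 ^ 2 + tl m 1 ^ 2) ≤ σ ^ 2 * R ^ 2 := by gcongr
        _ = (3 * t / 5) ^ 2 := by rw [hσ]; field_simp
    nlinarith
  have hsub2 : A₂ ⊆ pz '' M + Metric.closedBall (0 : E3) t := by
    rintro x ⟨⟨⟨h1, h1'⟩, _⟩, m, hm, hxy⟩
    refine ⟨pz m, ⟨m, hm, rfl⟩, x - pz m, ?_, by simp⟩
    rw [mem_closedBall_zero_iff]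
    apply le_of_sq_le_sq _ ht.le
    rw [norm_sq_E3]
    have e1 : (x - pz m) 0 = x 0 := by simp [pz_zero]
    have e2 : tl (x - pz m) = 0 := by
      have : tl (x - pz m) = tl x - tl (pz m) := by funext j; simp [tl]
      rw [this, tl_pz, ← hxy, sub_self]
    rw [e1, e2]
    simp only [Pi.zero_apply]
    have e4 : (x 0) ^ 2 ≤ t ^ 2 := sq_le_sq' h1 h1'
    nlinarith
  have hdisj : Disjoint A₁ A₂ := by
    rw [Set.disjoint_left]
    rintro x ⟨h1, _⟩ ⟨h2, _⟩
    exact h2.2 h1
  have hmA₂ : MeasurableSet A₂ := by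
    have : A₂ = (fun x : E3 => (x 0, tl x)) ⁻¹'
      ((Icc (-t) t \ Icc (-(4 * t / 5)) (4 * t / 5)) ×ˢ (tl '' M)) := rfl
    rw [this]
    exact mp_split.measurable ((measurableSet_Icc.diff measurableSet_Icc).prod hmL)
  have hfinT : volume (pz '' M + Metric.closedBall (0 : E3) t) ≠ ⊤ := by
    have : IsCompact (pz '' M + Metric.closedBall (0 : E3) t) := by
      apply IsCompact.add _ (isCompact_closedBall _ _)
      apply hM.image
      unfold pz; fun_prop
    exact this.measure_lt_top.ne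
  have hle : volume A₁ + volume A₂ ≤ volume (pz '' M + Metric.closedBall (0 : E3) t) := by
    rw [← measure_union hdisj hmA₂]
    exact measure_mono (union_subset hsub1 hsub2)
  have hI : volume (Icc (-t) t \ Icc (-(4 * t / 5)) (4 * t / 5)) = ENNReal.ofReal (2 * t / 5) := by
    rw [measure_sdiff (Icc_subset_Icc (by linarith) (by linarith))
      measurableSet_Icc.nullMeasurableSet (by rw [Real.volume_Icc]; exact ENNReal.ofReal_ne_top),
      Real.volume_Icc, Real.volume_Icc, ← ENNReal.ofReal_sub _ (by linarith)]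
    congr 1; ring
  rw [Real.volume_Icc, Measure.addHaar_smul, Module.finrank_fin_fun] at hv1
  rw [hI] at hv2
  have hfin1 : volume A₁ ≠ ⊤ := by
    rw [hv1]
    exact ENNReal.mul_ne_top ENNReal.ofReal_ne_top (ENNReal.mul_ne_top ENNReal.ofReal_ne_top hfin)
  have hfin2 : volume A₂ ≠ ⊤ := by
    rw [hv2]
    exact ENNReal.mul_ne_top ENNReal.ofReal_ne_top hfin
  have hle' := ENNReal.toReal_mono hfinT hle
  rw [ENNReal.toReal_add hfin1 hfin2, hv1, hv2, ENNReal.toReal_mul, ENNReal.toReal_mul,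
    ENNReal.toReal_mul, ENNReal.toReal_ofReal (by linarith), ENNReal.toReal_ofReal (abs_nonneg _),
    ENNReal.toReal_ofReal (by positivity), abs_of_nonneg (by positivity)] at hle'
  refine le_trans ?_ hle'
  set a : ℝ := (volume (tl '' M)).toReal with ha
  have ha0 : 0 ≤ a := ENNReal.toReal_nonneg
  have e6 : 48 * t ^ 2 / (25 * R) = (8 * t / 5) * (2 * σ) := by rw [hσ]; field_simp; ring
  rw [e6]
  have e7 : 0 ≤ a * (8 * t / 5 * σ ^ 2) := by positivity
  nlinarith

end Pool.Agent.Helper876
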