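import Mathlib

set_option autoImplicit false

namespace Pool.Agent.Helper876

open Matrix

/-- First order expansion of the determinant at the identity. -/
lemma det_near_one (d : ℕ) {κ : ℝ} (hκ : 0 < κ) :
    ∃ η : ℝ, 0 < η ∧ ∀ M : Matrix (Fin d) (Fin d) ℝ, ∀ m : ℝ, 0 ≤ m → m ≤ η →
      (∀ i j, |M i j| ≤ m) → |(1 + M).det - (1 + M.trace)| ≤ κ * m := by
  let f : (Fin d → Fin d → ℝ) → ℝ := fun M => (1 + Matrix.of M).det
  have hf : Differentiable ℝ f := by
    have : f = fun M => ∑ σ : Equiv.Perm (Fin d), (Equiv.Perm.sign σ : ℤ) *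
        ∏ i, ((1 : Matrix (Fin d) (Fin d) ℝ) (σ i) i + M (σ i) i) := by
      funext M
      simp only [f]
      rw [Matrix.det_apply']
      rfl
    rw [this]
    fun_prop
  obtain ⟨L, hL⟩ : ∃ L, HasFDerivAt f L 0 := ⟨_, (hf 0).hasFDerivAt⟩
  have hLtr : ∀ N : Fin d → Fin d → ℝ, L N = (Matrix.of N).trace := by
    intro N
    set M := Matrix.of N with hM
    have h1 : HasDerivAt (fun r : ℝ => f (r • N)) (L N) 0 := by
      have h2 : HasDerivAt (fun r : ℝ => r • N) ((1:ℝ) • N) 0 :=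
        (hasDerivAt_id (0:ℝ)).smul_const N
      rw [one_smul] at h2
      have h3 : HasFDerivAt f L ((0:ℝ) • N) := by rw [zero_smul]; exact hL
      exact h3.comp_hasDerivAt (0:ℝ) h2
    obtain ⟨p, hp⟩ : ∃ p : Polynomial ℝ, ∀ r : ℝ,
        (1 + r • M).det = 1 + M.trace * r + Polynomial.eval r p * r ^ 2 :=
      ⟨_, fun r => Matrix.det_one_add_smul r M⟩
    have h4 : (fun r : ℝ => f (r • N)) = fun r : ℝ =>
        1 + M.trace * r + Polynomial.eval r p * r ^ 2 := by
      funext r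
      exact hp r
    rw [h4] at h1
    have h5 : HasDerivAt (fun r : ℝ => 1 + M.trace * r + Polynomial.eval r p * r ^ 2)
        ((0 + M.trace * 1) + (Polynomial.eval 0 (Polynomial.derivative p) * 0 ^ 2 +
          Polynomial.eval 0 p * (2 * 0 ^ (2-1) * 1))) 0 := by
      refine HasDerivAt.add (HasDerivAt.add (hasDerivAt_const _ _) ?_) ?_
      · exact (hasDerivAt_id (0:ℝ)).const_mul _
      · exact (p.hasDerivAt 0).mul ((hasDerivAt_id (0:ℝ)).pow 2)
    have h6 := h1.unique h5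
    rw [h6]; simp
  have ho := hL.isLittleO
  rw [Asymptotics.isLittleO_iff] at ho
  have := ho hκ
  rw [Metric.eventually_nhds_iff] at this
  obtain ⟨ε, hε, h⟩ := this
  refine ⟨ε / 2, by positivity, ?_⟩
  intro M m hm0 hm hM
  obtain ⟨N, rfl⟩ : ∃ N : Fin d → Fin d → ℝ, Matrix.of N = M := ⟨fun i j => M i j, rfl⟩
  have hn : ‖N‖ ≤ m := by
    rw [pi_norm_le_iff_of_nonneg hm0]
    intro i
    rw [pi_norm_le_iff_of_nonneg hm0]
    intro j
    exact hM i j
  have h7 := @h N (by rw [dist_zero_right]; linarith)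
  rw [sub_zero, hLtr N] at h7
  have h9 : f (0 : Fin d → Fin d → ℝ) = 1 := by
    simp only [f]
    have : Matrix.of (0 : Fin d → Fin d → ℝ) = 0 := rfl
    rw [this, add_zero, Matrix.det_one]
  rw [h9, Real.norm_eq_abs] at h7
  calc |(1 + Matrix.of N).det - (1 + (Matrix.of N).trace)|
      = |f N - 1 - (Matrix.of N).trace| := by simp only [f]; ring_nf
    _ ≤ κ * ‖N‖ := h7
    _ ≤ κ * m := by gcongr

end Pool.Agent.Helper876
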