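import Mathlib
import Pool.Agent.Helper876.Det
import Pool.Agent.Helper876.Bodies

set_option autoImplicit false

namespace Pool.Agent.Helper876

open Matrix Finset
open scoped Pointwise

variable {d : ℕ}

/-- the quadratic form of the root lattice `A_d` -/
def q (x : Fin d → ℝ) : ℝ := ∑ i, x i ^ 2 + (∑ i, x i) ^ 2

/-- the all-ones matrix -/
def J (d : ℕ) : Matrix (Fin d) (Fin d) ℝ := Matrix.of fun _ _ => 1

/-- Gram matrix of `q` -/
def Q (d : ℕ) : Matrix (Fin d) (Fin d) ℝ := 1 + J d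

lemma q_eq (x : Fin d → ℝ) : q x = x ⬝ᵥ (Q d *ᵥ x) := by
  unfold q Q J
  rw [Matrix.add_mulVec, Matrix.one_mulVec, dotProduct_add]
  congr 1
  · simp [dotProduct, sq]
  · simp only [dotProduct, mulVec, Matrix.of_apply, one_mul]
    rw [← Finset.sum_mul, sq]

lemma J_mul_J : J d * J d = (d : ℝ) • J d := by
  ext i j
  simp [J, Matrix.mul_apply]

lemma Q_mul_inv : Q d * (1 - (1 / ((d : ℝ) + 1)) • J d) = 1 := by
  unfold Q
  have h : ((d : ℝ) + 1) ≠ 0 := by positivity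
  rw [add_mul, mul_sub, mul_sub, Matrix.mul_smul, Matrix.mul_smul, mul_one, mul_one,
    one_mul, J_mul_J]
  ext i j
  simp [J]
  field_simp
  ring

lemma det_Q_pos : 0 < (Q d).det := by
  have h1 : (Q d).det = 1 + d := by
    have h2 : Q d = 1 + (Matrix.replicateCol Unit (fun _ : Fin d => (1:ℝ))) *
        (Matrix.replicateRow Unit (fun _ : Fin d => (1:ℝ))) := by
      ext i j
      simp [Q, J, Matrix.mul_apply]
    rw [h2, Matrix.det_one_add_mul_comm]
    simp [Matrix.mul_apply, Matrix.det_unique]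
  rw [h1]; positivity

/-- `T(H) = Σ H_ii + ½ Σ (H_ii + H_jj - 2 H_ij)` -/
noncomputable def Tf (H : Matrix (Fin d) (Fin d) ℝ) : ℝ :=
  ∑ i, H i i + (1 / 2) * ∑ i, ∑ j, (H i i + H j j - 2 * H i j)

lemma trace_inv_mul (H : Matrix (Fin d) (Fin d) ℝ) :
    ((1 - (1 / ((d : ℝ) + 1)) • J d) * H).trace = Tf H / (d + 1) := by
  have h : ((d : ℝ) + 1) ≠ 0 := by positivity
  have h1 : ((1 - (1 / ((d : ℝ) + 1)) • J d) * H).trace =
      ∑ i, H i i - (1 / ((d : ℝ) + 1)) * ∑ i, ∑ j, H i j := by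
    rw [sub_mul, Matrix.trace_sub, one_mul, Matrix.smul_mul, Matrix.trace_smul]
    congr 1
    simp only [smul_eq_mul]
    congr 1
    have h3 : ∀ i, (J d * H) i i = ∑ j, H j i := by
      intro i
      simp [J, Matrix.mul_apply]
    have h4 : (J d * H).trace = ∑ i, (J d * H) i i := rfl
    rw [h4, Finset.sum_congr rfl fun i _ => h3 i]
    exact Finset.sum_comm
  have h2 : ∑ i, ∑ j, (H i i + H j j - 2 * H i j) =
      2 * d * ∑ i, H i i - 2 * ∑ i, ∑ j, H i j := by
    simp only [Finset.sum_sub_distrib, Finset.sum_add_distrib, Finset.sum_const, Finset.card_univ,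
      Fintype.card_fin, nsmul_eq_mul, ← Finset.mul_sum]
    ring
  rw [h1, Tf, h2]
  field_simp
  ring

lemma abs_le_Tf {H : Matrix (Fin d) (Fin d) ℝ} (h0 : ∀ i, 0 ≤ H i i)
    (h1 : ∀ i j, 0 ≤ H i i + H j j - 2 * H i j) (i j : Fin d) : |H i j| ≤ 2 * Tf H := by
  have hA : ∀ k, H k k ≤ ∑ i, H i i := fun k =>
    Finset.single_le_sum (f := fun k => H k k) (fun i _ => h0 i) (Finset.mem_univ k)
  have hB : H i i + H j j - 2 * H i j ≤ ∑ i, ∑ j, (H i i + H j j - 2 * H i j) := by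
    calc H i i + H j j - 2 * H i j ≤ ∑ j, (H i i + H j j - 2 * H i j) :=
          Finset.single_le_sum (f := fun j => H i i + H j j - 2 * H i j) (fun j _ => h1 i j)
            (Finset.mem_univ j)
      _ ≤ _ := Finset.single_le_sum (f := fun i => ∑ j, (H i i + H j j - 2 * H i j))
            (fun i _ => Finset.sum_nonneg fun j _ => h1 i j) (Finset.mem_univ i)
  have hS : 0 ≤ ∑ i, H i i := Finset.sum_nonneg fun i _ => h0 i
  have hT : Tf H = ∑ i, H i i + (1 / 2) * ∑ i, ∑ j, (H i i + H j j - 2 * H i j) := rfl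
  have hi := hA i
  have hj := hA j
  have hi0 := h0 i
  have hj0 := h0 j
  have h1' := h1 i j
  rw [abs_le]
  constructor <;> linarith

/-- Local optimality of `A_d` in terms of Gram matrices. -/
lemma det_local (d : ℕ) : ∃ η : ℝ, 0 < η ∧ ∀ H : Matrix (Fin d) (Fin d) ℝ,
    (∀ i, 0 ≤ H i i) → (∀ i j, 0 ≤ H i i + H j j - 2 * H i j) → Tf H ≤ η →
    (Q d).det * (1 + Tf H / (2 * (d + 1))) ≤ (Q d + H).det := by
  have hd : (0:ℝ) < (d : ℝ) + 1 := by positivity
  obtain ⟨η, hη, h⟩ := det_near_one d (κ := 1 / (8 * (d + 1))) (by positivity)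
  refine ⟨η / 4, by positivity, ?_⟩
  intro H h0 h1 hT
  set P : Matrix (Fin d) (Fin d) ℝ := 1 - (1 / ((d : ℝ) + 1)) • J d with hP
  have hTf : 0 ≤ Tf H := by
    unfold Tf
    have := Finset.sum_nonneg (s := Finset.univ) fun i _ => h0 i
    have := Finset.sum_nonneg (s := Finset.univ) fun i _ =>
      Finset.sum_nonneg (s := Finset.univ) fun j _ => h1 i j
    positivity
  have hfac : Q d + H = Q d * (1 + P * H) := by
    rw [mul_add, mul_one, ← mul_assoc, Q_mul_inv, one_mul]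
  rw [hfac, Matrix.det_mul]
  apply mul_le_mul_of_nonneg_left _ det_Q_pos.le
  have hM : ∀ i j, |(P * H) i j| ≤ 4 * Tf H := by
    intro i j
    have h2 : (P * H) i j = H i j - (1 / ((d:ℝ) + 1)) * ∑ k, H k j := by
      rw [hP, sub_mul, one_mul, Matrix.smul_mul, Matrix.sub_apply, Matrix.smul_apply,
        Matrix.mul_apply]
      simp [J]
    have h3 : |∑ k, H k j| ≤ d * (2 * Tf H) := by
      calc |∑ k, H k j| ≤ ∑ k, |H k j| := Finset.abs_sum_le_sum_abs _ _
        _ ≤ ∑ _k : Fin d, 2 * Tf H := Finset.sum_le_sum fun k _ => abs_le_Tf h0 h1 k j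
        _ = d * (2 * Tf H) := by simp
    have h4 : |(1 / ((d:ℝ) + 1)) * ∑ k, H k j| ≤ 2 * Tf H := by
      rw [abs_mul, abs_of_pos (by positivity : (0:ℝ) < 1 / ((d:ℝ) + 1)), one_div,
        inv_mul_le_iff₀ hd]
      nlinarith
    rw [h2]
    calc |H i j - (1 / ((d:ℝ) + 1)) * ∑ k, H k j| ≤ |H i j| + |(1 / ((d:ℝ) + 1)) * ∑ k, H k j| :=
          abs_sub _ _
      _ ≤ 4 * Tf H := by linarith [abs_le_Tf h0 h1 i j]
  have h5 := h (P * H) (4 * Tf H) (by positivity) (by linarith) hM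
  rw [trace_inv_mul] at h5
  have h6 := (abs_le.1 h5).1
  have h7 : 1 / (8 * ((d:ℝ) + 1)) * (4 * Tf H) = Tf H / (2 * (d + 1)) := by
    field_simp; ring
  have h8 : Tf H / ((d:ℝ) + 1) = 2 * (Tf H / (2 * (d + 1))) := by
    field_simp
  rw [h7] at h6
  rw [h8] at h6
  linarith

end Pool.Agent.Helper876
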