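import Mathlib
import Pool.Agent.Helper876.Form

set_option autoImplicit false

namespace Pool.Agent.Helper876

open Matrix Finset
open scoped Pointwise

variable {d : ℕ}

/-- the integral form -/
def N (z : Fin d → ℤ) : ℤ := ∑ i, z i ^ 2 + (∑ i, z i) ^ 2

lemma q_intCast (z : Fin d → ℤ) : q (fun i => (z i : ℝ)) = (N z : ℝ) := by
  unfold q N; push_cast; ring

lemma N_even (z : Fin d → ℤ) : Even (N z) := by
  unfold N
  have h1 : Even (∑ i, z i ^ 2 + ∑ i, z i) := by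
    rw [← Finset.sum_add_distrib]
    refine Finset.even_sum _ fun i _ => ?_
    have : z i ^ 2 + z i = z i * (z i + 1) := by ring
    rw [this]; exact Int.even_mul_succ_self _
  have h2 : Even ((∑ i, z i) ^ 2 - ∑ i, z i) := by
    have : (∑ i, z i) ^ 2 - ∑ i, z i = (∑ i, z i) * (∑ i, z i - 1) := by ring
    rw [this]; exact Int.even_mul_pred_self _
  have : ∑ i, z i ^ 2 + (∑ i, z i) ^ 2 = (∑ i, z i ^ 2 + ∑ i, z i) + ((∑ i, z i) ^ 2 - ∑ i, z i) := by
    ring
  rw [this]; exact h1.add h2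

lemma N_pos {z : Fin d → ℤ} (hz : z ≠ 0) : 0 < N z := by
  obtain ⟨i, hi⟩ := Function.ne_iff.1 hz
  have h1 : 0 < z i ^ 2 := by
    have : z i ≠ 0 := hi
    positivity
  have h2 : z i ^ 2 ≤ ∑ i, z i ^ 2 :=
    Finset.single_le_sum (f := fun i => z i ^ 2) (fun i _ => sq_nonneg _) (Finset.mem_univ i)
  unfold N
  have := sq_nonneg (∑ i, z i)
  linarith

lemma two_le_N {z : Fin d → ℤ} (hz : z ≠ 0) : 2 ≤ N z := by
  have h1 := N_pos hz
  obtain ⟨k, hk⟩ := N_even z
  omega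

/-- root vectors -/
def root (p : Option (Fin d) × Option (Fin d)) : Fin d → ℤ :=
  fun i => (if p.1 = some i then 1 else 0) - (if p.2 = some i then 1 else 0)

lemma exists_root {z : Fin d → ℤ} (hz : z ≠ 0) (hN : N z < 4) :
    ∃ p : Option (Fin d) × Option (Fin d), p.1 ≠ p.2 ∧ root p = z := by
  have hN2 : N z ≤ 2 := by
    obtain ⟨k, hk⟩ := N_even z
    omega
  let w : Option (Fin d) → ℤ := fun o => o.elim (-∑ i, z i) z
  have hw0 : ∑ o, w o = 0 := by
    rw [Fintype.sum_option]; simp [w]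
  have hw2 : ∑ o, w o ^ 2 = N z := by
    rw [Fintype.sum_option]; simp [w, N]; ring
  have hne : ∃ o ∈ (Finset.univ : Finset (Option (Fin d))), w o ≠ 0 := by
    obtain ⟨i, hi⟩ := Function.ne_iff.1 hz
    exact ⟨some i, Finset.mem_univ _, hi⟩
  obtain ⟨a, -, ha⟩ := Finset.exists_pos_of_sum_zero_of_exists_nonzero w hw0 hne
  have hw0' : ∑ o, -w o = 0 := by rw [Finset.sum_neg_distrib, hw0, neg_zero]
  obtain ⟨b, -, hb⟩ := Finset.exists_pos_of_sum_zero_of_exists_nonzero (fun o => -w o) hw0'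
    (by obtain ⟨o, h1, h2⟩ := hne; exact ⟨o, h1, neg_ne_zero.2 h2⟩)
  have hab : a ≠ b := by rintro rfl; linarith
  have hsum : w a ^ 2 + w b ^ 2 + ∑ o ∈ (Finset.univ.erase a).erase b, w o ^ 2 = N z := by
    rw [← hw2, ← Finset.add_sum_erase _ _ (Finset.mem_univ a),
      ← Finset.add_sum_erase _ _ (Finset.mem_erase.2 ⟨hab.symm, Finset.mem_univ b⟩)]
    ring
  have hrest : 0 ≤ ∑ o ∈ (Finset.univ.erase a).erase b, w o ^ 2 :=
    Finset.sum_nonneg fun o _ => sq_nonneg _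
  have hwa : w a = 1 := by nlinarith
  have hwb : w b = -1 := by nlinarith
  have hz0 : ∑ o ∈ (Finset.univ.erase a).erase b, w o ^ 2 = 0 := by
    rw [hwa, hwb] at hsum; linarith
  rw [Finset.sum_eq_zero_iff_of_nonneg (fun o _ => sq_nonneg _)] at hz0
  have hwo : ∀ o, o ≠ a → o ≠ b → w o = 0 := fun o h1 h2 => by
    have := hz0 o (Finset.mem_erase.2 ⟨h2, Finset.mem_erase.2 ⟨h1, Finset.mem_univ _⟩⟩)
    exact pow_eq_zero_iff (two_ne_zero) |>.1 this
  refine ⟨(a, b), hab, ?_⟩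
  funext i
  have hwi : w (some i) = z i := rfl
  simp only [root]
  by_cases h1 : some i = a
  · have h2 : some i ≠ b := fun h => hab (h1.symm.trans h)
    rw [if_pos h1.symm, if_neg h2.symm, ← hwi, h1, hwa]; norm_num
  · by_cases h2 : some i = b
    · rw [if_neg (Ne.symm h1), if_pos h2.symm, ← hwi, h2, hwb]; norm_num
    · rw [if_neg (Ne.symm h1), if_neg (Ne.symm h2), ← hwi, hwo _ h1 h2]; norm_num

lemma short_finite_card (d : ℕ) :
    {z : Fin d → ℤ | z ≠ 0 ∧ N z < 4}.Finite ∧ {z : Fin d → ℤ | z ≠ 0 ∧ N z < 4}.ncard ≤ d * (d + 1) := by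
  classical
  let F : Finset (Fin d → ℤ) :=
    ((Finset.univ : Finset (Option (Fin d))).offDiag).image root
  have hsub : {z : Fin d → ℤ | z ≠ 0 ∧ N z < 4} ⊆ (F : Set (Fin d → ℤ)) := by
    rintro z ⟨hz, hN⟩
    obtain ⟨p, hp, rfl⟩ := exists_root hz hN
    rw [Finset.mem_coe, Finset.mem_image]
    exact ⟨p, by simp [Finset.mem_offDiag, hp], rfl⟩
  have hfin : (F : Set (Fin d → ℤ)).Finite := F.finite_toSet
  refine ⟨hfin.subset hsub, ?_⟩
  calc {z : Fin d → ℤ | z ≠ 0 ∧ N z < 4}.ncard ≤ (F : Set (Fin d → ℤ)).ncard :=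
        Set.ncard_le_ncard hsub hfin
    _ = F.card := Set.ncard_coe_finset F
    _ ≤ ((Finset.univ : Finset (Option (Fin d))).offDiag).card := Finset.card_image_le
    _ = d * (d + 1) := by
        rw [Finset.offDiag_card, Finset.card_univ, Fintype.card_option, Fintype.card_fin]
        rw [Nat.sub_eq_iff_eq_add (by nlinarith)]; ring

end Pool.Agent.Helper876
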