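import Mathlib
import Pool.Agent.Helper876.Count

set_option autoImplicit false

namespace Pool.Agent.Helper876

open Matrix Finset
open scoped Pointwise

variable {d : ℕ}

lemma q_smul (c : ℝ) (x : Fin d → ℝ) : q (c • x) = c ^ 2 * q x := by
  unfold q
  simp only [Pi.smul_apply, smul_eq_mul, mul_pow, ← Finset.mul_sum]
  ring

lemma q_nonneg (x : Fin d → ℝ) : 0 ≤ q x := by
  unfold q; positivity

lemma sq_le_q (x : Fin d → ℝ) (i : Fin d) : x i ^ 2 ≤ q x := by
  have h2 : x i ^ 2 ≤ ∑ i, x i ^ 2 :=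
    Finset.single_le_sum (f := fun i => x i ^ 2) (fun i _ => sq_nonneg _) (Finset.mem_univ i)
  unfold q
  have := sq_nonneg (∑ i, x i)
  linarith

lemma q_continuous : Continuous (q : (Fin d → ℝ) → ℝ) := by
  unfold q; fun_prop

lemma q_convex {x y : Fin d → ℝ} {a b : ℝ} (ha : 0 ≤ a) (hb : 0 ≤ b) (hab : a + b = 1) :
    q (a • x + b • y) ≤ a * q x + b * q y := by
  have key : ∀ u v : ℝ, (a * u + b * v) ^ 2 ≤ a * u ^ 2 + b * v ^ 2 := by
    intro u v
    have hb' : b = 1 - a := by linarith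
    subst hb'
    nlinarith [mul_nonneg ha hb, sq_nonneg (u - v), mul_nonneg (mul_nonneg ha hb) (sq_nonneg (u - v))]
  unfold q
  simp only [Pi.add_apply, Pi.smul_apply, smul_eq_mul]
  have h1 : ∑ i, (a * x i + b * y i) ^ 2 ≤ a * ∑ i, x i ^ 2 + b * ∑ i, y i ^ 2 := by
    rw [Finset.mul_sum, Finset.mul_sum, ← Finset.sum_add_distrib]
    exact Finset.sum_le_sum fun i _ => key _ _
  have h2 : (∑ i, (a * x i + b * y i)) ^ 2 ≤ a * (∑ i, x i) ^ 2 + b * (∑ i, y i) ^ 2 := by
    rw [Finset.sum_add_distrib, ← Finset.mul_sum, ← Finset.mul_sum]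
    exact key _ _
  linarith

/-- the ellipsoid `q ≤ 1/2` -/
def ell (d : ℕ) : ConvexBody (Fin d → ℝ) where
  carrier := {x | q x ≤ 1 / 2}
  convex' := by
    intro x hx y hy a b ha hb hab
    have := q_convex (x := x) (y := y) ha hb hab
    have hx' : q x ≤ 1 / 2 := hx
    have hy' : q y ≤ 1 / 2 := hy
    show q (a • x + b • y) ≤ 1 / 2
    nlinarith
  isCompact' := by
    rw [Metric.isCompact_iff_isClosed_bounded]
    constructor
    · exact isClosed_le q_continuous continuous_const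
    · refine (Metric.isBounded_closedBall (x := (0 : Fin d → ℝ)) (r := 1)).subset ?_
      intro x hx
      have hx' : q x ≤ 1 / 2 := hx
      rw [mem_closedBall_zero_iff, pi_norm_le_iff_of_nonneg zero_le_one]
      intro i
      rw [Real.norm_eq_abs, abs_le_one_iff_mul_self_le_one]
      have := sq_le_q x i
      nlinarith
  nonempty' := ⟨0, by
    show q 0 ≤ 1 / 2
    simp [q]⟩

lemma mem_ell {x : Fin d → ℝ} : x ∈ (ell d : Set (Fin d → ℝ)) ↔ q x ≤ 1 / 2 := Iff.rfl

lemma ell_symm (x : Fin d → ℝ) (hx : x ∈ (ell d : Set (Fin d → ℝ))) :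
    -x ∈ (ell d : Set (Fin d → ℝ)) := by
  rw [mem_ell] at *
  have : -x = (-1 : ℝ) • x := by simp
  rw [this, q_smul]; linarith

lemma ell_ball (d : ℕ) : ∃ r : ℝ, 0 < r ∧
    Metric.closedBall (0 : Fin d → ℝ) r ⊆ (ell d : Set (Fin d → ℝ)) := by
  refine ⟨1 / (2 * (d + 1)), by positivity, ?_⟩
  intro x hx
  have hd : (0:ℝ) < (d:ℝ) + 1 := by positivity
  set r : ℝ := 1 / (2 * ((d:ℝ) + 1)) with hr
  have hr0 : 0 < r := by positivity
  rw [mem_closedBall_zero_iff, pi_norm_le_iff_of_nonneg hr0.le] at hx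
  rw [mem_ell]
  have h1 : ∑ i, x i ^ 2 ≤ d * r ^ 2 := by
    calc ∑ i, x i ^ 2 ≤ ∑ _i : Fin d, r ^ 2 := Finset.sum_le_sum fun i _ => by
          have := hx i
          rw [Real.norm_eq_abs] at this
          exact sq_le_sq' (by linarith [(abs_le.1 this).1]) (abs_le.1 this).2
      _ = d * r ^ 2 := by simp
  have h2 : |∑ i, x i| ≤ d * r := by
    calc |∑ i, x i| ≤ ∑ i, |x i| := Finset.abs_sum_le_sum_abs _ _
      _ ≤ ∑ _i : Fin d, r := Finset.sum_le_sum fun i _ => hx i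
      _ = d * r := by simp
  have h3 : (∑ i, x i) ^ 2 ≤ (d * r) ^ 2 := by
    rw [← sq_abs]
    exact pow_le_pow_left₀ (abs_nonneg _) h2 2
  have h4 : ((d:ℝ) + 1) * r = 1 / 2 := by rw [hr]; field_simp
  have h5 : (d:ℝ) * r ^ 2 + (d * r) ^ 2 ≤ (((d:ℝ) + 1) * r) ^ 2 := by
    have : (0:ℝ) ≤ d := by positivity
    nlinarith [mul_nonneg this (sq_nonneg r)]
  rw [h4] at h5
  unfold q
  linarith

/-- the Gram matrix of the lattice `B ℤ^d` with respect to `q` -/
def G (B : Matrix (Fin d) (Fin d) ℝ) : Matrix (Fin d) (Fin d) ℝ := Bᵀ * Q d * B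

lemma q_mulVec (B : Matrix (Fin d) (Fin d) ℝ) (x : Fin d → ℝ) :
    q (B *ᵥ x) = x ⬝ᵥ (G B *ᵥ x) := by
  rw [q_eq, G, ← Matrix.mulVec_mulVec, ← Matrix.mulVec_mulVec, Matrix.dotProduct_mulVec x,
    Matrix.vecMul_transpose]

lemma quad_expand (M : Matrix (Fin d) (Fin d) ℝ) (x : Fin d → ℝ) :
    x ⬝ᵥ (M *ᵥ x) = ∑ i, ∑ j, x i * x j * M i j := by
  simp only [dotProduct, mulVec, Finset.mul_sum]
  refine Finset.sum_congr rfl fun i _ => Finset.sum_congr rfl fun j _ => by ring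

lemma q_single (B : Matrix (Fin d) (Fin d) ℝ) (i : Fin d) :
    q (B *ᵥ (fun k => (((Pi.single i 1 : Fin d → ℤ) k : ℤ) : ℝ))) = G B i i := by
  rw [q_mulVec]
  have : (fun k => (((Pi.single i 1 : Fin d → ℤ) k : ℤ) : ℝ)) = Pi.single i 1 := by
    funext k
    by_cases h : k = i
    · subst h; simp
    · simp [h]
  rw [this]
  simp

lemma G_symm (B : Matrix (Fin d) (Fin d) ℝ) (i j : Fin d) : G B i j = G B j i := by
  have hQ : (Q d)ᵀ = Q d := by
    ext i j; simp [Q, J, Matrix.one_apply, eq_comm]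
  have : (G B)ᵀ = G B := by
    unfold G
    rw [Matrix.transpose_mul, Matrix.transpose_mul, Matrix.transpose_transpose, hQ, Matrix.mul_assoc]
  conv_lhs => rw [← this]
  rfl

lemma q_single_sub (B : Matrix (Fin d) (Fin d) ℝ) (i j : Fin d) :
    q (B *ᵥ (fun k => (((Pi.single i 1 - Pi.single j 1 : Fin d → ℤ) k : ℤ) : ℝ)))
      = G B i i + G B j j - 2 * G B i j := by
  rw [q_mulVec]
  have : (fun k => (((Pi.single i 1 - Pi.single j 1 : Fin d → ℤ) k : ℤ) : ℝ)) =
      Pi.single i 1 - Pi.single j 1 := by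
    funext k
    by_cases h : k = i <;> by_cases h' : k = j
    · subst h; subst h'; simp
    · subst h; simp [h']
    · subst h'; simp [h]
    · simp [h, h']
  rw [this, Matrix.mulVec_sub, dotProduct_sub, sub_dotProduct, sub_dotProduct]
  simp
  rw [G_symm B j i]
  ring

lemma det_G (B : Matrix (Fin d) (Fin d) ℝ) : (G B).det = B.det ^ 2 * (Q d).det := by
  unfold G
  rw [Matrix.det_mul, Matrix.det_mul, Matrix.det_transpose]; ring

lemma G_continuous : Continuous (G : Matrix (Fin d) (Fin d) ℝ → Matrix (Fin d) (Fin d) ℝ) := by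
  unfold G
  fun_prop

lemma abs_Q_le (i j : Fin d) : |Q d i j| ≤ 2 := by
  unfold Q J
  by_cases h : i = j
  · subst h; simp; norm_num
  · simp [h, Matrix.one_apply]

lemma q_lower {B : Matrix (Fin d) (Fin d) ℝ} {ε : ℝ} (hε : 0 ≤ ε)
    (hB : ∀ i j, |G B i j - Q d i j| ≤ ε) (x : Fin d → ℝ) :
    (1 - d * ε) * q x ≤ q (B *ᵥ x) := by
  have h1 : q (B *ᵥ x) - q x = ∑ i, ∑ j, x i * x j * (G B i j - Q d i j) := by
    rw [q_mulVec, q_eq, quad_expand, quad_expand, ← Finset.sum_sub_distrib]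
    refine Finset.sum_congr rfl fun i _ => ?_
    rw [← Finset.sum_sub_distrib]
    refine Finset.sum_congr rfl fun j _ => by ring
  have h2 : |q (B *ᵥ x) - q x| ≤ ε * (d * ∑ i, x i ^ 2) := by
    rw [h1]
    calc |∑ i, ∑ j, x i * x j * (G B i j - Q d i j)|
        ≤ ∑ i, |∑ j, x i * x j * (G B i j - Q d i j)| := Finset.abs_sum_le_sum_abs _ _
      _ ≤ ∑ i, ∑ j, |x i * x j * (G B i j - Q d i j)| :=
          Finset.sum_le_sum fun i _ => Finset.abs_sum_le_sum_abs _ _
      _ ≤ ∑ i, ∑ j, |x i| * |x j| * ε := by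
          refine Finset.sum_le_sum fun i _ => Finset.sum_le_sum fun j _ => ?_
          rw [abs_mul, abs_mul]
          exact mul_le_mul_of_nonneg_left (hB i j) (by positivity)
      _ = ε * (∑ i, |x i|) ^ 2 := by
          rw [sq, Finset.sum_mul_sum, Finset.mul_sum]
          refine Finset.sum_congr rfl fun i _ => ?_
          rw [Finset.mul_sum]
          refine Finset.sum_congr rfl fun j _ => by ring
      _ ≤ ε * (d * ∑ i, x i ^ 2) := by
          apply mul_le_mul_of_nonneg_left _ hε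
          have := sq_sum_le_card_mul_sum_sq (s := (Finset.univ : Finset (Fin d))) (f := fun i => |x i|)
          simpa using this
  have h3 : ∑ i, x i ^ 2 ≤ q x := by
    unfold q
    have := sq_nonneg (∑ i, x i)
    linarith
  have h4 : ε * (d * ∑ i, x i ^ 2) ≤ ε * (d * q x) := by
    apply mul_le_mul_of_nonneg_left _ hε
    exact mul_le_mul_of_nonneg_left h3 (by positivity)
  have h5 := (abs_le.1 h2).1
  linarith

end Pool.Agent.Helper876
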