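import Mathlib
import Pool.Agent.Helper876.Local

set_option autoImplicit false

namespace Pool.Agent.Helper876

open Matrix Finset MeasureTheory
open scoped Pointwise ENNReal

variable {d : ℕ}

/-- barycentric type coordinates, indexed by `Option (Fin d)`, with sum zero -/
def hat (x : Fin d → ℝ) : Option (Fin d) → ℝ := fun o => o.elim (-∑ i, x i) x

@[simp] lemma hat_some (x : Fin d → ℝ) (i : Fin d) : hat x (some i) = x i := rfl
@[simp] lemma hat_none (x : Fin d → ℝ) : hat x none = -∑ i, x i := rfl

lemma hat_add (x y : Fin d → ℝ) (o : Option (Fin d)) : hat (x + y) o = hat x o + hat y o := by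
  cases o with
  | none => simp [Finset.sum_add_distrib]; ring
  | some i => simp

lemma hat_sub (x y : Fin d → ℝ) (o : Option (Fin d)) : hat (x - y) o = hat x o - hat y o := by
  cases o with
  | none => simp [Finset.sum_sub_distrib]; ring
  | some i => simp

lemma hat_neg (x : Fin d → ℝ) (o : Option (Fin d)) : hat (-x) o = -hat x o := by
  cases o with
  | none => simp
  | some i => simp

lemma hat_smul (c : ℝ) (x : Fin d → ℝ) (o : Option (Fin d)) : hat (c • x) o = c * hat x o := by
  cases o with
  | none => simp [Finset.mul_sum]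
  | some i => simp

@[simp] lemma hat_zero (o : Option (Fin d)) : hat (0 : Fin d → ℝ) o = 0 := by
  cases o with
  | none => simp
  | some i => simp

lemma sum_hat (x : Fin d → ℝ) : ∑ o, hat x o = 0 := by
  rw [Fintype.sum_option]; simp

lemma sum_hat_sq (x : Fin d → ℝ) : ∑ o, hat x o ^ 2 = q x := by
  rw [Fintype.sum_option]; simp [q]; ring

/-- a sum zero vector is a hat -/
lemma hat_of_sum {c : Option (Fin d) → ℝ} (hc : ∑ o, c o = 0) (o : Option (Fin d)) :
    hat (fun i => c (some i)) o = c o := by
  cases o with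
  | none =>
    rw [Fintype.sum_option] at hc
    simp only [hat_none]; linarith
  | some i => rfl

lemma hat_continuous (o : Option (Fin d)) : Continuous (fun x : Fin d → ℝ => hat x o) := by
  cases o with
  | none => simp only [hat_none]; fun_prop
  | some i => simp only [hat_some]; fun_prop

/-- the cell `T r` -/
def T (d : ℕ) (r : ℝ) : Set (Fin d → ℝ) := {x | ∀ a b, hat x a - hat x b ≤ r}

lemma mem_T {r : ℝ} {x : Fin d → ℝ} : x ∈ T d r ↔ ∀ a b, hat x a - hat x b ≤ r := Iff.rfl

lemma T_closed (r : ℝ) : IsClosed (T d r) := by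
  have : T d r = ⋂ a, ⋂ b, {x | hat x a - hat x b ≤ r} := by
    ext x; simp [T]
  rw [this]
  refine isClosed_iInter fun a => isClosed_iInter fun b => ?_
  exact isClosed_le ((hat_continuous a).sub (hat_continuous b)) continuous_const

lemma abs_hat_le {r : ℝ} {x : Fin d → ℝ} (hx : x ∈ T d r) (a : Option (Fin d)) :
    |hat x a| ≤ r := by
  have hcard : (0:ℝ) < Fintype.card (Option (Fin d)) := by
    rw [Fintype.card_option]; positivity
  have hs := sum_hat x
  have h1 : ∑ b, (hat x a - hat x b) = Fintype.card (Option (Fin d)) * hat x a := by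
    rw [Finset.sum_sub_distrib, hs, sub_zero]; simp
  have h2 : ∑ b, (hat x a - hat x b) ≤ Fintype.card (Option (Fin d)) * r := by
    calc ∑ b, (hat x a - hat x b) ≤ ∑ _b : Option (Fin d), r := Finset.sum_le_sum fun b _ => hx a b
      _ = _ := by simp
  have h3 : -(Fintype.card (Option (Fin d)) * r) ≤ ∑ b, (hat x a - hat x b) := by
    have : ∑ _b : Option (Fin d), (-r) ≤ ∑ b, (hat x a - hat x b) :=
      Finset.sum_le_sum fun b _ => by have := hx b a; linarith
    simpa using this
  rw [h1] at h2 h3
  rw [abs_le]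
  constructor
  · by_contra h; push Not at h; nlinarith
  · by_contra h; push Not at h; nlinarith

lemma norm_le_of_mem_T {r : ℝ} (hr : 0 ≤ r) {x : Fin d → ℝ} (hx : x ∈ T d r) : ‖x‖ ≤ r := by
  rw [pi_norm_le_iff_of_nonneg hr]
  intro i
  rw [Real.norm_eq_abs]
  exact abs_hat_le hx (some i)

lemma abs_hat_le_norm (x : Fin d → ℝ) (o : Option (Fin d)) : |hat x o| ≤ (d + 1) * ‖x‖ := by
  have hn := norm_nonneg x
  cases o with
  | none =>
    rw [hat_none, abs_neg]
    calc |∑ i, x i| ≤ ∑ i, |x i| := Finset.abs_sum_le_sum_abs _ _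
      _ ≤ ∑ _i : Fin d, ‖x‖ := Finset.sum_le_sum fun i _ => norm_le_pi_norm x i
      _ = d * ‖x‖ := by simp
      _ ≤ _ := by nlinarith
  | some i =>
    rw [hat_some]
    calc |x i| ≤ ‖x‖ := norm_le_pi_norm x i
      _ ≤ _ := by
        have : (0:ℝ) ≤ d := by positivity
        nlinarith

lemma hat_sub_le_norm (x : Fin d → ℝ) (a b : Option (Fin d)) :
    hat x a - hat x b ≤ 2 * (d + 1) * ‖x‖ := by
  have h1 := (abs_le.1 (abs_hat_le_norm x a)).2
  have h2 := (abs_le.1 (abs_hat_le_norm x b)).1
  linarith

lemma smul_mem_T {r c : ℝ} (hc : 0 ≤ c) {x : Fin d → ℝ} (hx : x ∈ T d r) : c • x ∈ T d (c * r) := by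
  intro a b
  rw [hat_smul, hat_smul, ← mul_sub]
  exact mul_le_mul_of_nonneg_left (hx a b) hc

lemma T_smul {r : ℝ} (hr : 0 < r) : T d r = r • T d 1 := by
  ext x
  rw [Set.mem_smul_set_iff_inv_smul_mem₀ hr.ne']
  constructor
  · intro hx
    have := smul_mem_T (inv_nonneg.2 hr.le) hx
    rwa [inv_mul_cancel₀ hr.ne'] at this
  · intro hx
    have := smul_mem_T hr.le hx
    rwa [smul_smul, mul_inv_cancel₀ hr.ne', one_smul, mul_one] at this

lemma ball_subset_T {r : ℝ} {x : Fin d → ℝ} (hx : 2 * (d + 1) * ‖x‖ ≤ r) : x ∈ T d r :=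
  fun a b => (hat_sub_le_norm x a b).trans hx

lemma T_measurable (r : ℝ) : MeasurableSet (T d r) := (T_closed r).measurableSet

lemma T_compact (r : ℝ) : IsCompact (T d r) := by
  rw [Metric.isCompact_iff_isClosed_bounded]
  refine ⟨T_closed r, ?_⟩
  refine (Metric.isBounded_closedBall (x := (0 : Fin d → ℝ)) (r := max r 0)).subset ?_
  intro x hx
  rw [mem_closedBall_zero_iff]
  exact norm_le_of_mem_T (le_max_right _ _) (fun a b => (hx a b).trans (le_max_left _ _))

/-- the root vector as an integral vector: `e_a - e_b` -/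
lemma hat_root (a b o : Option (Fin d)) :
    hat (fun i => ((root (a, b) i : ℤ) : ℝ)) o =
      (if a = o then 1 else 0) - (if b = o then 1 else 0) := by
  have hc : ∑ o : Option (Fin d), (((if a = o then (1:ℝ) else 0) - (if b = o then 1 else 0))) = 0 := by
    rw [Finset.sum_sub_distrib]; simp
  have := hat_of_sum hc o
  rw [← this]
  congr 1
  funext i
  simp [root]

/-- every point is in a translate of `T 1` by an integer vector. -/
lemma exists_sub_mem_T (x : Fin d → ℝ) : ∃ z : Fin d → ℤ, x - (fun i => (z i : ℝ)) ∈ T d 1 := by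
  classical
  -- minimise `q (x - z)`
  let f : (Fin d → ℤ) → ℝ := fun z => q (x - (fun i => (z i : ℝ)))
  have hfin : {z : Fin d → ℤ | f z ≤ f 0}.Finite := by
    have hsub : {z : Fin d → ℤ | f z ≤ f 0} ⊆
        Set.Icc (fun i => ⌊x i - (f 0 + 1)⌋) (fun i => ⌈x i + (f 0 + 1)⌉) := by
      intro z hz
      have hz' : f z ≤ f 0 := hz
      have h0 : 0 ≤ f 0 := q_nonneg _
      have hi : ∀ i, |x i - z i| ≤ f 0 + 1 := by
        intro i
        have h1 := sq_le_q (x - (fun i => (z i : ℝ))) i
        simp only [Pi.sub_apply] at h1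
        have h2 : (x i - z i) ^ 2 ≤ f 0 := h1.trans hz'
        rw [← sq_abs] at h2
        by_contra h
        push Not at h
        nlinarith [abs_nonneg (x i - z i)]
      rw [Set.mem_Icc]
      constructor
      · intro i
        have := (abs_le.1 (hi i)).2
        apply Int.floor_le_iff.2
        linarith
      · intro i
        have := (abs_le.1 (hi i)).1
        apply Int.le_ceil_iff.2
        linarith
    exact (Set.finite_Icc _ _).subset hsub
  obtain ⟨z, hz, hmin⟩ := Set.exists_min_image _ f hfin ⟨0, show f 0 ≤ f 0 from le_rfl⟩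
  have hmin' : ∀ w, f z ≤ f w := by
    intro w
    by_cases hw : f w ≤ f 0
    · exact hmin w hw
    · push Not at hw
      exact (hmin 0 (show f 0 ≤ f 0 from le_rfl)).trans hw.le
  refine ⟨z, ?_⟩
  intro a b
  by_cases hab : a = b
  · subst hab; simp
  set y := x - (fun i => (z i : ℝ)) with hy
  have h1 := hmin' (z + root (a, b))
  have h2 : f (z + root (a, b)) = q (y - (fun i => ((root (a, b) i : ℤ) : ℝ))) := by
    simp only [f]
    congr 1
    rw [hy]
    funext i
    simp; ring
  have h3 : f z = q y := rfl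
  rw [h2, h3, ← sum_hat_sq, ← sum_hat_sq] at h1
  have h4 : ∀ o, hat (y - (fun i => ((root (a, b) i : ℤ) : ℝ))) o ^ 2 =
      hat y o ^ 2 - 2 * hat y o * ((if a = o then 1 else 0) - (if b = o then 1 else 0)) +
        ((if a = o then 1 else 0) + (if b = o then 1 else 0)) := by
    intro o
    rw [hat_sub, hat_root a b o]
    by_cases h5 : a = o
    · have h6 : b ≠ o := fun h => hab (h5.trans h.symm)
      simp [h5, h6]; ring
    · by_cases h6 : b = o
      · simp [h5, h6]; ring
      · simp [h5, h6]
  rw [Finset.sum_congr rfl fun o _ => h4 o, Finset.sum_add_distrib, Finset.sum_sub_distrib] at h1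
  have h7 : ∑ o, 2 * hat y o * ((if a = o then (1:ℝ) else 0) - (if b = o then 1 else 0)) =
      2 * (hat y a - hat y b) := by
    simp only [mul_sub, Finset.sum_sub_distrib]
    simp
  have h8 : ∑ o : Option (Fin d), ((if a = o then (1:ℝ) else 0) + (if b = o then 1 else 0)) = 2 := by
    rw [Finset.sum_add_distrib]; simp; norm_num
  rw [h7, h8] at h1
  linarith

end Pool.Agent.Helper876
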