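import Mathlib
import Pool.Agent.Helper876.Hat

set_option autoImplicit false

namespace Pool.Agent.Helper876

open Matrix Finset MeasureTheory Module
open scoped Pointwise ENNReal

variable {d : ℕ}

/-- integer vector as a real vector -/
def cast (z : Fin d → ℤ) : Fin d → ℝ := fun i => (z i : ℝ)

@[simp] lemma cast_apply (z : Fin d → ℤ) (i : Fin d) : cast z i = (z i : ℝ) := rfl

lemma cast_sub (z w : Fin d → ℤ) : cast (z - w) = cast z - cast w := by
  funext i; simp

lemma cast_add (z w : Fin d → ℤ) : cast (z + w) = cast z + cast w := by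
  funext i; simp

lemma cast_injective : Function.Injective (cast : (Fin d → ℤ) → (Fin d → ℝ)) := by
  intro z w h
  funext i
  have := congrFun h i
  simpa using this

/-- the basis of columns of `B` -/
noncomputable def colBasis (B : Matrix (Fin d) (Fin d) ℝ) (hB : B.det ≠ 0) :
    Basis (Fin d) ℝ (Fin d → ℝ) :=
  (Pi.basisFun ℝ (Fin d)).map
    (Matrix.toLinearEquiv (Pi.basisFun ℝ (Fin d)) B (isUnit_iff_ne_zero.2 hB))

lemma colBasis_apply (B : Matrix (Fin d) (Fin d) ℝ) (hB : B.det ≠ 0) (j : Fin d) :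
    colBasis B hB j = fun i => B i j := by
  have h1 : colBasis B hB j = B *ᵥ (Pi.single j 1) := by
    unfold colBasis
    rw [Basis.map_apply, Pi.basisFun_apply]
    have h2 : (Matrix.toLinearEquiv (Pi.basisFun ℝ (Fin d)) B (isUnit_iff_ne_zero.2 hB))
        (Pi.single j 1) = (Matrix.toLin (Pi.basisFun ℝ (Fin d)) (Pi.basisFun ℝ (Fin d)) B)
          (Pi.single j 1) := rfl
    rw [h2, Matrix.toLin_eq_toLin', Matrix.toLin'_apply]
  rw [h1]
  funext i
  simp

lemma det_colBasis (B : Matrix (Fin d) (Fin d) ℝ) (hB : B.det ≠ 0) :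
    (Matrix.of (colBasis B hB)).det = B.det := by
  have : Matrix.of (colBasis B hB) = Bᵀ := by
    ext i j
    rw [Matrix.of_apply, colBasis_apply, Matrix.transpose_apply]
  rw [this, Matrix.det_transpose]

lemma mem_span_colBasis {B : Matrix (Fin d) (Fin d) ℝ} (hB : B.det ≠ 0) {v : Fin d → ℝ} :
    v ∈ Submodule.span ℤ (Set.range (colBasis B hB)) ↔ ∃ z : Fin d → ℤ, v = B *ᵥ cast z := by
  rw [Submodule.mem_span_range_iff_exists_fun]
  have key : ∀ z : Fin d → ℤ, ∑ i, z i • colBasis B hB i = B *ᵥ cast z := by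
    intro z
    funext k
    simp only [Finset.sum_apply, Matrix.mulVec, dotProduct, cast_apply]
    refine Finset.sum_congr rfl fun i _ => ?_
    rw [Pi.smul_apply, colBasis_apply, zsmul_eq_mul, mul_comm]
  constructor
  · rintro ⟨z, hz⟩
    exact ⟨z, by rw [← key z, hz]⟩
  · rintro ⟨z, rfl⟩
    exact ⟨z, key z⟩

/-- Blichfeldt's theorem. -/
lemma blichfeldt {B : Matrix (Fin d) (Fin d) ℝ} (hB : B.det ≠ 0) {S : Set (Fin d → ℝ)}
    (hS : MeasurableSet S) (h : ENNReal.ofReal |B.det| < volume S) :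
    ∃ z : Fin d → ℤ, z ≠ 0 ∧ ∃ x ∈ S, ∃ y ∈ S, x - y = B *ᵥ cast z := by
  have hfund := ZSpan.isAddFundamentalDomain' (colBasis B hB) (volume : Measure (Fin d → ℝ))
  have hvol := ZSpan.volume_fundamentalDomain (colBasis B hB)
  rw [det_colBasis] at hvol
  rw [← hvol] at h
  have : Countable (Submodule.span ℤ (Set.range (colBasis B hB))).toAddSubgroup :=
    (inferInstance : Countable (Submodule.span ℤ (Set.range (colBasis B hB))))
  obtain ⟨l, m, hlm, hnd⟩ := exists_pair_mem_lattice_not_disjoint_vadd hfund hS.nullMeasurableSet h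
  rw [Set.not_disjoint_iff] at hnd
  obtain ⟨p, ⟨x, hx, hxp⟩, ⟨y, hy, hyp⟩⟩ := hnd
  have hxp' : (l : Fin d → ℝ) + x = p := hxp
  have hyp' : (m : Fin d → ℝ) + y = p := hyp
  obtain ⟨z, hz⟩ := (mem_span_colBasis hB).1 (m - l).2
  refine ⟨z, ?_, x, hx, y, hy, ?_⟩
  · rintro rfl
    apply hlm
    have h0 : ((m - l : (Submodule.span ℤ (Set.range (colBasis B hB))).toAddSubgroup) :
        Fin d → ℝ) = 0 := by
      rw [hz]
      have : cast (0 : Fin d → ℤ) = 0 := by funext i; simp
      rw [this, Matrix.mulVec_zero]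
    have h1 : (m : Fin d → ℝ) - l = 0 := h0
    exact (Subtype.ext (sub_eq_zero.1 h1)).symm
  · rw [← hz]
    show x - y = (m : Fin d → ℝ) - l
    have : x = p - l := by rw [← hxp']; abel
    rw [this, ← hyp']; abel

/-- A measurable set whose integer translates cover has volume at least one. -/
lemma one_le_volume {S : Set (Fin d → ℝ)} 
    (h : ∀ x, ∃ z : Fin d → ℤ, x - cast z ∈ S) : 1 ≤ volume S := by
  have hB : (1 : Matrix (Fin d) (Fin d) ℝ).det ≠ 0 := by simp
  have hfund := ZSpan.isAddFundamentalDomain' (colBasis 1 hB) (volume : Measure (Fin d → ℝ))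
  have hvol := ZSpan.volume_fundamentalDomain (colBasis (1 : Matrix (Fin d) (Fin d) ℝ) hB)
  rw [det_colBasis] at hvol
  simp only [det_one, abs_one, ENNReal.ofReal_one] at hvol
  have : Countable (Submodule.span ℤ
      (Set.range (colBasis (1 : Matrix (Fin d) (Fin d) ℝ) hB))).toAddSubgroup :=
    (inferInstance : Countable (Submodule.span ℤ
      (Set.range (colBasis (1 : Matrix (Fin d) (Fin d) ℝ) hB))))
  rw [hfund.measure_eq_tsum S, ← hvol]
  refine le_trans (measure_mono ?_) (measure_iUnion_le _)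
  intro x hx
  obtain ⟨z, hz⟩ := h x
  have hmem : cast z ∈ Submodule.span ℤ (Set.range (colBasis (1 : Matrix (Fin d) (Fin d) ℝ) hB)) :=
    (mem_span_colBasis hB).2 ⟨z, by rw [Matrix.one_mulVec]⟩
  rw [Set.mem_iUnion]
  refine ⟨⟨cast z, hmem⟩, ⟨x - cast z, hz, ?_⟩, hx⟩
  show cast z + (x - cast z) = x
  abel

lemma one_le_volume_T (d : ℕ) : 1 ≤ volume (T d 1) := one_le_volume fun x => exists_sub_mem_T x

lemma volume_T_ge {r : ℝ} (hr : 0 < r) : ENNReal.ofReal (r ^ d) ≤ volume (T d r) := by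
  rw [T_smul hr, Measure.addHaar_smul]
  simp only [finrank_fintype_fun_eq_card, Fintype.card_fin, abs_pow, abs_of_pos hr]
  calc ENNReal.ofReal (r ^ d) = ENNReal.ofReal (r ^ d) * 1 := (mul_one _).symm
    _ ≤ _ := by gcongr; exact one_le_volume_T d

/-- the determinant of an admissible lattice -/
lemma det_ge {B : Matrix (Fin d) (Fin d) ℝ} (hB : B.det ≠ 0) {r : ℝ} (hr : 0 < r)
    (h1 : ∀ z : Fin d → ℤ, z ≠ 0 → ∃ a b, 2 * r < hat (B *ᵥ cast z) a - hat (B *ᵥ cast z) b) :
    r ^ d ≤ |B.det| := by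
  by_contra hlt
  push Not at hlt
  have h2 : ENNReal.ofReal |B.det| < volume (T d r) := by
    refine lt_of_lt_of_le ?_ (volume_T_ge hr)
    exact (ENNReal.ofReal_lt_ofReal_iff (by positivity)).2 hlt
  obtain ⟨z, hz, x, hx, y, hy, hxy⟩ := blichfeldt hB (T_measurable r) h2
  obtain ⟨a, b, hab⟩ := h1 z hz
  rw [← hxy, hat_sub, hat_sub] at hab
  have h3 := hx a b
  have h4 := hy b a
  linarith

/-- Approximate covering. -/
lemma approx_cover {B : Matrix (Fin d) (Fin d) ℝ} (hB : B.det ≠ 0) {r η : ℝ} (hr : 0 < r)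
    (hη : 0 < η) (hηr : (d + 1) * (4 * η) ≤ 2 * r)
    (h1 : ∀ z : Fin d → ℤ, z ≠ 0 → ∃ a b, 2 * r < hat (B *ᵥ cast z) a - hat (B *ᵥ cast z) b)
    (hdet : |B.det| < r ^ d + (2 * η) ^ d) (x : Fin d → ℝ) :
    ∃ z : Fin d → ℤ, x - B *ᵥ cast z ∈ T d (r + 2 * (d + 1) * η) := by
  by_contra hcon
  push Not at hcon
  set S : Set (Fin d → ℝ) := T d r ∪ Metric.closedBall x η with hS
  have hSm : MeasurableSet S := (T_measurable r).union Metric.isClosed_closedBall.measurableSet
  have hdisj : Disjoint (T d r) (Metric.closedBall x η) := by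
    rw [Set.disjoint_left]
    intro y hy hyx
    apply hcon 0
    have h0 : cast (0 : Fin d → ℤ) = 0 := by funext i; simp
    rw [h0, Matrix.mulVec_zero, sub_zero]
    intro a b
    have h2 : hat x a - hat x b = (hat y a - hat y b) + (hat (x - y) a - hat (x - y) b) := by
      rw [hat_sub, hat_sub]; ring
    have h3 := hat_sub_le_norm (x - y) a b
    have h4 : ‖x - y‖ ≤ η := by
      rw [Metric.mem_closedBall, dist_comm, dist_eq_norm] at hyx; exact hyx
    have h5 := hy a b
    have h6 : 2 * ((d:ℝ) + 1) * ‖x - y‖ ≤ 2 * (d + 1) * η := by gcongr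
    rw [h2]; linarith
  have hvolb : volume (Metric.closedBall x η) = ENNReal.ofReal ((2 * η) ^ d) := by
    rw [Real.volume_pi_closedBall _ hη.le]; simp
  have hvol : ENNReal.ofReal |B.det| < volume S := by
    rw [hS, measure_union hdisj Metric.isClosed_closedBall.measurableSet, hvolb]
    refine lt_of_lt_of_le ?_ (add_le_add_left (volume_T_ge hr) _)
    rw [← ENNReal.ofReal_add (by positivity) (by positivity)]
    exact (ENNReal.ofReal_lt_ofReal_iff (by positivity)).2 hdet
  obtain ⟨z, hz, u, hu, v, hv, huv⟩ := blichfeldt hB hSm hvol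
  obtain ⟨a, b, hab⟩ := h1 z hz
  rcases hu with hu | hu <;> rcases hv with hv | hv
  · rw [← huv, hat_sub, hat_sub] at hab
    have h3 := hu a b
    have h4 := hv b a
    linarith
  · -- u ∈ T, v near x : x - B(-z) near u
    apply hcon (-z)
    have h0 : cast (-z) = - cast z := by funext i; simp
    rw [h0, Matrix.mulVec_neg, ← huv]
    intro a b
    have h2 : x - -(u - v) = u + (x - v) := by abel
    rw [h2, hat_add, hat_add]
    have h3 := hat_sub_le_norm (x - v) a b
    have h4 : ‖x - v‖ ≤ η := by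
      rw [Metric.mem_closedBall, dist_comm, dist_eq_norm] at hv; exact hv
    have h5 := hu a b
    have h6 : 2 * ((d:ℝ) + 1) * ‖x - v‖ ≤ 2 * (d + 1) * η := by gcongr
    linarith
  · apply hcon z
    rw [← huv]
    intro a b
    have h2 : x - (u - v) = v + (x - u) := by abel
    rw [h2, hat_add, hat_add]
    have h3 := hat_sub_le_norm (x - u) a b
    have h4 : ‖x - u‖ ≤ η := by
      rw [Metric.mem_closedBall, dist_comm, dist_eq_norm] at hu; exact hu
    have h5 := hv a b
    have h6 : 2 * ((d:ℝ) + 1) * ‖x - u‖ ≤ 2 * (d + 1) * η := by gcongr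
    linarith
  · have h3 := hat_sub_le_norm (u - v) a b
    have h4 : ‖u - v‖ ≤ 2 * η := by
      rw [Metric.mem_closedBall, dist_eq_norm] at hu hv
      calc ‖u - v‖ = ‖(u - x) - (v - x)‖ := by congr 1; abel
        _ ≤ ‖u - x‖ + ‖v - x‖ := norm_sub_le _ _
        _ ≤ 2 * η := by linarith
    rw [huv] at h3 h4
    have h6 : 2 * ((d:ℝ) + 1) * ‖B *ᵥ cast z‖ ≤ 2 * (d + 1) * (2 * η) := by gcongr
    nlinarith

end Pool.Agent.Helper876
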