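import Mathlib
import Pool.Agent.Helper876.Vol

set_option autoImplicit false

namespace Pool.Agent.Helper876

open Matrix Finset MeasureTheory Module
open scoped Pointwise ENNReal

variable {d : ℕ}

lemma cubeA {Λ : Set (Fin d → ℝ)} {s t θ : ℝ} (hs : 0 ≤ s) (hst : s < t) (hθ : 2 * s + t < θ)
    (hθ1 : θ ≤ 1)
    (h1 : ∀ l ∈ Λ, l ≠ 0 → ∃ o o', 2 - s ≤ hat l o - hat l o')
    (h2 : ∀ x, ∃ l ∈ Λ, x - l ∈ T d (1 + s))
    {a b : Option (Fin d)} (y : Option (Fin d) → ℝ) (ya : y a = 1 / 2 + t)
    (yb : y b = -(1 / 2)) (hy : ∀ o, o ≠ a → o ≠ b → |y o| ≤ 1 / 2 - θ) :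
    ∃ l ∈ Λ, 2 - s ≤ hat l a - hat l b ∧ hat l a - hat l b ≤ 2 + s + t ∧
      ∀ o, o ≠ a → o ≠ b → |y o - (hat l o - (hat l a + hat l b) / 2)| ≤ 1 / 2 + t + 2 * s := by
  set m : ℝ := (∑ o, y o) / (d + 1) with hm
  have hd : (d : ℝ) + 1 ≠ 0 := by positivity
  have hsum : ∑ o, (y o - m) = 0 := by
    rw [Finset.sum_sub_distrib]
    simp only [Finset.sum_const, Finset.card_univ, Fintype.card_option, Fintype.card_fin,
      nsmul_eq_mul]
    rw [hm]; push_cast; field_simp; ring
  obtain ⟨l, hl, hxl⟩ := h2 (fun i => y (some i) - m)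
  have hpt : ∀ o, hat (fun i => y (some i) - m) o = y o - m := fun o =>
    hat_of_sum (c := fun o => y o - m) hsum o
  have key : ∀ o o', (y o - hat l o) - (y o' - hat l o') ≤ 1 + s := by
    intro o o'
    have := hxl o o'
    rw [hat_sub, hat_sub, hpt, hpt] at this
    linarith
  have hl0 : l ≠ 0 := by
    rintro rfl
    have := key a b
    rw [ya, yb, hat_zero, hat_zero] at this
    linarith
  obtain ⟨o, o', hoo⟩ := h1 l hl hl0
  have h3 := key o' o
  have hup : ∀ o, o ≠ a → y o ≤ 1 / 2 - θ := by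
    intro o ho
    by_cases hb : o = b
    · rw [hb, yb]; linarith
    · exact (abs_le.1 (hy o ho hb)).2
  have hlow : ∀ o, o ≠ b → -y o ≤ 1 / 2 - θ := by
    intro o ho
    by_cases ha : o = a
    · rw [ha, ya]; linarith
    · have := (abs_le.1 (hy o ha ho)).1
      linarith
  have hup' : ∀ o, y o ≤ 1 / 2 + t := by
    intro o
    by_cases ha : o = a
    · rw [ha, ya]
    · have := hup o ha; linarith
  have hlow' : ∀ o, -y o ≤ 1 / 2 := by
    intro o
    by_cases hb : o = b
    · rw [hb, yb]; linarith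
    · have := hlow o hb; linarith
  have hoa : o = a := by
    by_contra h
    have := hup o h
    have := hlow' o'
    linarith
  have hob : o' = b := by
    by_contra h
    have := hlow o' h
    have := hup' o
    linarith
  rw [hoa, hob] at hoo
  have h4 := key b a
  rw [ya, yb] at h4
  refine ⟨l, hl, hoo, by linarith, ?_⟩
  intro k hka hkb
  have h5 := key k a
  have h6 := key b k
  rw [ya] at h5
  rw [yb] at h6
  rw [abs_le]
  constructor <;> linarith

lemma cubeB {Λ : Set (Fin d → ℝ)} (hΛ : ∀ u ∈ Λ, ∀ v ∈ Λ, u - v ∈ Λ) {s β : ℝ} (hs : 0 ≤ s)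
    (hβ : 0 < β) (hβ1 : β ≤ 1 / 4) (hsβ : s ≤ β / 64)
    (h1 : ∀ l ∈ Λ, l ≠ 0 → ∃ o o', 2 - s ≤ hat l o - hat l o')
    (h2 : ∀ x, ∃ l ∈ Λ, x - l ∈ T d (1 + s))
    {a b : Option (Fin d)} (hab : a ≠ b) :
    ∃ l ∈ Λ, ∀ o, |hat l o - ((if a = o then 1 else 0) - (if b = o then 1 else 0))| ≤ 2 * β := by
  classical
  set t : ℝ := β / 32 with ht
  set θ : ℝ := β / 8 with hθ
  -- version of `cubeA` for a box point
  have hA : ∀ p : Option (Fin d) → ℝ, (∀ o, o ≠ a → o ≠ b → |p o| ≤ 1 / 2 - θ) →
      ∃ l ∈ Λ, 2 - s ≤ hat l a - hat l b ∧ hat l a - hat l b ≤ 2 + s + t ∧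
      ∀ o, o ≠ a → o ≠ b → |p o - (hat l o - (hat l a + hat l b) / 2)| ≤ 1 / 2 + t + 2 * s := by
    intro p hp
    obtain ⟨l, hl, h3, h4, h5⟩ := cubeA (Λ := Λ) (a := a) (b := b) (s := s) (t := t) (θ := θ) hs (by linarith)
      (by linarith) (by linarith) h1 h2
      (fun o => if o = a then 1 / 2 + t else if o = b then -(1 / 2) else p o)
      (by simp) (by simp [hab.symm]) (by
        intro o ha hb
        simp only [if_neg ha, if_neg hb]
        exact hp o ha hb)
    refine ⟨l, hl, h3, h4, fun o ha hb => ?_⟩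
    have := h5 o ha hb
    simpa only [if_neg ha, if_neg hb] using this
  obtain ⟨l, hl, hD1, hD2, hc⟩ := hA (fun _ => 0) (by intro o _ _; simp; linarith)
  set c : Option (Fin d) → ℝ := fun o => hat l o - (hat l a + hat l b) / 2 with hcdef
  have hc' : ∀ o, o ≠ a → o ≠ b → |c o| ≤ 1 / 2 + t + 2 * s := by
    intro o ha hb
    have := hc o ha hb
    rwa [zero_sub, abs_neg] at this
  -- all coordinates are small
  have hsmall : ∀ k, k ≠ a → k ≠ b → |c k| ≤ β := by
    intro k hka hkb
    by_contra hk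
    push Not at hk
    -- choose the sign
    obtain ⟨σ, hσ, hck⟩ : ∃ σ : ℝ, (σ = 1 ∨ σ = -1) ∧ β < σ * c k := by
      rcases le_or_gt 0 (c k) with h0 | h0
      · exact ⟨1, Or.inl rfl, by rwa [abs_of_nonneg h0, ← one_mul (c k)] at hk⟩
      · exact ⟨-1, Or.inr rfl, by rw [abs_of_neg h0] at hk; linarith⟩
    have hσ2 : σ * σ = 1 := by rcases hσ with h | h <;> rw [h] <;> norm_num
    have hσabs : ∀ x : ℝ, |x| = |σ * x| := by
      intro x; rcases hσ with h | h <;> rw [h] <;> simp
    have hcku : σ * c k ≤ 1 / 2 + t + 2 * s := by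
      have := hc' k hka hkb
      rw [hσabs] at this
      exact (abs_le.1 this).2
    obtain ⟨l', hl', hD1', hD2', hc2⟩ := hA
      (fun o => if o = k then c k - σ * (1 / 2 + β / 8) else c o / 2) (by
        intro o ha hb
        by_cases hok : o = k
        · simp only [if_pos hok]
          rw [hσabs, mul_sub, ← mul_assoc, hσ2, one_mul, abs_le]
          constructor <;> linarith
        · simp only [if_neg hok]
          have := abs_le.1 (hc' o ha hb)
          rw [abs_le]
          constructor <;> linarith [this.1, this.2])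
    set c2 : Option (Fin d) → ℝ := fun o => hat l' o - (hat l' a + hat l' b) / 2 with hc2def
    have hk2 := hc2 k hka hkb
    simp only [if_true] at hk2
    rw [hσabs] at hk2
    have hk3 : σ * (c k - σ * (1 / 2 + β / 8) - (hat l' k - (hat l' a + hat l' b) / 2)) =
        σ * (c k - c2 k) - (1 / 2 + β / 8) := by
      have : σ * (σ * (1 / 2 + β / 8)) = 1 / 2 + β / 8 := by rw [← mul_assoc, hσ2, one_mul]
      simp only [hc2def]
      linarith
    rw [hk3] at hk2
    have hk4 := abs_le.1 hk2
    have hne : l - l' ≠ 0 := by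
      intro h0
      have h1 : l = l' := sub_eq_zero.1 h0
      have h2 : c k = c2 k := by simp only [hcdef, hc2def, h1]
      rw [h2, sub_self, mul_zero] at hk4
      linarith [hk4.1]
    obtain ⟨o, o', hoo⟩ := h1 (l - l') (hΛ l hl l' hl') hne
    -- bounds for the normalised coordinates of the difference
    set μ : ℝ := (hat l a + hat l b) / 2 - (hat l' a + hat l' b) / 2 with hμ
    have hbd : ∀ o, -(3 / 4 + 3 / 2 * (t + 2 * s)) ≤ σ * (hat (l - l') o - μ) ∧
        σ * (hat (l - l') o - μ) ≤ 1 + β / 8 + t + 2 * s := by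
      intro o
      have hsmallD : |hat (l - l') a - μ| ≤ 2 * s + t ∧ |hat (l - l') b - μ| ≤ 2 * s + t := by
        rw [hat_sub, hat_sub, hμ]
        constructor <;> rw [abs_le] <;> constructor <;> linarith
      by_cases ha : o = a
      · have := hsmallD.1
        rw [hσabs] at this
        rw [ha]
        constructor <;> linarith [(abs_le.1 this).1, (abs_le.1 this).2]
      by_cases hb : o = b
      · have := hsmallD.2
        rw [hσabs] at this
        rw [hb]
        constructor <;> linarith [(abs_le.1 this).1, (abs_le.1 this).2]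
      have heq : hat (l - l') o - μ = c o - c2 o := by
        rw [hat_sub, hμ]; simp only [hcdef, hc2def]; ring
      rw [heq]
      by_cases hok : o = k
      · rw [hok]
        constructor <;> linarith [hk4.1, hk4.2]
      · have h7 := hc2 o ha hb
        simp only [if_neg hok] at h7
        have h8 : |c o - c2 o| ≤ 3 / 4 + 3 / 2 * (t + 2 * s) := by
          have h9 := abs_le.1 (hc' o ha hb)
          have h10 := abs_le.1 h7
          simp only [hc2def]
          rw [abs_le]
          constructor <;> linarith [h9.1, h9.2, h10.1, h10.2]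
        rw [hσabs] at h8
        constructor <;> linarith [(abs_le.1 h8).1, (abs_le.1 h8).2]
    have hb1 := hbd o
    have hb2 := hbd o'
    have hfin : hat (l - l') o - hat (l - l') o' < 2 - s := by
      rcases hσ with h | h
      · rw [h] at hb1 hb2
        linarith [hb1.1, hb1.2, hb2.1, hb2.2]
      · rw [h] at hb1 hb2
        linarith [hb1.1, hb1.2, hb2.1, hb2.2]
    linarith
  -- conclusion
  set D : ℝ := hat l a - hat l b with hD
  set m : ℝ := (hat l a + hat l b) / 2 with hm
  have hterm : ∀ o, |hat l o - m - ((if a = o then D / 2 else 0) - (if b = o then D / 2 else 0))| ≤ β := by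
    intro o
    by_cases ha : a = o
    · have hb : b ≠ o := fun h => hab (ha.trans h.symm)
      rw [if_pos ha, if_neg hb, ← ha, hD, hm]
      have : hat l a - (hat l a + hat l b) / 2 - ((hat l a - hat l b) / 2 - 0) = 0 := by ring
      rw [this, abs_zero]; exact hβ.le
    by_cases hb : b = o
    · rw [if_pos hb, if_neg ha, ← hb, hD, hm]
      have : hat l b - (hat l a + hat l b) / 2 - (0 - (hat l a - hat l b) / 2) = 0 := by ring
      rw [this, abs_zero]; exact hβ.le
    rw [if_neg ha, if_neg hb, sub_zero, sub_zero]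
    exact hsmall o (Ne.symm ha) (Ne.symm hb)
  have hdpos : (0:ℝ) < d + 1 := by positivity
  have hmle : |m| ≤ β := by
    have hs1 : ∑ o, (hat l o - m - ((if a = o then D / 2 else 0) - (if b = o then D / 2 else 0))) =
        -((d + 1) * m) := by
      rw [Finset.sum_sub_distrib, Finset.sum_sub_distrib, sum_hat, Finset.sum_sub_distrib]
      simp
    have hs2 : |∑ o, (hat l o - m - ((if a = o then D / 2 else 0) - (if b = o then D / 2 else 0)))| ≤
        (d + 1) * β := by
      calc _ ≤ ∑ o, |hat l o - m - ((if a = o then D / 2 else 0) - (if b = o then D / 2 else 0))| :=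
            Finset.abs_sum_le_sum_abs _ _
        _ ≤ ∑ _o : Option (Fin d), β := Finset.sum_le_sum fun o _ => hterm o
        _ = (d + 1) * β := by simp
    rw [hs1, abs_neg, abs_mul, abs_of_pos hdpos] at hs2
    exact le_of_mul_le_mul_left hs2 hdpos
  refine ⟨l, hl, fun o => ?_⟩
  have h5 := abs_le.1 (hterm o)
  have h6 := abs_le.1 hmle
  rw [abs_le]
  by_cases ha : a = o
  · have hb : b ≠ o := fun h => hab (ha.trans h.symm)
    rw [if_pos ha, if_neg hb] at h5 ⊢
    have h7 : hat l o - m - D / 2 = 0 := by rw [← ha, hD, hm]; ring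
    constructor <;> linarith [h6.1, h6.2]
  by_cases hb : b = o
  · rw [if_pos hb, if_neg ha] at h5 ⊢
    have h7 : hat l o - m + D / 2 = 0 := by rw [← hb, hD, hm]; ring
    constructor <;> linarith [h6.1, h6.2]
  rw [if_neg ha, if_neg hb] at h5 ⊢
  constructor <;> linarith [h6.1, h6.2, h5.1, h5.2]

end Pool.Agent.Helper876
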