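import Mathlib

set_option autoImplicit false

namespace Pool.Agent.Helper876

open Matrix Finset

variable {d : ℕ}

lemma one_add_sum_le_prod {ι : Type*} (s : Finset ι) (f : ι → ℝ) (hf : ∀ i ∈ s, 0 ≤ f i) :
    1 + ∑ i ∈ s, f i ≤ ∏ i ∈ s, (1 + f i) := by
  classical
  induction s using Finset.induction_on with
  | empty => simp
  | insert a s ha ih =>
    rw [Finset.sum_insert ha, Finset.prod_insert ha]
    have h1 := ih fun i hi => hf i (Finset.mem_insert_of_mem hi)
    have h2 : 0 ≤ f a := hf a (Finset.mem_insert_self _ _)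
    have h3 : 0 ≤ ∑ i ∈ s, f i := Finset.sum_nonneg fun i hi => hf i (Finset.mem_insert_of_mem hi)
    have h4 : 1 ≤ ∏ i ∈ s, (1 + f i) := by linarith
    nlinarith

lemma trace_le_det {M : Matrix (Fin d) (Fin d) ℝ} (hM : M.PosSemidef) :
    1 + M.trace ≤ (1 + M).det := by
  have h1 := hM.isHermitian.charpoly_eq
  have h2 := Matrix.eval_charpoly M (-1)
  rw [h1, Polynomial.eval_prod] at h2
  have h3 : (Matrix.scalar (Fin d) (-1 : ℝ)) - M = -(1 + M) := by
    rw [map_neg, map_one]; abel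
  rw [h3, Matrix.det_neg] at h2
  have h4 : ∏ j, Polynomial.eval (-1 : ℝ)
      (Polynomial.X - Polynomial.C ((hM.isHermitian.eigenvalues j : ℝ))) =
      (-1) ^ d * ∏ j, (1 + hM.isHermitian.eigenvalues j) := by
    have : ∀ j, Polynomial.eval (-1 : ℝ)
      (Polynomial.X - Polynomial.C ((hM.isHermitian.eigenvalues j : ℝ))) =
      (-1) * (1 + hM.isHermitian.eigenvalues j) := by
      intro j; simp; ring
    rw [Finset.prod_congr rfl fun j _ => this j, Finset.prod_mul_distrib]
    simp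
  have h5 : (-1 : ℝ) ^ d * ∏ j, (1 + hM.isHermitian.eigenvalues j) = (-1) ^ d * (1 + M).det := by
    rw [← h4, Fintype.card_fin] at *
    exact h2
  have h6 : ∏ j, (1 + hM.isHermitian.eigenvalues j) = (1 + M).det := by
    have : ((-1 : ℝ) ^ d) ≠ 0 := by positivity
    exact mul_left_cancel₀ this h5
  rw [← h6]
  have h7 : M.trace = ∑ j, hM.isHermitian.eigenvalues j := by
    have := hM.isHermitian.trace_eq_sum_eigenvalues
    simpa using this
  rw [h7]
  exact one_add_sum_le_prod _ _ fun i _ => hM.eigenvalues_nonneg i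

lemma skew_det {A : Matrix (Fin d) (Fin d) ℝ} (hA : Aᵀ = -A) :
    1 + (Aᵀ * A).trace ≤ (1 + A).det ^ 2 := by
  have h1 : (1 + A).det = (1 - A).det := by
    rw [← Matrix.det_transpose (1 + A), Matrix.transpose_add, hA, Matrix.transpose_one]
    congr 1
  have h2 : (1 + A).det ^ 2 = (1 + Aᵀ * A).det := by
    rw [sq]
    nth_rewrite 1 [h1]
    rw [← Matrix.det_mul]
    congr 1
    rw [hA]
    noncomm_ring
  rw [h2]
  apply trace_le_det
  have := Matrix.posSemidef_conjTranspose_mul_self A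
  simpa using this

open scoped MatrixOrder in
/-- Ostrowski–Taussky -/
lemma OT {S K : Matrix (Fin d) (Fin d) ℝ} (hS : S.PosDef) (hK : Kᵀ = -K) :
    S.det ^ 2 ≤ (S + K).det ^ 2 ∧ ((S + K).det ^ 2 ≤ S.det ^ 2 → K = 0) := by
  obtain ⟨C, hC⟩ := CStarAlgebra.nonneg_iff_eq_star_mul_self.mp hS.posSemidef.nonneg
  have hC' : S = Cᵀ * C := by
    rw [hC]; rfl
  have hdS : 0 < S.det := hS.det_pos
  have hdC : C.det ≠ 0 := by
    intro h
    rw [hC', Matrix.det_mul, h, mul_zero] at hdS
    exact lt_irrefl _ hdS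
  have hCu : IsUnit C.det := isUnit_iff_ne_zero.2 hdC
  set A : Matrix (Fin d) (Fin d) ℝ := (C⁻¹)ᵀ * K * C⁻¹ with hA
  have hAs : Aᵀ = -A := by
    rw [hA, Matrix.transpose_mul, Matrix.transpose_mul, Matrix.transpose_transpose, hK]
    noncomm_ring
  have hCT : Cᵀ * (C⁻¹)ᵀ = 1 := by
    rw [← Matrix.transpose_mul, Matrix.nonsing_inv_mul _ hCu, Matrix.transpose_one]
  have hKA : K = Cᵀ * A * C := by
    rw [hA]
    calc K = (Cᵀ * (C⁻¹)ᵀ) * K * (C⁻¹ * C) := by
          rw [hCT, Matrix.nonsing_inv_mul _ hCu]; simp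
      _ = _ := by noncomm_ring
  have hSK : S + K = Cᵀ * (1 + A) * C := by
    rw [mul_add, add_mul, mul_one, ← hC', ← hKA]
  have hdet : (S + K).det = S.det * (1 + A).det := by
    rw [hSK, hC', Matrix.det_mul, Matrix.det_mul, Matrix.det_mul]; ring
  have hsk := skew_det hAs
  have htr : 0 ≤ (Aᵀ * A).trace := by
    have := (Matrix.posSemidef_conjTranspose_mul_self A).trace_nonneg
    simpa using this
  rw [hdet, mul_pow]
  have hS2 : 0 < S.det ^ 2 := by positivity
  constructor
  · nlinarith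
  · intro hle
    have h1 : (1 + A).det ^ 2 ≤ 1 := by
      by_contra h
      push Not at h
      nlinarith
    have h2 : (Aᵀ * A).trace = 0 := by linarith
    have h3 : A = 0 := by
      have := (Matrix.trace_conjTranspose_mul_self_eq_zero_iff (A := A)).1 (by simpa using h2)
      exact this
    rw [hKA, h3]; simp

end Pool.Agent.Helper876
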