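import Mathlib
import Pool.Agent.Helper876.Cube
import Pool.Agent.Helper876.OT

set_option autoImplicit false

namespace Pool.Agent.Helper876

open Matrix Finset MeasureTheory Module
open scoped Pointwise ENNReal Topology

variable {d : ℕ}

/-- bilinear identity -/
lemma dot_Q (x y : Fin d → ℝ) : y ⬝ᵥ (Q d *ᵥ x) = ∑ o, hat y o * hat x o := by
  rw [Fintype.sum_option]
  unfold Q J
  rw [Matrix.add_mulVec, Matrix.one_mulVec, dotProduct_add]
  simp only [hat_none, hat_some]
  have h1 : y ⬝ᵥ ((Matrix.of fun _ _ => (1:ℝ)) *ᵥ x) = (∑ i, y i) * ∑ i, x i := by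
    simp only [dotProduct, mulVec, Matrix.of_apply, one_mul]
    rw [← Finset.sum_mul]
  rw [h1]
  simp only [dotProduct]
  ring

lemma hat_diff (a b : Option (Fin d)) (x : Fin d → ℝ) :
    hat x a - hat x b = cast (root (a, b)) ⬝ᵥ (Q d *ᵥ x) := by
  rw [dot_Q]
  have : ∀ o, hat (cast (root (a, b))) o * hat x o =
      ((if a = o then 1 else 0) - (if b = o then 1 else 0)) * hat x o := by
    intro o
    have := hat_root a b o
    unfold cast
    rw [this]
  rw [Finset.sum_congr rfl fun o _ => this o]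
  simp [sub_mul, Finset.sum_sub_distrib]

lemma root_some_none (i : Fin d) : cast (root (some i, none)) = Pi.single i (1:ℝ) := by
  funext k
  by_cases h : k = i
  · subst h; simp [root]
  · simp [root, h, Ne.symm h]

lemma root_some_some (i j : Fin d) :
    cast (root (some i, some j)) = Pi.single i (1:ℝ) - Pi.single j 1 := by
  funext k
  simp only [cast, root, Option.some.injEq, Pi.sub_apply, Pi.single_apply]
  push_cast
  simp [eq_comm]

/-- the local optimality lemma -/
lemma local_lemma (d : ℕ) : ∃ η : ℝ, 0 < η ∧ ∀ B : Matrix (Fin d) (Fin d) ℝ,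
    (∀ i j, |B i j - (1 : Matrix (Fin d) (Fin d) ℝ) i j| ≤ η) →
    (∀ a b, a ≠ b → 2 ≤ hat (B *ᵥ cast (root (a, b))) a - hat (B *ᵥ cast (root (a, b))) b) →
    1 ≤ B.det ∧ (B.det ≤ 1 → B = 1) := by
  obtain ⟨η₁, hη₁, hloc⟩ := det_local d
  -- the symmetric defect
  let Hf : (Fin d → Fin d → ℝ) → Matrix (Fin d) (Fin d) ℝ := fun B =>
    (1 / 2 : ℝ) • (Q d * Matrix.of B + (Q d * Matrix.of B)ᵀ) - Q d
  have hcont : Continuous fun B : Fin d → Fin d → ℝ => Tf (Hf B) := by
    simp only [Tf, Hf, Matrix.sub_apply, Matrix.smul_apply, Matrix.add_apply,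
      Matrix.transpose_apply, Matrix.mul_apply, Matrix.of_apply]
    fun_prop
  have hcontdet : Continuous fun B : Fin d → Fin d → ℝ => (Matrix.of B).det := by
    have : (fun B : Fin d → Fin d → ℝ => (Matrix.of B).det) = fun M : Fin d → Fin d → ℝ =>
        ∑ σ : Equiv.Perm (Fin d), (Equiv.Perm.sign σ : ℤ) * ∏ i, M (σ i) i := by
      funext M
      rw [Matrix.det_apply']
      rfl
    rw [this]
    fun_prop
  let I0 : Fin d → Fin d → ℝ := fun i j => (1 : Matrix (Fin d) (Fin d) ℝ) i j
  have hQsym : (Q d)ᵀ = Q d := by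
    ext i j; simp [Q, J, Matrix.one_apply, eq_comm]
  have hI0 : Matrix.of I0 = 1 := rfl
  have hH0 : Hf I0 = 0 := by
    simp only [Hf]
    rw [hI0, mul_one, hQsym, ← two_smul ℝ (Q d), smul_smul]
    norm_num
  have hT0 : Tf (Hf I0) = 0 := by rw [hH0]; simp [Tf]
  set η₂ : ℝ := min η₁ (1 / (4 * (d + 1))) with hη₂
  have hη₂pos : 0 < η₂ := lt_min hη₁ (by positivity)
  have hev1 : ∀ᶠ B in 𝓝 I0, Tf (Hf B) < η₂ := by
    apply hcont.continuousAt.eventually_lt continuousAt_const
    rw [hT0]; exact hη₂pos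
  have hev2 : ∀ᶠ B in 𝓝 I0, 0 < (Matrix.of B).det := by
    apply continuousAt_const.eventually_lt hcontdet.continuousAt
    rw [hI0]; simp
  have hev := hev1.and hev2
  rw [Metric.eventually_nhds_iff] at hev
  obtain ⟨ε, hε, hev⟩ := hev
  refine ⟨ε / 2, by positivity, ?_⟩
  intro B hB hadm
  have hdist : dist (fun i j => B i j) I0 < ε := by
    have : dist (fun i j => B i j) I0 ≤ ε / 2 := by
      rw [dist_pi_le_iff (by positivity)]
      intro i
      rw [dist_pi_le_iff (by positivity)]
      intro j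
      exact hB i j
    linarith
  obtain ⟨hTlt, hdetpos⟩ := hev hdist
  have hofB : Matrix.of (fun i j => B i j) = B := rfl
  rw [hofB] at hdetpos
  set F : Matrix (Fin d) (Fin d) ℝ := Q d * B with hF
  set S : Matrix (Fin d) (Fin d) ℝ := (1 / 2 : ℝ) • (F + Fᵀ) with hS
  set K : Matrix (Fin d) (Fin d) ℝ := (1 / 2 : ℝ) • (F - Fᵀ) with hK
  set H : Matrix (Fin d) (Fin d) ℝ := S - Q d with hH
  have hHf : Hf (fun i j => B i j) = H := rfl
  rw [hHf] at hTlt
  have hSK : S + K = F := by
    rw [hS, hK, ← smul_add]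
    have : F + Fᵀ + (F - Fᵀ) = (2:ℝ) • F := by rw [two_smul]; abel
    rw [this, smul_smul]; norm_num
  have hKT : Kᵀ = -K := by
    rw [hK, Matrix.transpose_smul, Matrix.transpose_sub, Matrix.transpose_transpose, ← smul_neg]
    congr 1; abel
  -- admissibility
  have hadm' : ∀ a b, a ≠ b →
      2 ≤ cast (root (a, b)) ⬝ᵥ (F *ᵥ cast (root (a, b))) := by
    intro a b hab
    have := hadm a b hab
    rw [hat_diff, Matrix.mulVec_mulVec] at this
    exact this
  have hQii : ∀ i, Q d i i = 2 := by
    intro i; simp [Q, J]; norm_num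
  have hQij : ∀ i j, i ≠ j → Q d i j = 1 := by
    intro i j h; simp [Q, J, h]
  have hFii : ∀ i, 2 ≤ F i i := by
    intro i
    have := hadm' (some i) none (by simp)
    rw [root_some_none] at this
    simpa using this
  have hFij : ∀ i j, i ≠ j → 2 ≤ F i i + F j j - F i j - F j i := by
    intro i j hij
    have := hadm' (some i) (some j) (by simpa using hij)
    rw [root_some_some, Matrix.mulVec_sub, dotProduct_sub, sub_dotProduct, sub_dotProduct] at this
    simp at this
    linarith
  have hHij : ∀ i j, H i j = (F i j + F j i) / 2 - Q d i j := by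
    intro i j
    rw [hH, hS]
    simp only [Matrix.sub_apply, Matrix.smul_apply, Matrix.add_apply, Matrix.transpose_apply,
      smul_eq_mul]
    ring
  have h0 : ∀ i, 0 ≤ H i i := by
    intro i
    rw [hHij, hQii]
    linarith [hFii i]
  have h1 : ∀ i j, 0 ≤ H i i + H j j - 2 * H i j := by
    intro i j
    by_cases hij : i = j
    · rw [hij]; linarith
    · rw [hHij, hHij, hHij, hQii, hQii, hQij i j hij]
      linarith [hFij i j hij]
  have hTnn : 0 ≤ Tf H := by
    unfold Tf
    have := Finset.sum_nonneg (s := Finset.univ) fun i _ => h0 i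
    have := Finset.sum_nonneg (s := Finset.univ) fun i _ =>
      Finset.sum_nonneg (s := Finset.univ) fun j _ => h1 i j
    positivity
  have hdet1 := hloc H h0 h1 (hTlt.le.trans (min_le_left _ _))
  have hQH : Q d + H = S := by rw [hH]; abel
  rw [hQH] at hdet1
  -- positive definiteness
  have hST : Sᵀ = S := by
    rw [hS, Matrix.transpose_smul, Matrix.transpose_add, Matrix.transpose_transpose, add_comm]
  have hSpd : S.PosDef := by
    rw [Matrix.posDef_iff_dotProduct_mulVec]
    refine ⟨?_, ?_⟩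
    · show Sᴴ = S
      rw [Matrix.conjTranspose_eq_transpose_of_trivial, hST]
    · intro x hx
      simp only [star_trivial]
      have e1 : x ⬝ᵥ (S *ᵥ x) = q x + x ⬝ᵥ (H *ᵥ x) := by
        rw [← hQH, Matrix.add_mulVec, dotProduct_add, ← q_eq]
      rw [e1]
      have e2 : |x ⬝ᵥ (H *ᵥ x)| ≤ 2 * Tf H * (d * ∑ i, x i ^ 2) := by
        rw [quad_expand]
        calc |∑ i, ∑ j, x i * x j * H i j|
            ≤ ∑ i, |∑ j, x i * x j * H i j| := Finset.abs_sum_le_sum_abs _ _
          _ ≤ ∑ i, ∑ j, |x i * x j * H i j| :=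
              Finset.sum_le_sum fun i _ => Finset.abs_sum_le_sum_abs _ _
          _ ≤ ∑ i, ∑ j, |x i| * |x j| * (2 * Tf H) := by
              refine Finset.sum_le_sum fun i _ => Finset.sum_le_sum fun j _ => ?_
              rw [abs_mul, abs_mul]
              exact mul_le_mul_of_nonneg_left (abs_le_Tf h0 h1 i j) (by positivity)
          _ = 2 * Tf H * (∑ i, |x i|) ^ 2 := by
              rw [sq, Finset.sum_mul_sum, Finset.mul_sum]
              refine Finset.sum_congr rfl fun i _ => ?_
              rw [Finset.mul_sum]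
              refine Finset.sum_congr rfl fun j _ => by ring
          _ ≤ 2 * Tf H * (d * ∑ i, x i ^ 2) := by
              apply mul_le_mul_of_nonneg_left _ (by positivity)
              have := sq_sum_le_card_mul_sum_sq (s := (Finset.univ : Finset (Fin d)))
                (f := fun i => |x i|)
              simpa using this
      have e3 : 0 < ∑ i, x i ^ 2 := by
        obtain ⟨i, hi⟩ := Function.ne_iff.1 hx
        have h2 : x i ^ 2 ≤ ∑ i, x i ^ 2 :=
          Finset.single_le_sum (f := fun i => x i ^ 2) (fun i _ => sq_nonneg _) (Finset.mem_univ i)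
        have h3 : 0 < x i ^ 2 := by
          have : x i ≠ 0 := hi
          positivity
        linarith
      have e4 : ∑ i, x i ^ 2 ≤ q x := by
        unfold q
        have := sq_nonneg (∑ i, x i)
        linarith
      have e5 : Tf H * (4 * (d + 1)) ≤ 1 := by
        have h5 : Tf H ≤ 1 / (4 * (d + 1)) := hTlt.le.trans (min_le_right _ _)
        rwa [le_div_iff₀ (by positivity)] at h5
      have e6 : 2 * Tf H * (d * ∑ i, x i ^ 2) ≤ (1 / 2) * ∑ i, x i ^ 2 := by
        have : 2 * Tf H * d ≤ 1 / 2 := by nlinarith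
        calc 2 * Tf H * (d * ∑ i, x i ^ 2) = (2 * Tf H * d) * ∑ i, x i ^ 2 := by ring
          _ ≤ _ := mul_le_mul_of_nonneg_right this e3.le
      have e7 := (abs_le.1 e2).1
      linarith
  have hot := OT hSpd hKT
  rw [hSK] at hot
  have hdF : F.det = (Q d).det * B.det := by rw [hF, Matrix.det_mul]
  have hdQ := det_Q_pos (d := d)
  have hFpos : 0 < F.det := by rw [hdF]; positivity
  have hSpos : 0 < S.det := hSpd.det_pos
  have hSF : S.det ≤ F.det := by
    have := hot.1
    exact (pow_le_pow_iff_left₀ hSpos.le hFpos.le two_ne_zero).1 this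
  have hmain : 1 + Tf H / (2 * (d + 1)) ≤ B.det := by
    have h3 : (Q d).det * (1 + Tf H / (2 * (d + 1))) ≤ (Q d).det * B.det := by
      rw [← hdF]; linarith
    exact le_of_mul_le_mul_left h3 hdQ
  have hdivnn : 0 ≤ Tf H / (2 * (d + 1)) := by positivity
  refine ⟨by linarith, ?_⟩
  intro hle
  have hT0' : Tf H = 0 := by
    have h4 : Tf H / (2 * (d + 1)) ≤ 0 := by linarith
    have h5 : Tf H / (2 * (d + 1)) = 0 := le_antisymm h4 hdivnn
    rcases div_eq_zero_iff.1 h5 with h6 | h6
    · exact h6
    · exfalso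
      have : (0:ℝ) < 2 * (d + 1) := by positivity
      linarith
  have hH0' : H = 0 := by
    ext i j
    have := abs_le_Tf h0 h1 i j
    rw [hT0', mul_zero] at this
    have := abs_eq_zero.1 (le_antisymm this (abs_nonneg _))
    simpa using this
  have hSQ : S = Q d := by rw [← hQH, hH0', add_zero]
  have hK0 : K = 0 := by
    apply hot.2
    have : F.det ≤ S.det := by
      rw [hSQ, hdF]
      nlinarith
    exact pow_le_pow_left₀ hFpos.le this 2
  have hFQ : F = Q d := by rw [← hSK, hK0, hSQ, add_zero]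
  have hQu : IsUnit (Q d).det := isUnit_iff_ne_zero.2 hdQ.ne'
  calc B = ((Q d)⁻¹ * Q d) * B := by rw [Matrix.nonsing_inv_mul _ hQu, one_mul]
    _ = (Q d)⁻¹ * F := by rw [hF, mul_assoc]
    _ = 1 := by rw [hFQ, Matrix.nonsing_inv_mul _ hQu]

end Pool.Agent.Helper876
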