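import Mathlib
import Pool.Agent.Helper876.LocalDet

set_option autoImplicit false

namespace Pool.Agent.Helper876

open Matrix Finset MeasureTheory Module Filter
open scoped Pointwise ENNReal Topology

variable {d : ℕ}

lemma continuous_det_of : Continuous fun B : Fin d → Fin d → ℝ => (Matrix.of B).det := by
  have : (fun B : Fin d → Fin d → ℝ => (Matrix.of B).det) = fun M : Fin d → Fin d → ℝ =>
      ∑ σ : Equiv.Perm (Fin d), (Equiv.Perm.sign σ : ℤ) * ∏ i, M (σ i) i := by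
    funext M
    rw [Matrix.det_apply']
    rfl
  rw [this]
  fun_prop

/-- closeness to the identity matrix -/
def Near (η : ℝ) (B : Matrix (Fin d) (Fin d) ℝ) : Prop :=
  ∀ i j, |B i j - (1 : Matrix (Fin d) (Fin d) ℝ) i j| ≤ η

lemma det_near (d : ℕ) {κ : ℝ} (hκ : 0 < κ) : ∃ η : ℝ, 0 < η ∧
    ∀ B : Matrix (Fin d) (Fin d) ℝ, Near η B → |B.det - 1| ≤ κ := by
  have h : ∀ᶠ B in 𝓝 (fun i j => (1 : Matrix (Fin d) (Fin d) ℝ) i j : Fin d → Fin d → ℝ),
      |(Matrix.of B).det - 1| < κ := by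
    apply ContinuousAt.eventually_lt _ continuousAt_const
    · have : Matrix.of (fun i j => (1 : Matrix (Fin d) (Fin d) ℝ) i j) = 1 := rfl
      rw [this]; simpa using hκ
    · exact ((continuous_det_of.sub continuous_const).abs).continuousAt
  rw [Metric.eventually_nhds_iff] at h
  obtain ⟨ε, hε, h⟩ := h
  refine ⟨ε / 2, by positivity, fun B hB => ?_⟩
  have hdist : dist (fun i j => B i j) (fun i j => (1 : Matrix (Fin d) (Fin d) ℝ) i j) < ε := by
    have : dist (fun i j => B i j) (fun i j => (1 : Matrix (Fin d) (Fin d) ℝ) i j) ≤ ε / 2 := by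
      rw [dist_pi_le_iff (by positivity)]
      intro i
      rw [dist_pi_le_iff (by positivity)]
      intro j
      exact hB i j
    linarith
  exact (h hdist).le

/-- Global closeness: every nearly admissible lattice with small determinant has a basis near `1`. -/
lemma near_I (d : ℕ) {η : ℝ} (hη : 0 < η) : ∃ s₀ : ℝ, 0 < s₀ ∧ ∀ s : ℝ, 0 < s → s ≤ s₀ →
    ∀ B : Matrix (Fin d) (Fin d) ℝ, B.det ≠ 0 →
    (∀ z : Fin d → ℤ, z ≠ 0 → ∃ a b, 2 * (1 - s) ≤ hat (B *ᵥ cast z) a - hat (B *ᵥ cast z) b) →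
    |B.det| ≤ (1 + s) ^ d →
    ∃ Z : Matrix (Fin d) (Fin d) ℤ, IsUnit Z.det ∧ Near η (B * Z.map (fun k : ℤ => (k : ℝ))) := by
  obtain ⟨η₁, hη₁, hdetn⟩ := det_near d (κ := 1 / 4) (by norm_num)
  set β : ℝ := min (1 / 4) (min (η / 2) (η₁ / 2)) with hβ
  have hβpos : 0 < β := by
    refine lt_min (by norm_num) (lt_min (by positivity) (by positivity))
  have hβ1 : β ≤ 1 / 4 := min_le_left _ _
  have hβ2 : 2 * β ≤ η := by
    have : β ≤ η / 2 := (min_le_right _ _).trans (min_le_left _ _)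
    linarith
  have hβ3 : 2 * β ≤ η₁ := by
    have : β ≤ η₁ / 2 := (min_le_right _ _).trans (min_le_right _ _)
    linarith
  set s' : ℝ := β / 64 with hs'
  have hs'pos : 0 < s' := by positivity
  set ηc : ℝ := s' / (2 * (d + 1)) with hηc
  have hηcpos : 0 < ηc := by positivity
  -- smallness of `s`
  have hev1 : ∀ᶠ s : ℝ in 𝓝 0, (1 + s) ^ d - (1 - 2 * s) ^ d < (2 * ηc) ^ d := by
    apply ContinuousAt.eventually_lt _ continuousAt_const
    · simp; positivity
    · fun_prop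
  have hev2 : ∀ᶠ s : ℝ in 𝓝 0, (3 : ℝ) / 4 < (1 - 2 * s) ^ d := by
    apply ContinuousAt.eventually_lt continuousAt_const
    · fun_prop
    · norm_num
  have hev := hev1.and hev2
  rw [Metric.eventually_nhds_iff] at hev
  obtain ⟨ε, hε, hev⟩ := hev
  refine ⟨min (ε / 2) (min (s' / 2) (1 / 4)), lt_min (by positivity) (lt_min (by positivity)
    (by norm_num)), ?_⟩
  intro s hs hss B hB hadm hdet
  have hsε : s ≤ ε / 2 := hss.trans (min_le_left _ _)
  have hss' : s ≤ s' / 2 := hss.trans ((min_le_right _ _).trans (min_le_left _ _))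
  have hs14 : s ≤ 1 / 4 := hss.trans ((min_le_right _ _).trans (min_le_right _ _))
  obtain ⟨he1, he2⟩ := hev (y := s) (by rw [dist_zero_right, Real.norm_of_nonneg hs.le]; linarith)
  have hr : 0 < 1 - 2 * s := by linarith
  have hstrict : ∀ z : Fin d → ℤ, z ≠ 0 →
      ∃ a b, 2 * (1 - 2 * s) < hat (B *ᵥ cast z) a - hat (B *ᵥ cast z) b := by
    intro z hz
    obtain ⟨a, b, hab⟩ := hadm z hz
    exact ⟨a, b, by linarith⟩
  have hdlow := det_ge hB hr hstrict
  have h4 : (d + 1) * (4 * ηc) = 2 * s' := by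
    rw [hηc]; field_simp; ring
  have hcov := approx_cover hB hr hηcpos (by rw [h4]; linarith) hstrict (by linarith)
  have h5 : 1 - 2 * s + 2 * (d + 1) * ηc ≤ 1 + s' := by
    have : 2 * (d + 1) * ηc = s' := by rw [hηc]; field_simp
    rw [this]; linarith
  -- the lattice
  set Λ : Set (Fin d → ℝ) := {v | ∃ z : Fin d → ℤ, v = B *ᵥ cast z} with hΛ
  have hsub : ∀ u ∈ Λ, ∀ v ∈ Λ, u - v ∈ Λ := by
    rintro u ⟨z, rfl⟩ v ⟨w, rfl⟩
    exact ⟨z - w, by rw [cast_sub, Matrix.mulVec_sub]⟩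
  have hc1 : ∀ l ∈ Λ, l ≠ 0 → ∃ o o', 2 - s' ≤ hat l o - hat l o' := by
    rintro l ⟨z, rfl⟩ hl
    have hz : z ≠ 0 := by
      rintro rfl
      apply hl
      have : cast (0 : Fin d → ℤ) = 0 := by funext i; simp
      rw [this, Matrix.mulVec_zero]
    obtain ⟨a, b, hab⟩ := hadm z hz
    exact ⟨a, b, by linarith⟩
  have hc2 : ∀ x, ∃ l ∈ Λ, x - l ∈ T d (1 + s') := by
    intro x
    obtain ⟨z, hz⟩ := hcov x
    exact ⟨_, ⟨z, rfl⟩, fun a b => (hz a b).trans h5⟩
  have hcols : ∀ j : Fin d, ∃ z : Fin d → ℤ, ∀ i : Fin d,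
      |(B *ᵥ cast z) i - (1 : Matrix (Fin d) (Fin d) ℝ) i j| ≤ 2 * β := by
    intro j
    obtain ⟨l, ⟨z, rfl⟩, hl⟩ := cubeB hsub hs'pos.le hβpos hβ1 le_rfl hc1 hc2
      (a := some j) (b := none) (by simp)
    refine ⟨z, fun i => ?_⟩
    have := hl (some i)
    simpa [Matrix.one_apply, eq_comm] using this
  choose zc hzc using hcols
  set Z : Matrix (Fin d) (Fin d) ℤ := Matrix.of fun i j => zc j i with hZ
  have hBZ : ∀ i j, (B * Z.map (fun k : ℤ => (k : ℝ))) i j = (B *ᵥ cast (zc j)) i := by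
    intro i j
    simp [Matrix.mul_apply, Matrix.mulVec, dotProduct, hZ]
  have hnear : ∀ i j, |(B * Z.map (fun k : ℤ => (k : ℝ))) i j -
      (1 : Matrix (Fin d) (Fin d) ℝ) i j| ≤ 2 * β := by
    intro i j
    rw [hBZ]; exact hzc j i
  refine ⟨Z, ?_, fun i j => (hnear i j).trans hβ2⟩
  have hd1 := hdetn _ (fun i j => (hnear i j).trans hβ3)
  have hdZ : (Z.map (fun k : ℤ => (k : ℝ))).det = (Z.det : ℝ) := by
    have := (Int.castRingHom ℝ).map_det Z
    rw [eq_comm]
    exact this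
  rw [Matrix.det_mul, hdZ] at hd1
  have hd2 := abs_le.1 hd1
  have hne : Z.det ≠ 0 := by
    intro h
    rw [h] at hd2
    simp at hd2
    linarith [hd2.1]
  have hlt : |(Z.det : ℝ)| < 2 := by
    have h6 : |B.det| * |(Z.det : ℝ)| ≤ 5 / 4 := by
      rw [← abs_mul]
      rw [abs_le]
      constructor <;> linarith
    have h7 : 3 / 4 < |B.det| := lt_of_lt_of_le he2 hdlow
    by_contra hcon
    push Not at hcon
    nlinarith
  have hlt' : |Z.det| < 2 := by exact_mod_cast hlt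
  rw [Int.isUnit_iff]
  rw [abs_lt] at hlt'
  omega

end Pool.Agent.Helper876
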