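import Mathlib
import Pool.Agent.Helper876.NearI

set_option autoImplicit false

namespace Pool.Agent.Helper876

open Matrix Finset MeasureTheory Module Filter
open scoped Pointwise ENNReal Topology

variable {d : ℕ}

/-- pairwise distinct quadruples -/
def Dist4 (a b c e : Option (Fin d)) : Prop :=
  a ≠ b ∧ a ≠ c ∧ a ≠ e ∧ b ≠ c ∧ b ≠ e ∧ c ≠ e

/-- the cut body, scaled by `r` -/
def Pe (d : ℕ) (ε r : ℝ) : Set (Fin d → ℝ) :=
  {x | (∀ a b, hat x a - hat x b ≤ 2 * r) ∧
    ∀ a b c e, Dist4 a b c e → (hat x a - hat x b) + (hat x c - hat x e) ≤ (4 - 4 * ε) * r}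

/-- the open version -/
def Ue (d : ℕ) (ε r : ℝ) : Set (Fin d → ℝ) :=
  {x | (∀ a b, hat x a - hat x b < 2 * r) ∧
    ∀ a b c e, Dist4 a b c e → (hat x a - hat x b) + (hat x c - hat x e) < (4 - 4 * ε) * r}

lemma mulVec_norm_le {M : Matrix (Fin d) (Fin d) ℝ} {η : ℝ} (hη : 0 ≤ η) (hM : ∀ i j, |M i j| ≤ η)
    (x : Fin d → ℝ) : ‖M *ᵥ x‖ ≤ d * η * ‖x‖ := by
  rw [pi_norm_le_iff_of_nonneg (by positivity)]
  intro i
  rw [Real.norm_eq_abs]
  calc |(M *ᵥ x) i| = |∑ j, M i j * x j| := rfl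
    _ ≤ ∑ j, |M i j * x j| := Finset.abs_sum_le_sum_abs _ _
    _ ≤ ∑ _j : Fin d, η * ‖x‖ := by
        refine Finset.sum_le_sum fun j _ => ?_
        rw [abs_mul]
        exact mul_le_mul (hM i j) (norm_le_pi_norm x j) (abs_nonneg _) hη
    _ = d * η * ‖x‖ := by simp; ring

lemma near_mulVec {η : ℝ} (hη : 0 ≤ η) {B : Matrix (Fin d) (Fin d) ℝ} (hB : Near η B)
    (x : Fin d → ℝ) : ‖B *ᵥ x - x‖ ≤ d * η * ‖x‖ := by
  have h := mulVec_norm_le (M := B - 1) hη (fun i j => by simpa using hB i j) x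
  rwa [Matrix.sub_mulVec, Matrix.one_mulVec] at h

/-- integral version of `hat` -/
def ihat (z : Fin d → ℤ) : Option (Fin d) → ℤ := fun o => o.elim (-∑ i, z i) z

lemma hat_cast (z : Fin d → ℤ) (o : Option (Fin d)) : hat (cast z) o = (ihat z o : ℝ) := by
  cases o with
  | none => simp [ihat]
  | some i => simp [ihat]

lemma sum_ihat (z : Fin d → ℤ) : ∑ o, ihat z o = 0 := by
  rw [Fintype.sum_option]; simp [ihat]

lemma sum_ihat_sq (z : Fin d → ℤ) : ∑ o, ihat z o ^ 2 = N z := by
  rw [Fintype.sum_option]; simp [ihat, N]; ring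

lemma ihat_zero_imp {z : Fin d → ℤ} (h : ∀ a b, ihat z a - ihat z b ≤ 1) : z = 0 := by
  by_contra hz
  have hne : ∃ o ∈ (Finset.univ : Finset (Option (Fin d))), ihat z o ≠ 0 := by
    obtain ⟨i, hi⟩ := Function.ne_iff.1 hz
    exact ⟨some i, Finset.mem_univ _, hi⟩
  obtain ⟨a, -, ha⟩ := Finset.exists_pos_of_sum_zero_of_exists_nonzero (ihat z) (sum_ihat z) hne
  have hw0' : ∑ o, -ihat z o = 0 := by rw [Finset.sum_neg_distrib, sum_ihat, neg_zero]
  obtain ⟨b, -, hb⟩ := Finset.exists_pos_of_sum_zero_of_exists_nonzero (fun o => -ihat z o) hw0'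
    (by obtain ⟨o, h1, h2⟩ := hne; exact ⟨o, h1, neg_ne_zero.2 h2⟩)
  have := h a b
  omega

lemma N_lt_four {z : Fin d → ℤ} (h2 : ∀ a b, ihat z a - ihat z b ≤ 2)
    (h4 : ∀ a b c e, Dist4 a b c e → (ihat z a - ihat z b) + (ihat z c - ihat z e) ≤ 3) :
    N z < 4 := by
  classical
  set w := ihat z with hw
  have hs := sum_ihat z
  rw [← hw] at hs
  have hle : ∀ a, w a ≤ 1 := by
    intro a
    by_contra h
    push Not at h
    have h0 : ∀ b, 0 ≤ w b := fun b => by have := h2 a b; omega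
    have := Finset.single_le_sum (f := w) (fun b _ => h0 b) (Finset.mem_univ a)
    omega
  have hge : ∀ a, -1 ≤ w a := by
    intro a
    by_contra h
    push Not at h
    have h0 : ∀ b, 0 ≤ -w b := fun b => by have := h2 b a; omega
    have h1 := Finset.single_le_sum (f := fun b => -w b) (fun b _ => h0 b) (Finset.mem_univ a)
    rw [Finset.sum_neg_distrib] at h1
    omega
  set A : Finset (Option (Fin d)) := Finset.univ.filter fun o => w o = 1 with hA
  set C : Finset (Option (Fin d)) := Finset.univ.filter fun o => w o = -1 with hC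
  have hAc : ∑ o, (if w o = 1 then (1:ℤ) else 0) = A.card := by
    rw [hA, Finset.card_filter]; push_cast; rfl
  have hCc : ∑ o, (if w o = -1 then (1:ℤ) else 0) = C.card := by
    rw [hC, Finset.card_filter]; push_cast; rfl
  have h5 : (A.card : ℤ) - C.card = 0 := by
    rw [← hAc, ← hCc, ← Finset.sum_sub_distrib]
    refine Eq.trans (Finset.sum_congr rfl fun o _ => ?_) hs
    have h6 := hle o
    have h7 := hge o
    have h8 : w o = 1 ∨ w o = 0 ∨ w o = -1 := by omega
    rcases h8 with h | h | h <;> simp [h]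
  have h6 : (A.card : ℤ) + C.card = N z := by
    rw [← hAc, ← hCc, ← Finset.sum_add_distrib, ← sum_ihat_sq, ← hw]
    refine Finset.sum_congr rfl fun o _ => ?_
    have h6 := hle o
    have h7 := hge o
    have h8 : w o = 1 ∨ w o = 0 ∨ w o = -1 := by omega
    rcases h8 with h | h | h <;> simp [h]
  by_contra hcon
  push Not at hcon
  have hA2 : 1 < A.card := by omega
  have hC2 : 1 < C.card := by omega
  obtain ⟨a, ha, c, hc, hac⟩ := Finset.one_lt_card.1 hA2
  obtain ⟨b, hb, e, he, hbe⟩ := Finset.one_lt_card.1 hC2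
  rw [hA, Finset.mem_filter] at ha hc
  rw [hC, Finset.mem_filter] at hb he
  have hab : a ≠ b := by rintro rfl; have := ha.2; have := hb.2; omega
  have hae : a ≠ e := by rintro rfl; have := ha.2; have := he.2; omega
  have hcb : c ≠ b := by rintro rfl; have := hc.2; have := hb.2; omega
  have hce : c ≠ e := by rintro rfl; have := hc.2; have := he.2; omega
  have := h4 a b c e ⟨hab, hac, hae, hcb.symm, hbe, hce⟩
  have := ha.2
  have := hb.2
  have := hc.2
  have := he.2
  omega

lemma contact {ε s η : ℝ} (hs0 : 0 ≤ s) (hs1 : s ≤ 1 / 8) (hη : 0 ≤ η)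
    (hη1 : 32 * (d * (d + 1)) * η ≤ 1 / 2) (hη2 : 32 * (d * (d + 1)) * η + 4 * s < 4 * ε)
    {B : Matrix (Fin d) (Fin d) ℝ} (hB : Near η B) {z : Fin d → ℤ}
    (hx : B *ᵥ cast z ∈ Pe d ε (1 + s)) : N z < 4 := by
  set x := B *ᵥ cast z with hxdef
  have hd0 : (0:ℝ) ≤ d := by positivity
  have hdη : (d:ℝ) * η ≤ 1 / 2 := by
    have h1 : (d:ℝ) * η ≤ 32 * (d * (d + 1)) * η := by nlinarith [mul_nonneg hd0 hη]
    linarith
  have hxn : ‖x‖ ≤ 2 * (1 + s) := norm_le_of_mem_T (by linarith) (fun a b => hx.1 a b)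
  have h1 := near_mulVec hη hB (cast z)
  rw [← hxdef] at h1
  have h2 : ‖cast z‖ ≤ 2 * ‖x‖ := by
    have h3 : ‖cast z‖ ≤ ‖x‖ + ‖x - cast z‖ := by
      calc ‖cast z‖ = ‖x - (x - cast z)‖ := by congr 1; abel
        _ ≤ _ := norm_sub_le _ _
    have h4 : d * η * ‖cast z‖ ≤ 1 / 2 * ‖cast z‖ :=
      mul_le_mul_of_nonneg_right hdη (norm_nonneg _)
    linarith
  have h5 : ‖cast z - x‖ ≤ 8 * (d * η) := by
    rw [norm_sub_rev]
    have h6 : ‖cast z‖ ≤ 8 := by linarith
    calc ‖x - cast z‖ ≤ d * η * ‖cast z‖ := h1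
      _ ≤ d * η * 8 := mul_le_mul_of_nonneg_left h6 (by positivity)
      _ = _ := by ring
  have h7 : ∀ a b, hat (cast z) a - hat (cast z) b ≤
      hat x a - hat x b + 16 * (d * (d + 1)) * η := by
    intro a b
    have h8 := hat_sub_le_norm (cast z - x) a b
    rw [hat_sub, hat_sub] at h8
    have h9 : 2 * ((d:ℝ) + 1) * ‖cast z - x‖ ≤ 2 * (d + 1) * (8 * (d * η)) := by gcongr
    have h10 : 2 * ((d:ℝ) + 1) * (8 * (d * η)) = 16 * (d * (d + 1)) * η := by ring
    linarith
  have h11 : 16 * (d * (d + 1)) * η = (32 * (d * (d + 1)) * η) / 2 := by ring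
  apply N_lt_four
  · intro a b
    have h8 := h7 a b
    have h9 := hx.1 a b
    rw [hat_cast, hat_cast] at h8
    have h10 : ((ihat z a - ihat z b : ℤ) : ℝ) < 3 := by
      push_cast; linarith
    have : ihat z a - ihat z b < 3 := by exact_mod_cast h10
    omega
  · intro a b c e hd
    have h8 := h7 a b
    have h8' := h7 c e
    have h9 := hx.2 a b c e hd
    rw [hat_cast, hat_cast] at h8 h8'
    have hε0 : 0 ≤ ε := by
      have : 0 ≤ 32 * (d * (d + 1)) * η := by positivity
      linarith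
    have h12 : (4 - 4 * ε) * (1 + s) ≤ 4 - 4 * ε + 4 * s := by nlinarith [mul_nonneg hε0 hs0]
    have h10 : (((ihat z a - ihat z b) + (ihat z c - ihat z e) : ℤ) : ℝ) < 4 := by
      push_cast; linarith
    have : (ihat z a - ihat z b) + (ihat z c - ihat z e) < 4 := by exact_mod_cast h10
    omega

lemma norm_root_le (p : Option (Fin d) × Option (Fin d)) : ‖cast (root p)‖ ≤ 1 := by
  rw [pi_norm_le_iff_of_nonneg zero_le_one]
  intro i
  rw [Real.norm_eq_abs, cast_apply]
  unfold root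
  split_ifs <;> simp

lemma root_constraint {ε s η : ℝ} (hs1 : s ≤ 1 / 8) (hε : ε ≤ 1 / 4) (hη : 0 ≤ η)
    (hη1 : 32 * (d * (d + 1)) * η ≤ 1 / 2)
    {B : Matrix (Fin d) (Fin d) ℝ} (hB : Near η B) {a b : Option (Fin d)}
    (hx : B *ᵥ cast (root (a, b)) ∉ Ue d ε (1 - s)) :
    2 * (1 - s) ≤ hat (B *ᵥ cast (root (a, b))) a - hat (B *ᵥ cast (root (a, b))) b := by
  set α := cast (root (a, b)) with hα
  set x := B *ᵥ α with hxdef
  have hαn : ‖α‖ ≤ 1 := norm_root_le _
  have h1 := near_mulVec hη hB α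
  rw [← hxdef] at h1
  have h2 : ∀ c e, hat x c - hat x e ≤ hat α c - hat α e + 1 / 8 := by
    intro c e
    have h8 := hat_sub_le_norm (x - α) c e
    rw [hat_sub, hat_sub] at h8
    have h9 : 2 * ((d:ℝ) + 1) * ‖x - α‖ ≤ 2 * (d + 1) * (d * η * 1) := by
      gcongr
      exact h1.trans (mul_le_mul_of_nonneg_left hαn (by positivity))
    have h10 : 2 * ((d:ℝ) + 1) * (d * η * 1) = (32 * (d * (d + 1)) * η) / 16 := by ring
    linarith
  have hαo : ∀ o, hat α o = (if a = o then 1 else 0) - (if b = o then 1 else 0) := fun o =>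
    hat_root a b o
  by_contra hcon
  push Not at hcon
  apply hx
  constructor
  · intro c e
    by_cases hc : a = c
    · by_cases he : b = e
      · rw [← hc, ← he]; exact hcon
      · have h3 := h2 c e
        rw [hαo, hαo] at h3
        have h4 : (if a = c then (1:ℝ) else 0) - (if b = c then 1 else 0) -
            ((if a = e then 1 else 0) - (if b = e then 1 else 0)) ≤ 1 := by
          rw [if_pos hc, if_neg he]
          split_ifs <;> norm_num
        linarith
    · have h3 := h2 c e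
      rw [hαo, hαo] at h3
      have h4 : (if a = c then (1:ℝ) else 0) - (if b = c then 1 else 0) -
          ((if a = e then 1 else 0) - (if b = e then 1 else 0)) ≤ 1 := by
        rw [if_neg hc]
        split_ifs <;> norm_num
      linarith
  · intro c e f g hd
    have h3 := h2 c e
    have h4 := h2 f g
    rw [hαo, hαo] at h3 h4
    have h5 : (if a = c then (1:ℝ) else 0) + (if a = f then 1 else 0) ≤ 1 := by
      by_cases h : a = c
      · have : a ≠ f := fun h' => hd.2.1 (h.symm.trans h')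
        rw [if_pos h, if_neg this]; norm_num
      · rw [if_neg h]; split_ifs <;> norm_num
    have h6 : (if b = e then (1:ℝ) else 0) + (if b = g then 1 else 0) ≤ 1 := by
      by_cases h : b = e
      · have : b ≠ g := fun h' => hd.2.2.2.2.1 (h.symm.trans h')
        rw [if_pos h, if_neg this]; norm_num
      · rw [if_neg h]; split_ifs <;> norm_num
    have h7 : ∀ o, (0:ℝ) ≤ (if b = o then 1 else 0) := by intro o; split_ifs <;> norm_num
    have h8 : ∀ o, (0:ℝ) ≤ (if a = o then 1 else 0) := by intro o; split_ifs <;> norm_num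
    have h9 : (21:ℝ) / 8 ≤ (4 - 4 * ε) * (1 - s) := by nlinarith
    linarith [h7 c, h7 f, h8 e, h8 g]

/-- if `x` is not in `Ue ε (1 - s)` then `x` is long for the pair norm. -/
lemma long_of_not_mem {ε s : ℝ} (hs : s ≤ 1) (hε : 0 ≤ ε) {x : Fin d → ℝ}
    (hx : x ∉ Ue d ε (1 - s)) : ∃ a b, 2 * ((1 - ε) * (1 - s)) ≤ hat x a - hat x b := by
  by_contra hcon
  push Not at hcon
  apply hx
  constructor
  · intro a b
    have := hcon a b
    nlinarith [mul_nonneg hε (sub_nonneg.2 hs)]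
  · intro a b c e _
    have := hcon a b
    have := hcon c e
    linarith

end Pool.Agent.Helper876
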