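import Mathlib
import Pool.Agent.Helper876.Cut

set_option autoImplicit false

namespace Pool.Agent.Helper876

open Matrix Finset MeasureTheory Module Filter
open scoped Pointwise ENNReal Topology

variable {d : ℕ}

/-- root admissibility -/
def RootAdm (B : Matrix (Fin d) (Fin d) ℝ) : Prop :=
  ∀ a b, a ≠ b → 2 ≤ hat (B *ᵥ cast (root (a, b))) a - hat (B *ᵥ cast (root (a, b))) b

lemma continuous_mulVec_of (x : Fin d → ℝ) :
    Continuous fun M : Fin d → Fin d → ℝ => Matrix.of M *ᵥ x := by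
  unfold Matrix.mulVec dotProduct
  simp only [Matrix.of_apply]
  fun_prop

lemma isClosed_near (η : ℝ) : IsClosed {M : Fin d → Fin d → ℝ | Near η (Matrix.of M)} := by
  have : {M : Fin d → Fin d → ℝ | Near η (Matrix.of M)} =
      ⋂ i, ⋂ j, {M | |M i j - (1 : Matrix (Fin d) (Fin d) ℝ) i j| ≤ η} := by
    ext M; simp [Near]
  rw [this]
  refine isClosed_iInter fun i => isClosed_iInter fun j => ?_
  exact isClosed_le (by fun_prop) continuous_const

lemma isBounded_near (η : ℝ) :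
    Bornology.IsBounded {M : Fin d → Fin d → ℝ | Near η (Matrix.of M)} := by
  refine (Metric.isBounded_closedBall (x := (fun i j => (1 : Matrix (Fin d) (Fin d) ℝ) i j :
    Fin d → Fin d → ℝ)) (r := max η 0)).subset ?_
  intro M hM
  rw [Metric.mem_closedBall, dist_pi_le_iff (le_max_right _ _)]
  intro i
  rw [dist_pi_le_iff (le_max_right _ _)]
  intro j
  exact (hM i j).trans (le_max_left _ _)

lemma compact_step (d : ℕ) {η₁ η₂ : ℝ} (hη₂ : 0 < η₂)
    (hloc : ∀ B : Matrix (Fin d) (Fin d) ℝ, Near η₁ B → RootAdm B →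
      1 ≤ B.det ∧ (B.det ≤ 1 → B = 1)) :
    ∃ m : ℝ, 1 < m ∧ ∀ B : Matrix (Fin d) (Fin d) ℝ, Near η₁ B → RootAdm B → B.det ≤ m →
      Near η₂ B := by
  set S : Set (Fin d → Fin d → ℝ) := {M | Near η₁ (Matrix.of M)} ∩ ({M | RootAdm (Matrix.of M)} ∩
    {M | ∃ i j, η₂ ≤ |M i j - (1 : Matrix (Fin d) (Fin d) ℝ) i j|}) with hS
  have hSc : IsCompact S := by
    rw [Metric.isCompact_iff_isClosed_bounded]
    refine ⟨(isClosed_near η₁).inter (IsClosed.inter ?_ ?_),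
      (isBounded_near η₁).subset Set.inter_subset_left⟩
    · have : {M : Fin d → Fin d → ℝ | RootAdm (Matrix.of M)} = ⋂ a, ⋂ b, ⋂ (_ : a ≠ b),
          {M | 2 ≤ hat (Matrix.of M *ᵥ cast (root (a, b))) a -
            hat (Matrix.of M *ᵥ cast (root (a, b))) b} := by
        ext M; simp [RootAdm]
      rw [this]
      refine isClosed_iInter fun a => isClosed_iInter fun b => isClosed_iInter fun _ => ?_
      exact isClosed_le continuous_const
        (((hat_continuous a).comp (continuous_mulVec_of _)).sub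
          ((hat_continuous b).comp (continuous_mulVec_of _)))
    · have : {M : Fin d → Fin d → ℝ | ∃ i j, η₂ ≤ |M i j - (1 : Matrix (Fin d) (Fin d) ℝ) i j|} =
          ⋃ i, ⋃ j, {M | η₂ ≤ |M i j - (1 : Matrix (Fin d) (Fin d) ℝ) i j|} := by
        ext M; simp
      rw [this]
      refine isClosed_iUnion_of_finite fun i => isClosed_iUnion_of_finite fun j => ?_
      exact isClosed_le continuous_const (by fun_prop)
  rcases S.eq_empty_or_nonempty with hemp | hne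
  · refine ⟨2, by norm_num, fun B hB hR _ => ?_⟩
    intro i j
    by_contra hcon
    push Not at hcon
    have : (fun i j => B i j) ∈ S := ⟨hB, hR, i, j, hcon.le⟩
    rw [hemp] at this
    exact this
  · obtain ⟨M₀, hM₀, hmin⟩ := hSc.exists_isMinOn hne continuous_det_of.continuousOn
    have h1 := hloc _ hM₀.1 hM₀.2.1
    have h2 : 1 < (Matrix.of M₀).det := by
      rcases lt_or_eq_of_le h1.1 with h | h
      · exact h
      · exfalso
        have h3 := h1.2 h.ge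
        obtain ⟨i, j, hij⟩ := hM₀.2.2
        have h4 : M₀ i j = (1 : Matrix (Fin d) (Fin d) ℝ) i j := by rw [← h3]; rfl
        rw [h4, sub_self, abs_zero] at hij
        linarith
    refine ⟨(1 + (Matrix.of M₀).det) / 2, by linarith, fun B hB hR hdet => ?_⟩
    intro i j
    by_contra hcon
    push Not at hcon
    have h5 : (fun i j => B i j) ∈ S := ⟨hB, hR, i, j, hcon.le⟩
    have h6 : (Matrix.of M₀).det ≤ B.det := hmin h5
    linarith

/-- The properties of the norm that are used. -/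
structure IsG (d : ℕ) (ε s : ℝ) (g : (Fin d → ℝ) → ℝ) : Prop where
  smul : ∀ (c : ℝ) (x : Fin d → ℝ), 0 ≤ c → g (c • x) = c * g x
  cont : Continuous g
  lt_one : ∀ x ∈ Ue d ε (1 - s), g x < 1
  le_one : ∀ x, g x ≤ 1 → x ∈ Pe d ε (1 + s)

/-- admissible lattices -/
def Adm (g : (Fin d → ℝ) → ℝ) (B : Matrix (Fin d) (Fin d) ℝ) : Prop :=
  ∀ z : Fin d → ℤ, z ≠ 0 → 1 ≤ g (B *ᵥ cast z)

/-- the minimum of the norm on the lattice -/
noncomputable def minN (g : (Fin d → ℝ) → ℝ) (B : Matrix (Fin d) (Fin d) ℝ) : ℝ :=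
  ⨅ z : {z : Fin d → ℤ // z ≠ 0}, g (B *ᵥ cast z.1)

/-- densest lattices -/
def IsDens (g : (Fin d → ℝ) → ℝ) (B : Matrix (Fin d) (Fin d) ℝ) : Prop :=
  B.det ≠ 0 ∧ ∀ B' : Matrix (Fin d) (Fin d) ℝ, B'.det ≠ 0 →
    minN g B' ^ d / |B'.det| ≤ minN g B ^ d / |B.det|

section

variable {ε s : ℝ} {g : (Fin d → ℝ) → ℝ}

lemma IsG.norm_le (hg : IsG d ε s g) (hs : 0 ≤ s) (x : Fin d → ℝ) : ‖x‖ ≤ 2 * (1 + s) * g x := by
  have key : ∀ t : ℝ, 0 < t → g x ≤ t → ‖x‖ ≤ 2 * (1 + s) * t := by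
    intro t ht hgt
    have h1 : g (t⁻¹ • x) ≤ 1 := by
      rw [hg.smul _ _ (inv_nonneg.2 ht.le), inv_mul_le_iff₀ ht, mul_one]
      exact hgt
    have h2 : ‖t⁻¹ • x‖ ≤ 2 * (1 + s) :=
      norm_le_of_mem_T (by linarith) (fun a b => (hg.le_one _ h1).1 a b)
    rw [norm_smul, norm_inv, Real.norm_of_nonneg ht.le, inv_mul_le_iff₀ ht] at h2
    linarith
  rcases lt_or_ge 0 (g x) with h | h
  · exact key _ h le_rfl
  · have h0 : ‖x‖ ≤ 0 := by
      by_contra hcon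
      push Not at hcon
      have h2s : 0 < 2 * (1 + s) := by linarith
      have := key (‖x‖ / (2 * (2 * (1 + s)))) (by positivity) (h.trans (by positivity))
      have h3 : 2 * (1 + s) * (‖x‖ / (2 * (2 * (1 + s)))) = ‖x‖ / 2 := by
        field_simp
      rw [h3] at this
      linarith
    have hx : x = 0 := norm_le_zero_iff.1 h0
    have hg0 : g x = 0 := by
      have := hg.smul 0 x le_rfl
      rw [zero_smul, zero_mul] at this
      rw [hx]; exact this
    rw [hg0, hx]; simp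

lemma IsG.nonneg (hg : IsG d ε s g) (hs : 0 ≤ s) (x : Fin d → ℝ) : 0 ≤ g x := by
  have h1 := hg.norm_le hs x
  have h2 := norm_nonneg x
  by_contra hcon
  push Not at hcon
  nlinarith

lemma bddBelow (hg : IsG d ε s g) (hs : 0 ≤ s) (B : Matrix (Fin d) (Fin d) ℝ) :
    BddBelow (Set.range fun z : {z : Fin d → ℤ // z ≠ 0} => g (B *ᵥ cast z.1)) :=
  ⟨0, by rintro _ ⟨z, rfl⟩; exact hg.nonneg hs _⟩

lemma minN_le (hg : IsG d ε s g) (hs : 0 ≤ s) (B : Matrix (Fin d) (Fin d) ℝ) {z : Fin d → ℤ}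
    (hz : z ≠ 0) : minN g B ≤ g (B *ᵥ cast z) :=
  ciInf_le (bddBelow hg hs B) (⟨z, hz⟩ : {z : Fin d → ℤ // z ≠ 0})

lemma nonempty_ne (hd : 1 ≤ d) : Nonempty {z : Fin d → ℤ // z ≠ 0} :=
  ⟨⟨fun _ => 1, fun h => by
    have := congrFun h ⟨0, hd⟩
    simp at this⟩⟩

lemma one_le_norm_cast {z : Fin d → ℤ} (hz : z ≠ 0) : 1 ≤ ‖cast z‖ := by
  obtain ⟨i, hi⟩ := Function.ne_iff.1 hz
  refine le_trans ?_ (norm_le_pi_norm (cast z) i)
  rw [Real.norm_eq_abs, cast_apply]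
  have : 1 ≤ |z i| := Int.one_le_abs hi
  exact_mod_cast this

lemma minN_pos (hg : IsG d ε s g) (hs : 0 ≤ s) (hd : 1 ≤ d) {B : Matrix (Fin d) (Fin d) ℝ}
    (hB : B.det ≠ 0) : 0 < minN g B := by
  have hne := nonempty_ne hd
  have hBu : IsUnit B.det := isUnit_iff_ne_zero.2 hB
  set C : ℝ := ‖(Matrix.toLin' B⁻¹).toContinuousLinearMap‖ with hC
  have hC0 : 0 ≤ C := norm_nonneg _
  have h1 : ∀ z : Fin d → ℤ, z ≠ 0 → 1 ≤ (C + 1) * ‖B *ᵥ cast z‖ := by
    intro z hz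
    have h2 := (Matrix.toLin' B⁻¹).toContinuousLinearMap.le_opNorm (B *ᵥ cast z)
    have h3 : (Matrix.toLin' B⁻¹).toContinuousLinearMap (B *ᵥ cast z) = cast z := by
      show (Matrix.toLin' B⁻¹) (B *ᵥ cast z) = cast z
      rw [Matrix.toLin'_apply, Matrix.mulVec_mulVec, Matrix.nonsing_inv_mul _ hBu,
        Matrix.one_mulVec]
    rw [h3] at h2
    have h4 := one_le_norm_cast hz
    have h5 := norm_nonneg (B *ᵥ cast z)
    nlinarith
  have hpos : 0 < 1 / (2 * (1 + s) * (C + 1)) := by positivity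
  refine lt_of_lt_of_le hpos ?_
  refine le_ciInf fun z => ?_
  have h6 := h1 z.1 z.2
  have h7 := hg.norm_le hs (B *ᵥ cast z.1)
  rw [div_le_iff₀ (by positivity)]
  calc 1 ≤ (C + 1) * ‖B *ᵥ cast z.1‖ := h6
    _ ≤ (C + 1) * (2 * (1 + s) * g (B *ᵥ cast z.1)) := by gcongr
    _ = _ := by ring

lemma minN_smul (hg : IsG d ε s g) {c : ℝ} (hc : 0 ≤ c) (B : Matrix (Fin d) (Fin d) ℝ) :
    minN g (c • B) = c * minN g B := by
  unfold minN
  rw [Real.mul_iInf_of_nonneg hc]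
  congr 1
  funext z
  rw [Matrix.smul_mulVec, hg.smul _ _ hc]

lemma adm_normalise (hg : IsG d ε s g) (hs : 0 ≤ s) (hd : 1 ≤ d) {B : Matrix (Fin d) (Fin d) ℝ}
    (hB : B.det ≠ 0) : Adm g ((minN g B)⁻¹ • B) := by
  intro z hz
  have hpos := minN_pos hg hs hd hB
  rw [Matrix.smul_mulVec, hg.smul _ _ (inv_nonneg.2 hpos.le), le_inv_mul_iff₀ hpos, mul_one]
  exact minN_le hg hs B hz

lemma one_le_minN (hd : 1 ≤ d) {B : Matrix (Fin d) (Fin d) ℝ} (hB : Adm g B) : 1 ≤ minN g B := by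
  have hne := nonempty_ne hd
  exact le_ciInf fun z => hB z.1 z.2

lemma det_normalise (hg : IsG d ε s g) (hs : 0 ≤ s) (hd : 1 ≤ d) {B : Matrix (Fin d) (Fin d) ℝ}
    (hB : B.det ≠ 0) : minN g B ^ d / |B.det| = 1 / |((minN g B)⁻¹ • B).det| := by
  have hpos := minN_pos hg hs hd hB
  rw [Matrix.det_smul, Fintype.card_fin, abs_mul, abs_of_pos (pow_pos (inv_pos.2 hpos) d)]
  have : |B.det| ≠ 0 := abs_ne_zero.2 hB
  have h2 : minN g B ^ d ≠ 0 := (pow_pos hpos d).ne'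
  rw [inv_pow]
  field_simp

/-- a densest lattice, normalised, has determinant at most that of any admissible lattice -/
lemma dens_det_le (hg : IsG d ε s g) (hs : 0 ≤ s) (hd : 1 ≤ d) {B B' : Matrix (Fin d) (Fin d) ℝ}
    (hB : IsDens g B) (hB' : B'.det ≠ 0) (hadm : Adm g B') :
    |((minN g B)⁻¹ • B).det| ≤ |B'.det| := by
  have h1 := hB.2 B' hB'
  rw [det_normalise hg hs hd hB.1] at h1
  have hpos := minN_pos hg hs hd hB.1
  have h2 : 1 / |B'.det| ≤ minN g B' ^ d / |B'.det| := by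
    gcongr
    exact one_le_pow₀ (one_le_minN hd hadm)
  have h3 : ((minN g B)⁻¹ • B).det ≠ 0 := by
    rw [Matrix.det_smul]
    exact mul_ne_zero (pow_ne_zero _ (inv_ne_zero hpos.ne')) hB.1
  have h4 : 0 < |((minN g B)⁻¹ • B).det| := abs_pos.2 h3
  have h5 : 0 < |B'.det| := abs_pos.2 hB'
  exact (one_div_le_one_div h5 h4).1 (h2.trans h1)

lemma isDens_of_min (hg : IsG d ε s g) (hs : 0 ≤ s) (hd : 1 ≤ d) {B : Matrix (Fin d) (Fin d) ℝ}
    (hB : B.det ≠ 0) (hadm : Adm g B)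
    (hmin : ∀ B' : Matrix (Fin d) (Fin d) ℝ, B'.det ≠ 0 → Adm g B' → |B.det| ≤ |B'.det|) :
    IsDens g B := by
  refine ⟨hB, fun B' hB' => ?_⟩
  have hpos := minN_pos hg hs hd hB'
  have h3 : ((minN g B')⁻¹ • B').det ≠ 0 := by
    rw [Matrix.det_smul]
    exact mul_ne_zero (pow_ne_zero _ (inv_ne_zero hpos.ne')) hB'
  rw [det_normalise hg hs hd hB']
  have h1 := hmin _ h3 (adm_normalise hg hs hd hB')
  have h5 : 0 < |B.det| := abs_pos.2 hB
  calc 1 / |((minN g B')⁻¹ • B').det| ≤ 1 / |B.det| := one_div_le_one_div_of_le h5 h1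
    _ ≤ minN g B ^ d / |B.det| := by
        gcongr
        exact one_le_pow₀ (one_le_minN hd hadm)

/-- integer matrices act -/
lemma mulVec_map (B : Matrix (Fin d) (Fin d) ℝ) (Z : Matrix (Fin d) (Fin d) ℤ) (z : Fin d → ℤ) :
    (B * Z.map (fun k : ℤ => (k : ℝ))) *ᵥ cast z = B *ᵥ cast (Z *ᵥ z) := by
  rw [← Matrix.mulVec_mulVec]
  congr 1
  funext i
  simp [Matrix.mulVec, dotProduct]

lemma det_map (Z : Matrix (Fin d) (Fin d) ℤ) :
    (Z.map (fun k : ℤ => (k : ℝ))).det = (Z.det : ℝ) := by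
  have := (Int.castRingHom ℝ).map_det Z
  rw [eq_comm]
  exact this

lemma mulVec_ne_zero {Z : Matrix (Fin d) (Fin d) ℤ} (hZ : IsUnit Z.det) {z : Fin d → ℤ}
    (hz : z ≠ 0) : Z *ᵥ z ≠ 0 := by
  intro h
  apply hz
  have : Z⁻¹ *ᵥ (Z *ᵥ z) = z := by
    rw [Matrix.mulVec_mulVec, Matrix.nonsing_inv_mul _ hZ, Matrix.one_mulVec]
  rw [← this, h, Matrix.mulVec_zero]

lemma adm_mul {B : Matrix (Fin d) (Fin d) ℝ} (hB : Adm g B) {Z : Matrix (Fin d) (Fin d) ℤ}
    (hZ : IsUnit Z.det) : Adm g (B * Z.map (fun k : ℤ => (k : ℝ))) := by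
  intro z hz
  rw [mulVec_map]
  exact hB _ (mulVec_ne_zero hZ hz)

lemma abs_det_mul {B : Matrix (Fin d) (Fin d) ℝ} {Z : Matrix (Fin d) (Fin d) ℤ}
    (hZ : IsUnit Z.det) : |(B * Z.map (fun k : ℤ => (k : ℝ))).det| = |B.det| := by
  rw [Matrix.det_mul, det_map, abs_mul]
  rcases Int.isUnit_iff.1 hZ with h | h <;> rw [h] <;> simp

/-- the standard lattice, slightly enlarged, is admissible -/
lemma adm_one (hg : IsG d ε s g) (hs : 0 ≤ s) : Adm g ((1 + s) • (1 : Matrix (Fin d) (Fin d) ℝ)) := by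
  intro z hz
  rw [Matrix.smul_mulVec, Matrix.one_mulVec]
  by_contra hcon
  push Not at hcon
  apply hz
  apply ihat_zero_imp
  intro a b
  -- scale up a bit
  set γ := g ((1 + s) • cast z) with hγ
  have hγ0 : 0 ≤ γ := hg.nonneg hs _
  set c : ℝ := (1 + γ) / 2 with hc
  have hc0 : 0 < c := by rw [hc]; linarith
  have hc1 : c < 1 := by rw [hc]; linarith
  have hγc : γ ≤ c := by rw [hc]; linarith
  have h1 : g (c⁻¹ • ((1 + s) • cast z)) ≤ 1 := by
    rw [hg.smul _ _ (inv_nonneg.2 hc0.le), inv_mul_le_iff₀ hc0, mul_one]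
    exact hγc
  have h2 := (hg.le_one _ h1).1 a b
  rw [smul_smul, hat_smul, hat_smul, ← mul_sub, hat_cast, hat_cast] at h2
  have h3 : ((ihat z a - ihat z b : ℤ) : ℝ) < 2 := by
    push_cast
    have h4 : c⁻¹ * (1 + s) * ((ihat z a : ℝ) - ihat z b) =
      (1 + s) * (c⁻¹ * ((ihat z a : ℝ) - ihat z b)) := by ring
    rw [h4] at h2
    have h5 : c⁻¹ * ((ihat z a : ℝ) - ihat z b) ≤ 2 := by
      have : (0:ℝ) < 1 + s := by linarith
      by_contra h
      push Not at h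
      nlinarith
    rw [inv_mul_le_iff₀ hc0] at h5
    linarith
  have h6 : ihat z a - ihat z b < 2 := by exact_mod_cast h3
  omega

end

end Pool.Agent.Helper876
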