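import Mathlib
import Pool.Agent.Helper876.Glob

set_option autoImplicit false

namespace Pool.Agent.Helper876

open Matrix Finset MeasureTheory Module Filter
open scoped Pointwise ENNReal Topology

variable {d : ℕ}

/-- the set of contact vectors -/
def Contacts (g : (Fin d → ℝ) → ℝ) (B : Matrix (Fin d) (Fin d) ℝ) : Set (Fin d → ℝ) :=
  {l | (∃ z : Fin d → ℤ, l = B *ᵥ cast z) ∧ g l = minN g B}

lemma root_ne_zero {a b : Option (Fin d)} (hab : a ≠ b) : root (a, b) ≠ 0 := by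
  intro h
  have h1 : ∀ i : Fin d, (if a = some i then (1:ℤ) else 0) - (if b = some i then 1 else 0) = 0 :=
    fun i => congrFun h i
  rcases a with _ | i
  · rcases b with _ | j
    · exact hab rfl
    · have := h1 j
      simp at this
  · have := h1 i
    have hb : b ≠ some i := Ne.symm hab
    simp [hb] at this

theorem abstract_main (d : ℕ) (hd : 1 ≤ d) : ∃ ε s : ℝ, 0 < ε ∧ ε ≤ 1 / 4 ∧ 0 < s ∧ s ≤ 1 / 8 ∧
    ∀ g : (Fin d → ℝ) → ℝ, IsG d ε s g → (∃ B, IsDens g B) ∧
      ∀ B, IsDens g B → (Contacts g B).encard ≤ (d * (d + 1) : ℕ) := by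
  obtain ⟨ηl, hηl, hloc0⟩ := local_lemma d
  have hloc : ∀ B : Matrix (Fin d) (Fin d) ℝ, Near ηl B → RootAdm B →
      1 ≤ B.det ∧ (B.det ≤ 1 → B = 1) := fun B hB hR => hloc0 B hB hR
  obtain ⟨ηd, hηd, hdetn⟩ := det_near d (κ := 1 / 2) (by norm_num)
  set D : ℝ := 64 * ((d:ℝ) + 1) ^ 2 with hD
  have hDpos : 0 < D := by positivity
  have hDd : 32 * ((d:ℝ) * (d + 1)) ≤ D / 2 := by
    rw [hD]; nlinarith [(Nat.cast_nonneg d : (0:ℝ) ≤ d)]
  set ηA : ℝ := min (ηl / 2) (min (1 / D) ηd) with hηA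
  have hηApos : 0 < ηA := lt_min (by positivity) (lt_min (by positivity) hηd)
  have hηA1 : ηA ≤ ηl / 2 := min_le_left _ _
  have hηA2 : ηA ≤ 1 / D := (min_le_right _ _).trans (min_le_left _ _)
  have hηA3 : ηA ≤ ηd := (min_le_right _ _).trans (min_le_right _ _)
  have hηA4 : 32 * ((d:ℝ) * (d + 1)) * ηA ≤ 1 / 2 := by
    calc 32 * ((d:ℝ) * (d + 1)) * ηA ≤ D / 2 * (1 / D) := by gcongr
      _ = 1 / 2 := by field_simp
  obtain ⟨s₀, hs₀, hnear⟩ := near_I d hηApos
  set ε : ℝ := min (1 / 4) (s₀ / 4) with hε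
  have hεpos : 0 < ε := lt_min (by norm_num) (by positivity)
  have hε1 : ε ≤ 1 / 4 := min_le_left _ _
  have hε2 : ε ≤ s₀ / 4 := min_le_right _ _
  set ηc : ℝ := ε / D with hηc
  have hηcpos : 0 < ηc := by positivity
  have hηc1 : 32 * ((d:ℝ) * (d + 1)) * ηc ≤ ε / 2 := by
    calc 32 * ((d:ℝ) * (d + 1)) * ηc ≤ D / 2 * (ε / D) := by gcongr
      _ = ε / 2 := by field_simp
  obtain ⟨m, hm1, hm⟩ := compact_step d (η₁ := ηl) (η₂ := ηc / 2) (by positivity) hloc
  -- choose `s`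
  have hev : ∀ᶠ s : ℝ in 𝓝 0, ((1 + s) / (1 - s)) ^ d < m := by
    apply ContinuousAt.eventually_lt _ continuousAt_const
    · simpa using hm1
    · have : ContinuousAt (fun s : ℝ => (1 + s) / (1 - s)) 0 :=
        ContinuousAt.div (by fun_prop) (by fun_prop) (by norm_num)
      exact this.pow d
  rw [Metric.eventually_nhds_iff] at hev
  obtain ⟨εm, hεm, hev⟩ := hev
  obtain ⟨s, hspos, hs1, hs2, hs3, hs4, hs5, hs6, hs7⟩ : ∃ s : ℝ, 0 < s ∧ s ≤ 1 / 8 ∧ s ≤ s₀ / 4 ∧
      s ≤ ε / 4 ∧ s ≤ ηc / 2 ∧ s ≤ ηl / 8 ∧ s ≤ ηA ∧ s < εm := by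
    set t := min (1 / 8) (min (s₀ / 4) (min (ε / 4) (min (ηc / 2) (min (ηl / 8) (min ηA (εm / 2))))))
      with ht
    have htpos : 0 < t := by
      refine lt_min (by norm_num) (lt_min (by positivity) (lt_min (by positivity)
        (lt_min (by positivity) (lt_min (by positivity) (lt_min hηApos (by positivity))))))
    have h1 : t ≤ 1 / 8 := min_le_left _ _
    have h1' := min_le_right (1 / 8) (min (s₀ / 4) (min (ε / 4) (min (ηc / 2) (min (ηl / 8)
      (min ηA (εm / 2))))))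
    have h2' := min_le_right (s₀ / 4) (min (ε / 4) (min (ηc / 2) (min (ηl / 8)
      (min ηA (εm / 2)))))
    have h3' := min_le_right (ε / 4) (min (ηc / 2) (min (ηl / 8) (min ηA (εm / 2))))
    have h4' := min_le_right (ηc / 2) (min (ηl / 8) (min ηA (εm / 2)))
    have h5' := min_le_right (ηl / 8) (min ηA (εm / 2))
    have h2 := min_le_left (s₀ / 4) (min (ε / 4) (min (ηc / 2) (min (ηl / 8)
      (min ηA (εm / 2)))))
    have h3 := min_le_left (ε / 4) (min (ηc / 2) (min (ηl / 8) (min ηA (εm / 2))))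
    have h4 := min_le_left (ηc / 2) (min (ηl / 8) (min ηA (εm / 2)))
    have h5 := min_le_left (ηl / 8) (min ηA (εm / 2))
    have h6 := min_le_left ηA (εm / 2)
    have h7 := min_le_right ηA (εm / 2)
    refine ⟨t, htpos, h1, ?_, ?_, ?_, ?_, ?_, ?_⟩
    · linarith
    · linarith
    · linarith
    · linarith
    · linarith
    · linarith
  have hsm : ((1 + s) / (1 - s)) ^ d ≤ m :=
    (hev (y := s) (by rw [dist_zero_right, Real.norm_of_nonneg hspos.le]; exact hs7)).le
  refine ⟨ε, s, hεpos, hε1, hspos, hs1, ?_⟩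
  intro g hg
  have h1s : 0 < 1 - s := by linarith
  -- the reduction
  have hR : ∀ B : Matrix (Fin d) (Fin d) ℝ, B.det ≠ 0 → Adm g B → |B.det| ≤ (1 + s) ^ d →
      ∃ Z : Matrix (Fin d) (Fin d) ℤ, IsUnit Z.det ∧ Near ηA (B * Z.map (fun k : ℤ => (k : ℝ))) ∧
        Near ηc (B * Z.map (fun k : ℤ => (k : ℝ))) := by
    intro B hB hadm hdet
    have hnotU : ∀ B' : Matrix (Fin d) (Fin d) ℝ, Adm g B' → ∀ z : Fin d → ℤ, z ≠ 0 →
        B' *ᵥ cast z ∉ Ue d ε (1 - s) := by
      intro B' hB' z hz hmem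
      have h1 := hg.lt_one _ hmem
      have h2 := hB' z hz
      linarith
    obtain ⟨Z, hZ, hZn⟩ := hnear s₀ hs₀ le_rfl B hB (by
      intro z hz
      obtain ⟨a, b, hab⟩ := long_of_not_mem (by linarith) hεpos.le (hnotU B hadm z hz)
      refine ⟨a, b, le_trans ?_ hab⟩
      nlinarith [mul_pos hεpos hspos]) (hdet.trans (by gcongr; linarith))
    refine ⟨Z, hZ, hZn, ?_⟩
    set B' := B * Z.map (fun k : ℤ => (k : ℝ)) with hB'
    have hadm' : Adm g B' := adm_mul hadm hZ
    have hroot : ∀ a b, a ≠ b →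
        2 * (1 - s) ≤ hat (B' *ᵥ cast (root (a, b))) a - hat (B' *ᵥ cast (root (a, b))) b := by
      intro a b hab
      exact root_constraint hs1 hε1 hηApos.le hηA4 hZn (hnotU B' hadm' _ (root_ne_zero hab))
    -- rescale
    have hRA : RootAdm ((1 - s)⁻¹ • B') := by
      intro a b hab
      rw [Matrix.smul_mulVec, hat_smul, hat_smul, ← mul_sub, le_inv_mul_iff₀ h1s]
      have := hroot a b hab
      linarith
    have hinv : (1 - s)⁻¹ ≤ 8 / 7 := by
      rw [inv_le_comm₀ h1s (by norm_num)]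
      linarith
    have hinv0 : 0 < (1 - s)⁻¹ := inv_pos.2 h1s
    have hone : ∀ i j : Fin d, |(1 : Matrix (Fin d) (Fin d) ℝ) i j| ≤ 1 := by
      intro i j
      rw [Matrix.one_apply]; split_ifs <;> simp
    have hnl : Near ηl ((1 - s)⁻¹ • B') := by
      intro i j
      have h1 : ((1 - s)⁻¹ • B') i j - (1 : Matrix (Fin d) (Fin d) ℝ) i j =
          (1 - s)⁻¹ * ((B' i j - (1 : Matrix (Fin d) (Fin d) ℝ) i j) +
            s * (1 : Matrix (Fin d) (Fin d) ℝ) i j) := by
        rw [Matrix.smul_apply, smul_eq_mul]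
        field_simp
        ring
      rw [h1, abs_mul, abs_of_pos hinv0]
      have h2 : |(B' i j - (1 : Matrix (Fin d) (Fin d) ℝ) i j) +
            s * (1 : Matrix (Fin d) (Fin d) ℝ) i j| ≤ ηl / 2 + ηl / 8 := by
        calc _ ≤ |B' i j - (1 : Matrix (Fin d) (Fin d) ℝ) i j| +
              |s * (1 : Matrix (Fin d) (Fin d) ℝ) i j| := abs_add_le _ _
          _ ≤ _ := by
              rw [abs_mul, abs_of_pos hspos]
              have h3 := hZn i j
              have h4 := hone i j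
              have h5 : s * |(1 : Matrix (Fin d) (Fin d) ℝ) i j| ≤ s * 1 := by gcongr
              linarith
      calc (1 - s)⁻¹ * _ ≤ 8 / 7 * (ηl / 2 + ηl / 8) := by gcongr
        _ ≤ ηl := by linarith
    have hdet' : ((1 - s)⁻¹ • B').det ≤ m := by
      rw [Matrix.det_smul, Fintype.card_fin]
      have h1 : |B'.det| = |B.det| := abs_det_mul hZ
      have h2 : B'.det ≤ (1 + s) ^ d := by
        calc B'.det ≤ |B'.det| := le_abs_self _
          _ = |B.det| := h1
          _ ≤ _ := hdet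
      calc (1 - s)⁻¹ ^ d * B'.det ≤ (1 - s)⁻¹ ^ d * (1 + s) ^ d := by gcongr
        _ = ((1 + s) / (1 - s)) ^ d := by
            rw [← mul_pow]; congr 1; field_simp
        _ ≤ m := hsm
    have hfin := hm _ hnl hRA hdet'
    intro i j
    have h1 : B' i j - (1 : Matrix (Fin d) (Fin d) ℝ) i j =
        (1 - s) * (((1 - s)⁻¹ • B') i j - (1 : Matrix (Fin d) (Fin d) ℝ) i j) -
          s * (1 : Matrix (Fin d) (Fin d) ℝ) i j := by
      rw [Matrix.smul_apply, smul_eq_mul]
      field_simp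
      ring
    rw [h1]
    calc |(1 - s) * (((1 - s)⁻¹ • B') i j - (1 : Matrix (Fin d) (Fin d) ℝ) i j) -
          s * (1 : Matrix (Fin d) (Fin d) ℝ) i j|
        ≤ |(1 - s) * (((1 - s)⁻¹ • B') i j - (1 : Matrix (Fin d) (Fin d) ℝ) i j)| +
          |s * (1 : Matrix (Fin d) (Fin d) ℝ) i j| := abs_sub _ _
      _ ≤ 1 * (ηc / 2) + s * 1 := by
          rw [abs_mul, abs_mul, abs_of_pos h1s, abs_of_pos hspos]
          have h3 := hfin i j
          have h4 := hone i j
          gcongr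
          linarith
      _ ≤ ηc := by linarith
  have hIadm : Adm g ((1 + s) • (1 : Matrix (Fin d) (Fin d) ℝ)) := adm_one hg hspos.le
  have hIdet : ((1 + s) • (1 : Matrix (Fin d) (Fin d) ℝ)).det = (1 + s) ^ d := by
    rw [Matrix.det_smul, Matrix.det_one, Fintype.card_fin, mul_one]
  have hIdet0 : ((1 + s) • (1 : Matrix (Fin d) (Fin d) ℝ)).det ≠ 0 := by
    rw [hIdet]; positivity
  constructor
  · -- existence of a densest lattice
    set S : Set (Fin d → Fin d → ℝ) := {M | Near ηA (Matrix.of M)} ∩ {M | Adm g (Matrix.of M)}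
      with hS
    have hSc : IsCompact S := by
      rw [Metric.isCompact_iff_isClosed_bounded]
      refine ⟨(isClosed_near ηA).inter ?_, (isBounded_near ηA).subset Set.inter_subset_left⟩
      have : {M : Fin d → Fin d → ℝ | Adm g (Matrix.of M)} = ⋂ (z : Fin d → ℤ), ⋂ (_ : z ≠ 0),
          {M | 1 ≤ g (Matrix.of M *ᵥ cast z)} := by
        ext M; simp [Adm]
      rw [this]
      refine isClosed_iInter fun z => isClosed_iInter fun _ => ?_
      exact isClosed_le continuous_const (hg.cont.comp (continuous_mulVec_of _))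
    have hIS : (fun i j => ((1 + s) • (1 : Matrix (Fin d) (Fin d) ℝ)) i j) ∈ S := by
      refine ⟨?_, hIadm⟩
      intro i j
      have h1 : (Matrix.of fun i j => ((1 + s) • (1 : Matrix (Fin d) (Fin d) ℝ)) i j) i j -
          (1 : Matrix (Fin d) (Fin d) ℝ) i j = s * (1 : Matrix (Fin d) (Fin d) ℝ) i j := by
        rw [Matrix.of_apply, Matrix.smul_apply, smul_eq_mul]; ring
      rw [h1, abs_mul, abs_of_pos hspos]
      have h2 : |(1 : Matrix (Fin d) (Fin d) ℝ) i j| ≤ 1 := by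
        rw [Matrix.one_apply]; split_ifs <;> simp
      calc s * |(1 : Matrix (Fin d) (Fin d) ℝ) i j| ≤ s * 1 := by gcongr
        _ ≤ ηA := by linarith
    obtain ⟨M₀, hM₀, hmin⟩ := hSc.exists_isMinOn ⟨_, hIS⟩ continuous_det_of.continuousOn
    have hpos : ∀ B : Matrix (Fin d) (Fin d) ℝ, Near ηA B → 0 < B.det := by
      intro B hB
      have := abs_le.1 (hdetn B (fun i j => (hB i j).trans hηA3))
      linarith [this.1]
    have hM₀pos := hpos _ hM₀.1
    refine ⟨Matrix.of M₀, isDens_of_min hg hspos.le hd hM₀pos.ne' hM₀.2 ?_⟩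
    intro B' hB' hadm'
    rw [abs_of_pos hM₀pos]
    rcases le_or_gt |B'.det| ((1 + s) ^ d) with h | h
    · obtain ⟨Z, hZ, hZn, -⟩ := hR B' hB' hadm' h
      have h1 := abs_det_mul (B := B') hZ
      have h2 : (fun i j => (B' * Z.map (fun k : ℤ => (k : ℝ))) i j) ∈ S :=
        ⟨hZn, adm_mul hadm' hZ⟩
      have h3 : (Matrix.of M₀).det ≤ (B' * Z.map (fun k : ℤ => (k : ℝ))).det := hmin h2
      rw [← h1]
      exact h3.trans (le_abs_self _)
    · have h3 : (Matrix.of M₀).det ≤ ((1 + s) • (1 : Matrix (Fin d) (Fin d) ℝ)).det := hmin hIS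
      rw [hIdet] at h3
      linarith
  · -- contacts
    intro B hB
    have hlam := minN_pos hg hspos.le hd hB.1
    set lam := minN g B with hlamdef
    have hdet1 : |(lam⁻¹ • B).det| ≤ (1 + s) ^ d := by
      have := dens_det_le hg hspos.le hd hB hIdet0 hIadm
      rwa [hIdet, abs_of_pos (by positivity : (0:ℝ) < (1 + s) ^ d)] at this
    have hdet0 : (lam⁻¹ • B).det ≠ 0 := by
      rw [Matrix.det_smul]
      exact mul_ne_zero (pow_ne_zero _ (inv_ne_zero hlam.ne')) hB.1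
    obtain ⟨Z, hZ, -, hZc⟩ := hR _ hdet0 (adm_normalise hg hspos.le hd hB.1) hdet1
    set B' := (lam⁻¹ • B) * Z.map (fun k : ℤ => (k : ℝ)) with hB'
    have hsub : Contacts g B ⊆ (fun w : Fin d → ℤ => lam • (B' *ᵥ cast w)) ''
        {w : Fin d → ℤ | w ≠ 0 ∧ N w < 4} := by
      rintro l ⟨⟨z, rfl⟩, hl⟩
      refine ⟨Z⁻¹ *ᵥ z, ⟨?_, ?_⟩, ?_⟩
      · intro h0
        have hz0 : z = 0 := by
          have : Z *ᵥ (Z⁻¹ *ᵥ z) = z := by
            rw [Matrix.mulVec_mulVec, Matrix.mul_nonsing_inv _ hZ, Matrix.one_mulVec]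
          rw [← this, h0, Matrix.mulVec_zero]
        have hc0 : cast (0 : Fin d → ℤ) = 0 := by funext i; simp
        rw [hz0, hc0, Matrix.mulVec_zero] at hl
        have hg0 : g 0 = 0 := by
          have := hg.smul 0 0 le_rfl
          rwa [zero_smul, zero_mul] at this
        rw [hg0] at hl
        linarith
      · have hval : B' *ᵥ cast (Z⁻¹ *ᵥ z) = lam⁻¹ • (B *ᵥ cast z) := by
          rw [hB', mulVec_map, Matrix.mulVec_mulVec, Matrix.mul_nonsing_inv _ hZ,
            Matrix.one_mulVec, Matrix.smul_mulVec]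
        apply contact (ε := ε) (s := s) (η := ηc) (B := B') hspos.le hs1 hηcpos.le
          (by linarith) (by linarith) hZc
        rw [hval]
        apply hg.le_one
        rw [hg.smul _ _ (inv_nonneg.2 hlam.le), hl, inv_mul_cancel₀ hlam.ne']
      · show lam • (B' *ᵥ cast (Z⁻¹ *ᵥ z)) = B *ᵥ cast z
        rw [hB', mulVec_map, Matrix.mulVec_mulVec, Matrix.mul_nonsing_inv _ hZ,
            Matrix.one_mulVec, Matrix.smul_mulVec, smul_smul, mul_inv_cancel₀ hlam.ne', one_smul]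
    have hfin := short_finite_card d
    calc (Contacts g B).encard ≤ ((fun w : Fin d → ℤ => lam • (B' *ᵥ cast w)) ''
        {w : Fin d → ℤ | w ≠ 0 ∧ N w < 4}).encard := Set.encard_le_encard hsub
      _ ≤ {w : Fin d → ℤ | w ≠ 0 ∧ N w < 4}.encard := Set.encard_image_le _ _
      _ = ({w : Fin d → ℤ | w ≠ 0 ∧ N w < 4}.ncard : ℕ∞) := (Set.Finite.cast_ncard_eq hfin.1).symm
      _ ≤ (d * (d + 1) : ℕ) := by exact_mod_cast hfin.2

end Pool.Agent.Helper876
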