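import Mathlib
import Pool.Agent.Helper876.GlobMain

set_option autoImplicit false

namespace Pool.Agent.Helper876

open Matrix Finset MeasureTheory Module Filter
open scoped Pointwise ENNReal Topology

variable {d : ℕ}

lemma Pe_closed (ε r : ℝ) : IsClosed (Pe d ε r) := by
  have : Pe d ε r = (⋂ a, ⋂ b, {x | hat x a - hat x b ≤ 2 * r}) ∩
      (⋂ a, ⋂ b, ⋂ c, ⋂ e, ⋂ (_ : Dist4 a b c e),
        {x | (hat x a - hat x b) + (hat x c - hat x e) ≤ (4 - 4 * ε) * r}) := by
    ext x; simp [Pe]
  rw [this]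
  refine IsClosed.inter ?_ ?_
  · refine isClosed_iInter fun a => isClosed_iInter fun b => ?_
    exact isClosed_le ((hat_continuous a).sub (hat_continuous b)) continuous_const
  · refine isClosed_iInter fun a => isClosed_iInter fun b => isClosed_iInter fun c =>
      isClosed_iInter fun e => isClosed_iInter fun _ => ?_
    exact isClosed_le (((hat_continuous a).sub (hat_continuous b)).add
      ((hat_continuous c).sub (hat_continuous e))) continuous_const

lemma Ue_open (ε r : ℝ) : IsOpen (Ue d ε r) := by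
  have : Ue d ε r = (⋂ a, ⋂ b, {x | hat x a - hat x b < 2 * r}) ∩
      (⋂ a, ⋂ b, ⋂ c, ⋂ e, ⋂ (_ : Dist4 a b c e),
        {x | (hat x a - hat x b) + (hat x c - hat x e) < (4 - 4 * ε) * r}) := by
    ext x; simp [Ue]
  rw [this]
  refine IsOpen.inter ?_ ?_
  · refine isOpen_iInter_of_finite fun a => isOpen_iInter_of_finite fun b => ?_
    exact isOpen_lt ((hat_continuous a).sub (hat_continuous b)) continuous_const
  · refine isOpen_iInter_of_finite fun a => isOpen_iInter_of_finite fun b =>
      isOpen_iInter_of_finite fun c => isOpen_iInter_of_finite fun e =>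
        isOpen_iInter_of_finite fun _ => ?_
    exact isOpen_lt (((hat_continuous a).sub (hat_continuous b)).add
      ((hat_continuous c).sub (hat_continuous e))) continuous_const

lemma Ue_sub_Pe (ε r : ℝ) : Ue d ε r ⊆ Pe d ε r := fun _ hx =>
  ⟨fun a b => (hx.1 a b).le, fun a b c e h => (hx.2 a b c e h).le⟩

lemma smul_mem_Pe {ε r c : ℝ} (hc : 0 ≤ c) {x : Fin d → ℝ} (hx : x ∈ Pe d ε r) :
    c • x ∈ Pe d ε (c * r) := by
  constructor
  · intro a b
    rw [hat_smul, hat_smul, ← mul_sub]
    have := mul_le_mul_of_nonneg_left (hx.1 a b) hc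
    linarith
  · intro a b e f h
    rw [hat_smul, hat_smul, hat_smul, hat_smul, ← mul_sub, ← mul_sub, ← mul_add]
    have := mul_le_mul_of_nonneg_left (hx.2 a b e f h) hc
    linarith

lemma Pe_symm {ε r : ℝ} {x : Fin d → ℝ} (hx : x ∈ Pe d ε r) : -x ∈ Pe d ε r := by
  constructor
  · intro a b
    rw [hat_neg, hat_neg]
    have := hx.1 b a
    linarith
  · intro a b c e h
    rw [hat_neg, hat_neg, hat_neg, hat_neg]
    have := hx.2 b a e c ⟨h.1.symm, h.2.2.2.2.1, h.2.2.2.1, h.2.2.1, h.2.1, h.2.2.2.2.2.symm⟩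
    linarith

lemma Pe_convex (ε r : ℝ) : Convex ℝ (Pe d ε r) := by
  intro x hx y hy a b ha hb hab
  have hb' : b = 1 - a := by linarith
  constructor
  · intro c e
    rw [hat_add, hat_add, hat_smul, hat_smul, hat_smul, hat_smul]
    have h1 := mul_le_mul_of_nonneg_left (hx.1 c e) ha
    have h2 := mul_le_mul_of_nonneg_left (hy.1 c e) hb
    have h3 : a * (2 * r) + b * (2 * r) = 2 * r := by rw [← add_mul, hab, one_mul]
    linarith
  · intro c e f g h
    rw [hat_add, hat_add, hat_add, hat_add, hat_smul, hat_smul, hat_smul, hat_smul, hat_smul,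
      hat_smul, hat_smul, hat_smul]
    have h1 := mul_le_mul_of_nonneg_left (hx.2 c e f g h) ha
    have h2 := mul_le_mul_of_nonneg_left (hy.2 c e f g h) hb
    have h3 : a * ((4 - 4 * ε) * r) + b * ((4 - 4 * ε) * r) = (4 - 4 * ε) * r := by
      rw [← add_mul, hab, one_mul]
    linarith

lemma Pe_compact (ε r : ℝ) : IsCompact (Pe d ε r) :=
  (T_compact (2 * r)).of_isClosed_subset (Pe_closed ε r) fun _ hx => hx.1

lemma small_mem_Pe {ε : ℝ} (hε : ε ≤ 1 / 4) {x : Fin d → ℝ} (hx : 2 * (d + 1) * ‖x‖ ≤ 1) :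
    x ∈ Pe d ε 1 := by
  constructor
  · intro a b
    have := hat_sub_le_norm x a b
    linarith
  · intro a b c e _
    have := hat_sub_le_norm x a b
    have := hat_sub_le_norm x c e
    linarith

end Pool.Agent.Helper876
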