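import Mathlib

set_option autoImplicit false

namespace Pool.Agent.Helper876

open MeasureTheory Set Filter Topology
open scoped Pointwise

section FV

variable {E : Type*} [NormedAddCommGroup E] [NormedSpace ℝ E] [FiniteDimensional ℝ E]
  [MeasurableSpace E] [BorelSpace E] (μ : Measure E) [μ.IsAddHaarMeasure]
  {ι : Type*} [Fintype ι] [DecidableEq ι] (n : ι → E →L[ℝ] ℝ) (b : ι → ℝ)

/-- polytope with perturbed offsets -/
def P (n : ι → E →L[ℝ] ℝ) (b t : ι → ℝ) : Set E := {x | ∀ i, n i x ≤ b i + t i}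

omit [FiniteDimensional ℝ E] [MeasurableSpace E] [BorelSpace E] [Fintype ι] [DecidableEq ι] in
lemma isClosed_P (t : ι → ℝ) : IsClosed (P n b t) := by
  simp only [P, Set.ofPred_forall]
  exact isClosed_iInter fun i => isClosed_le (n i).continuous continuous_const

omit [FiniteDimensional ℝ E] [MeasurableSpace E] [BorelSpace E] [Fintype ι] [DecidableEq ι] in
lemma P_mono {t t' : ι → ℝ} (h : t ≤ t') : P n b t ⊆ P n b t' := by
  intro x hx i
  have := hx i
  have := h i
  linarith

lemma first_variation_zero (w : ι → ℝ)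
    (hfin : ∀ t : ι → ℝ, μ (P n b t) ≠ ⊤)
    (D : (ι → ℝ) →L[ℝ] ℝ)
    (hD : HasFDerivAt (fun t : ι → ℝ => (μ (P n b t)).toReal) D 0)
    (hDw : ∀ t, D t = ∑ i, w i * t i)
    (L : Set E) (hL : IsCompact L) (h0 : (0 : E) ∈ L) :
    HasDerivWithinAt (fun ε : ℝ => (μ (P n b 0 + ε • L)).toReal)
      (∑ i, w i * sSup ((fun x => n i x) '' L)) (Set.Ici 0) 0 := by
  -- maximisers
  have hmax : ∀ i, ∃ y ∈ L, ∀ x ∈ L, n i x ≤ n i y := fun i => by
    obtain ⟨y, hy, hy'⟩ := hL.exists_isMaxOn ⟨0, h0⟩ (n i).continuous.continuousOn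
    exact ⟨y, hy, fun x hx => hy' hx⟩
  choose y hyL hy using hmax
  have hsup : ∀ i, sSup ((fun x => n i x) '' L) = n i (y i) := by
    intro i
    apply IsGreatest.csSup_eq
    refine ⟨⟨y i, hyL i, rfl⟩, ?_⟩
    rintro _ ⟨x, hx, rfl⟩
    exact hy i x hx
  simp only [hsup]
  have hh0 : ∀ i, 0 ≤ n i (y i) := fun i => by
    have := hy i 0 h0
    simpa using this
  -- bound
  obtain ⟨R, hR0, hR⟩ : ∃ R : ℝ, 0 < R ∧ ∀ i j, |n j (y i)| ≤ R := by
    refine ⟨∑ i, ∑ j, |n j (y i)| + 1, by positivity, ?_⟩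
    intro i j
    have e1 : |n j (y i)| ≤ ∑ j, |n j (y i)| :=
      Finset.single_le_sum (f := fun j => |n j (y i)|) (fun _ _ => abs_nonneg _) (Finset.mem_univ j)
    have e2 : ∑ j, |n j (y i)| ≤ ∑ i, ∑ j, |n j (y i)| :=
      Finset.single_le_sum (f := fun i => ∑ j, |n j (y i)|)
        (fun _ _ => Finset.sum_nonneg fun _ _ => abs_nonneg _) (Finset.mem_univ i)
    linarith
  set φ : (ι → ℝ) → ℝ := fun t => (μ (P n b t)).toReal with hφ
  have hoE := hD.isLittleO
  rw [Asymptotics.isLittleO_iff] at hoE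
  rw [hasDerivWithinAt_iff_isLittleO, Asymptotics.isLittleO_iff]
  intro κ hκ
  set m : ℝ := (Fintype.card ι : ℝ) with hm
  have hm0 : 0 ≤ m := by positivity
  set c : ℝ := κ / (2 * m * R + R) with hc
  have hc0 : 0 < c := by positivity
  obtain ⟨δ, hδ, hδ'⟩ := Metric.eventually_nhds_iff.1 (hoE hc0)
  have key : ∀ t : ι → ℝ, ‖t‖ < δ → |φ t - φ 0 - ∑ i, w i * t i| ≤ c * ‖t‖ := by
    intro t ht
    have := hδ' (y := t) (by rwa [dist_zero_right])
    rw [sub_zero, hDw] at this
    exact this
  have hlin : ∀ (ε : ℝ) (x : E) (i : ι), n i (ε • x) = ε * n i x := by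
    intro ε x i; simp
  have hzero : P n b 0 + (0:ℝ) • L = P n b 0 := by
    rw [Set.zero_smul_set ⟨0, h0⟩, add_zero]
  rw [eventually_nhdsWithin_iff]
  have hev : ∀ᶠ ε : ℝ in 𝓝 0, |ε| < δ / R := by
    have : Tendsto (fun ε : ℝ => |ε|) (𝓝 0) (𝓝 0) := by
      have := (continuous_abs (G := ℝ)).tendsto 0
      simpa using this
    exact this.eventually_lt_const (by positivity)
  filter_upwards [hev] with ε hε hεI
  have hε0 : 0 ≤ ε := hεI
  rw [abs_of_nonneg hε0, lt_div_iff₀ hR0] at hε
  simp only [sub_zero, hzero, smul_eq_mul]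
  rw [Real.norm_eq_abs, Real.norm_eq_abs, abs_of_nonneg hε0]
  -- upper bound
  have hup : (μ (P n b 0 + ε • L)).toReal ≤ φ 0 + ε * ∑ i, w i * n i (y i) + c * (ε * R) := by
    have e1 : P n b 0 + ε • L ⊆ P n b (fun i => ε * n i (y i)) := by
      rintro _ ⟨p, hp, _, ⟨l, hl, rfl⟩, rfl⟩ i
      have a1 := hp i
      have a2 := hy i l hl
      simp only [Pi.zero_apply, add_zero] at a1
      simp only [map_add, hlin]
      have a3 := mul_le_mul_of_nonneg_left a2 hε0
      linarith
    have e2 : (μ (P n b 0 + ε • L)).toReal ≤ φ (fun i => ε * n i (y i)) :=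
      ENNReal.toReal_mono (hfin _) (measure_mono e1)
    have e3 : ‖(fun i => ε * n i (y i))‖ ≤ ε * R := by
      rw [pi_norm_le_iff_of_nonneg (by positivity)]
      intro i
      rw [Real.norm_eq_abs, abs_mul, abs_of_nonneg hε0]
      exact mul_le_mul_of_nonneg_left (hR i i) hε0
    have e4 := (abs_le.1 (key _ (lt_of_le_of_lt e3 hε))).2
    have e5 : ∑ i, w i * (ε * n i (y i)) = ε * ∑ i, w i * n i (y i) := by
      rw [Finset.mul_sum]; exact Finset.sum_congr rfl fun i _ => by ring
    rw [e5] at e4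
    have e6 := mul_le_mul_of_nonneg_left e3 hc0.le
    linarith
  -- lower bound
  have hlo : φ 0 + ε * ∑ i, w i * n i (y i) - 2 * m * (c * (ε * R)) ≤
      (μ (P n b 0 + ε • L)).toReal := by
    let t : ι → ι → ℝ := fun i j => if j = i then 0 else - (ε * max 0 (n j (y i)))
    let t' : ι → ι → ℝ := fun i j => if j = i then - (ε * n i (y i)) else - (ε * max 0 (n j (y i)))
    have htt : ∀ i, t' i ≤ t i := by
      intro i j
      by_cases h : j = i
      · simp only [t, t', h, if_true]
        have := mul_nonneg hε0 (hh0 i)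
        linarith
      · simp only [t, t', h, if_false, le_refl]
    have ht0 : ∀ i, t i ≤ 0 := by
      intro i j
      by_cases h : j = i
      · simp [t, h]
      · simp only [t, h, if_false, Pi.zero_apply]
        have := mul_nonneg hε0 (le_max_left 0 (n j (y i)))
        linarith
    have hmaxR : ∀ i j, max 0 (n j (y i)) ≤ R := fun i j =>
      max_le hR0.le (le_trans (le_abs_self _) (hR i j))
    have htn : ∀ i, ‖t i‖ ≤ ε * R := by
      intro i
      rw [pi_norm_le_iff_of_nonneg (by positivity)]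
      intro j
      by_cases h : j = i
      · simp only [t, h, if_true, norm_zero]; positivity
      · simp only [t, h, if_false, norm_neg, Real.norm_eq_abs]
        rw [abs_of_nonneg (mul_nonneg hε0 (le_max_left _ _))]
        exact mul_le_mul_of_nonneg_left (hmaxR i j) hε0
    have htn' : ∀ i, ‖t' i‖ ≤ ε * R := by
      intro i
      rw [pi_norm_le_iff_of_nonneg (by positivity)]
      intro j
      by_cases h : j = i
      · simp only [t', h, if_true, norm_neg, Real.norm_eq_abs]
        rw [abs_of_nonneg (mul_nonneg hε0 (hh0 i))]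
        exact mul_le_mul_of_nonneg_left (le_trans (le_abs_self _) (hR i i)) hε0
      · simp only [t', h, if_false, norm_neg, Real.norm_eq_abs]
        rw [abs_of_nonneg (mul_nonneg hε0 (le_max_left _ _))]
        exact mul_le_mul_of_nonneg_left (hmaxR i j) hε0
    let S : ι → Set E := fun i => (ε • y i) +ᵥ (P n b (t i) \ P n b (t' i))
    have hSmeas : ∀ i, MeasurableSet (S i) := fun i =>
      (((isClosed_P n b _).measurableSet).diff ((isClosed_P n b _).measurableSet)).const_vadd _
    have hSμ : ∀ i, (μ (S i)).toReal = φ (t i) - φ (t' i) := by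
      intro i
      have e1 : μ (S i) = μ (P n b (t i) \ P n b (t' i)) := measure_vadd μ _ _
      rw [e1, measure_sdiff (P_mono n b (htt i)) ((isClosed_P n b _).measurableSet.nullMeasurableSet)
        (hfin _), ENNReal.toReal_sub_of_le (measure_mono (P_mono n b (htt i))) (hfin _)]
    have hSfin : ∀ i, μ (S i) ≠ ⊤ := by
      intro i
      have e1 : μ (S i) = μ (P n b (t i) \ P n b (t' i)) := measure_vadd μ _ _
      rw [e1]
      exact ne_top_of_le_ne_top (hfin _) (measure_mono sdiff_subset)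
    -- description of members
    have hSmem : ∀ i, ∀ x ∈ S i, b i < n i x ∧ ∀ j, j ≠ i → n j x ≤ b j := by
      intro i x hx
      obtain ⟨z, ⟨hz1, hz2⟩, rfl⟩ := hx
      have hz3 : b i - ε * n i (y i) < n i z := by
        by_contra hcon
        apply hz2
        intro j
        by_cases h : j = i
        · subst h
          simp only [t', if_true]
          linarith
        · have := hz1 j
          simp only [t, h, if_false] at this
          simp only [t', h, if_false]
          exact this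
      constructor
      · simp only [vadd_eq_add, map_add, hlin]
        linarith
      · intro j hj
        have := hz1 j
        simp only [t, hj, if_false] at this
        simp only [vadd_eq_add, map_add, hlin]
        have a1 := mul_le_mul_of_nonneg_left (le_max_right 0 (n j (y i))) hε0
        linarith
    have hSsub : ∀ i, S i ⊆ P n b 0 + ε • L := by
      intro i x hx
      obtain ⟨z, ⟨hz1, _⟩, rfl⟩ := hx
      refine ⟨z, P_mono n b (ht0 i) hz1, ε • y i, ⟨y i, hyL i, rfl⟩, ?_⟩
      simp only [vadd_eq_add]; abel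
    have hPsub : P n b 0 ⊆ P n b 0 + ε • L := by
      intro x hx
      refine ⟨x, hx, 0, ⟨0, h0, by simp⟩, by simp⟩
    have hdisj : Pairwise (Function.onFun Disjoint S) := by
      intro i j hij
      rw [Function.onFun, Set.disjoint_left]
      intro x hx hx'
      have a1 := (hSmem i x hx).1
      have a2 := (hSmem j x hx').2 i hij
      linarith
    have hdisjP : Disjoint (P n b 0) (⋃ i, S i) := by
      rw [Set.disjoint_left]
      intro x hx hx'
      obtain ⟨i, hi⟩ := Set.mem_iUnion.1 hx'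
      have a1 := (hSmem i x hi).1
      have a2 := hx i
      simp only [Pi.zero_apply, add_zero] at a2
      linarith
    have hfinL : μ (P n b 0 + ε • L) ≠ ⊤ := by
      have e1 : P n b 0 + ε • L ⊆ P n b (fun i => ε * n i (y i)) := by
        rintro _ ⟨p, hp, _, ⟨l, hl, rfl⟩, rfl⟩ i
        have a1 := hp i
        have a2 := hy i l hl
        simp only [Pi.zero_apply, add_zero] at a1
        simp only [map_add, hlin]
        have a3 := mul_le_mul_of_nonneg_left a2 hε0
        linarith
      exact ne_top_of_le_ne_top (hfin _) (measure_mono e1)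
    have hmeas : μ (P n b 0 ∪ ⋃ i, S i) = μ (P n b 0) + ∑ i, μ (S i) := by
      rw [measure_union hdisjP (MeasurableSet.iUnion hSmeas), measure_iUnion hdisj hSmeas,
        tsum_fintype]
    have hle : (μ (P n b 0) + ∑ i, μ (S i)).toReal ≤ (μ (P n b 0 + ε • L)).toReal := by
      rw [← hmeas]
      exact ENNReal.toReal_mono hfinL (measure_mono (union_subset hPsub (iUnion_subset hSsub)))
    rw [ENNReal.toReal_add (hfin _) (by
      rw [ENNReal.sum_ne_top]; exact fun i _ => hSfin i), ENNReal.toReal_sum (fun i _ => hSfin i)] at hle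
    have hterm : ∀ i, w i * (ε * n i (y i)) - 2 * (c * (ε * R)) ≤ (μ (S i)).toReal := by
      intro i
      rw [hSμ i]
      have k1 := (abs_le.1 (key _ (lt_of_le_of_lt (htn i) hε))).1
      have k2 := (abs_le.1 (key _ (lt_of_le_of_lt (htn' i) hε))).2
      have k3 := mul_le_mul_of_nonneg_left (htn i) hc0.le
      have k4 := mul_le_mul_of_nonneg_left (htn' i) hc0.le
      have k5 : ∑ j, w j * t i j - ∑ j, w j * t' i j = w i * (ε * n i (y i)) := by
        rw [← Finset.sum_sub_distrib]
        rw [Finset.sum_eq_single i]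
        · simp [t, t']
        · intro j _ hj
          simp [t, t', hj]
        · intro h; exact absurd (Finset.mem_univ i) h
      linarith
    have hsum : ∑ i, (w i * (ε * n i (y i)) - 2 * (c * (ε * R))) ≤ ∑ i, (μ (S i)).toReal :=
      Finset.sum_le_sum fun i _ => hterm i
    rw [Finset.sum_sub_distrib, Finset.sum_const, Finset.card_univ, nsmul_eq_mul] at hsum
    have e5 : ∑ i, w i * (ε * n i (y i)) = ε * ∑ i, w i * n i (y i) := by
      rw [Finset.mul_sum]; exact Finset.sum_congr rfl fun i _ => by ring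
    rw [e5] at hsum
    have e7 : φ 0 = (μ (P n b 0)).toReal := rfl
    rw [e7]
    linarith
  have hfinal : (2 * m * R + R) * c = κ := by
    rw [hc]; field_simp
  have e8 : φ 0 = (μ (P n b 0)).toReal := rfl
  rw [← e8, abs_le]
  have hmR : 0 ≤ m * R := by positivity
  have hcε : 0 ≤ c * ε := by positivity
  constructor
  · nlinarith [mul_nonneg hcε hR0.le, mul_nonneg hcε hmR]
  · nlinarith [mul_nonneg hcε hR0.le, mul_nonneg hcε hmR]

lemma first_variation (w : ι → ℝ)
    (hfin : ∀ t : ι → ℝ, μ (P n b t) ≠ ⊤)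
    (D : (ι → ℝ) →L[ℝ] ℝ)
    (hD : HasFDerivAt (fun t : ι → ℝ => (μ (P n b t)).toReal) D 0)
    (hDw : ∀ t, D t = ∑ i, w i * t i)
    (hw : ∀ x, ∑ i, w i * n i x = 0)
    (L : Set E) (hL : IsCompact L) (hne : L.Nonempty) :
    HasDerivWithinAt (fun ε : ℝ => (μ (P n b 0 + ε • L)).toReal)
      (∑ i, w i * sSup ((fun x => n i x) '' L)) (Set.Ici 0) 0 := by
  obtain ⟨y0, hy0⟩ := hne
  set L' : Set E := (fun x => x - y0) '' L with hL'
  have hL'c : IsCompact L' := hL.image (by fun_prop)
  have h0 : (0:E) ∈ L' := ⟨y0, hy0, by simp⟩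
  have h := first_variation_zero μ n b w hfin D hD hDw L' hL'c h0
  have e1 : ∀ i, sSup ((fun x => n i x) '' L') = sSup ((fun x => n i x) '' L) - n i y0 := by
    intro i
    obtain ⟨z, hz, hz'⟩ := hL.exists_isMaxOn ⟨y0, hy0⟩ (n i).continuous.continuousOn
    have hz'' : ∀ x ∈ L, n i x ≤ n i z := fun x hx => hz' hx
    have a1 : sSup ((fun x => n i x) '' L) = n i z := by
      apply IsGreatest.csSup_eq
      refine ⟨⟨z, hz, rfl⟩, ?_⟩
      rintro _ ⟨x, hx, rfl⟩
      exact hz'' x hx
    have a2 : sSup ((fun x => n i x) '' L') = n i z - n i y0 := by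
      apply IsGreatest.csSup_eq
      refine ⟨⟨z - y0, ⟨z, hz, rfl⟩, by simp⟩, ?_⟩
      rintro _ ⟨_, ⟨x, hx, rfl⟩, rfl⟩
      have := hz'' x hx
      simp only [map_sub]; linarith
    rw [a1, a2]
  have e2 : ∑ i, w i * sSup ((fun x => n i x) '' L') = ∑ i, w i * sSup ((fun x => n i x) '' L) := by
    simp only [e1, mul_sub, Finset.sum_sub_distrib]
    rw [hw y0, sub_zero]
  rw [e2] at h
  have e3 : (fun ε : ℝ => (μ (P n b 0 + ε • L)).toReal) =
      fun ε : ℝ => (μ (P n b 0 + ε • L')).toReal := by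
    funext ε
    have : P n b 0 + ε • L = (ε • y0) +ᵥ (P n b 0 + ε • L') := by
      ext x
      constructor
      · rintro ⟨p, hp, _, ⟨l, hl, rfl⟩, rfl⟩
        refine ⟨p + ε • (l - y0), ⟨p, hp, ε • (l - y0), ⟨l - y0, ⟨l, hl, rfl⟩, rfl⟩, rfl⟩, ?_⟩
        simp only [vadd_eq_add, smul_sub]; abel
      · rintro ⟨_, ⟨p, hp, _, ⟨_, ⟨l, hl, rfl⟩, rfl⟩, rfl⟩, rfl⟩
        refine ⟨p, hp, ε • l, ⟨l, hl, rfl⟩, ?_⟩
        simp only [vadd_eq_add, smul_sub]; abel
    rw [this, measure_vadd]
  rw [e3]
  exact h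

end FV

end Pool.Agent.Helper876
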