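import Mathlib
import Pool.Agent.Helper876.Local

set_option autoImplicit false

namespace Pool.Agent.Helper876

open Matrix Finset Filter Topology
open scoped Pointwise

variable {d : ℕ}

lemma q_of_mem_smul {s : ℝ} (hs : 0 ≤ s) {C : Set (Fin d → ℝ)}
    (h2 : C ⊆ (1 + s) • (ell d : Set (Fin d → ℝ))) {x : Fin d → ℝ} (hx : x ∈ (2:ℝ) • C) :
    q x ≤ 2 * (1 + s) ^ 2 := by
  obtain ⟨y, hy, rfl⟩ := hx
  obtain ⟨w, hw, rfl⟩ := h2 hy
  rw [mem_ell] at hw
  simp only
  rw [q_smul, q_smul]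
  have : 0 ≤ (1 + s) ^ 2 := by positivity
  nlinarith

lemma q_lt_of_mem_interior {s : ℝ} (hs : 0 ≤ s) {C : Set (Fin d → ℝ)}
    (h2 : C ⊆ (1 + s) • (ell d : Set (Fin d → ℝ))) {x : Fin d → ℝ}
    (hx : x ∈ interior ((2:ℝ) • C)) : q x < 2 * (1 + s) ^ 2 := by
  have hcont : Continuous (fun t : ℝ => t • x) := by fun_prop
  have hopen : IsOpen ((fun t : ℝ => t • x) ⁻¹' interior ((2:ℝ) • C)) :=
    isOpen_interior.preimage hcont
  have h1 : (1:ℝ) ∈ ((fun t : ℝ => t • x) ⁻¹' interior ((2:ℝ) • C)) := by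
    simpa using hx
  obtain ⟨ε, hε, hb⟩ := Metric.isOpen_iff.1 hopen 1 h1
  have h3 : (1 + ε / 2) ∈ Metric.ball (1:ℝ) ε := by
    rw [Metric.mem_ball, Real.dist_eq]
    rw [show 1 + ε / 2 - 1 = ε / 2 by ring, abs_of_pos (by positivity)]; linarith
  have h4 := q_of_mem_smul hs h2 (interior_subset (hb h3))
  rw [q_smul] at h4
  have h5 := q_nonneg x
  rcases h5.eq_or_lt with h6 | h6
  · rw [← h6]; positivity
  · have h7 : 0 < ε * q x := mul_pos hε h6
    have h8 : 0 ≤ ε ^ 2 * q x := by positivity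
    have h9 : (1 + ε / 2) ^ 2 * q x = q x + ε * q x + ε ^ 2 * q x / 4 := by ring
    linarith

lemma mem_interior_of_q_lt {s : ℝ} (hs1 : s < 1) {C : Set (Fin d → ℝ)}
    (h1 : (1 - s) • (ell d : Set (Fin d → ℝ)) ⊆ C) {x : Fin d → ℝ}
    (hx : q x < 2 * (1 - s) ^ 2) : x ∈ interior ((2:ℝ) • C) := by
  have hopen : IsOpen {x : Fin d → ℝ | q x < 2 * (1 - s) ^ 2} :=
    isOpen_lt q_continuous continuous_const
  have hsub : {x : Fin d → ℝ | q x < 2 * (1 - s) ^ 2} ⊆ (2:ℝ) • C := by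
    intro y hy
    have hy' : q y < 2 * (1 - s) ^ 2 := hy
    have hs0 : 0 < 1 - s := by linarith
    refine ⟨(1/2 : ℝ) • y, h1 ⟨((1 - s)⁻¹ * (1/2)) • y, ?_, ?_⟩, ?_⟩
    · rw [mem_ell, q_smul]
      rw [mul_pow, inv_pow]
      rw [mul_assoc, inv_mul_le_iff₀ (by positivity)]
      linarith
    · simp only
      rw [smul_smul, ← mul_assoc, mul_inv_cancel₀ hs0.ne', one_mul]
    · simp only
      rw [smul_smul]; norm_num
  exact interior_maximal hsub hopen hx

theorem local_main (d : ℕ) (hd : 2 ≤ d) : ∃ s : ℝ, 0 < s ∧ s < 1 ∧ ∀ C : Set (Fin d → ℝ),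
    (1 - s) • (ell d : Set (Fin d → ℝ)) ⊆ C → C ⊆ (1 + s) • (ell d : Set (Fin d → ℝ)) →
      ∃ A : Matrix (Fin d) (Fin d) ℝ,
        A.det ≠ 0 ∧
        (∀ z : Fin d → ℤ, z ≠ 0 →
          A.mulVec (fun i => (z i : ℝ)) ∉ interior ((2:ℝ) • C)) ∧
        (∃ ε : ℝ, 0 < ε ∧ ∀ B : Matrix (Fin d) (Fin d) ℝ,
          (∀ i j, |B i j - A i j| < ε) →
          (∀ z : Fin d → ℤ, z ≠ 0 →
            B.mulVec (fun i => (z i : ℝ)) ∉ interior ((2:ℝ) • C)) →
          |A.det| ≤ |B.det|) ∧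
        Set.ncard {v : Fin d → ℝ | v ≠ 0 ∧ v ∈ (2:ℝ) • C ∧
          ∃ z : Fin d → ℤ, v = A.mulVec (fun i => (z i : ℝ))} ≤ d * (d + 1) := by
  have hd0 : (0:ℝ) < d := by
    have : 0 < d := by omega
    exact_mod_cast this
  obtain ⟨η, hη, hloc⟩ := det_local d
  -- the size of the neighbourhood of the Gram matrix
  obtain ⟨ε, hε0, hε1, hε2, hε3⟩ : ∃ ε : ℝ, 0 < ε ∧ d * ε ≤ 1 / 4 ∧ 6 * d ^ 2 * ε ≤ η ∧ ε ≤ 1 := by
    refine ⟨min (1 / (4 * (d:ℝ))) (min (η / (6 * (d:ℝ) ^ 2)) 1), by positivity, ?_, ?_, ?_⟩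
    · calc (d:ℝ) * min (1 / (4 * (d:ℝ))) (min (η / (6 * (d:ℝ) ^ 2)) 1) ≤ (d:ℝ) * (1 / (4 * (d:ℝ))) := by
            gcongr; exact min_le_left _ _
        _ = 1 / 4 := by field_simp
    · calc 6 * (d:ℝ) ^ 2 * min (1 / (4 * (d:ℝ))) (min (η / (6 * (d:ℝ) ^ 2)) 1)
          ≤ 6 * (d:ℝ) ^ 2 * (η / (6 * (d:ℝ) ^ 2)) := by
            gcongr; exact (min_le_right _ _).trans (min_le_left _ _)
        _ = η := by field_simp
    · exact (min_le_right _ _).trans (min_le_right _ _)
  -- choice of s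
  let ρ : ℝ → ℝ := fun s => (1 / (1 - s) ^ 2) ^ d * ((1 + s) ^ d) ^ 2
  have hρc : ContinuousAt ρ 0 := by
    have : ContinuousAt (fun s : ℝ => 1 / (1 - s) ^ 2) 0 := by
      apply ContinuousAt.div continuousAt_const (by fun_prop) (by norm_num)
    exact (this.pow d).mul (by fun_prop)
  have hρ0 : ρ 0 = 1 := by simp [ρ]
  have c1 : ∀ᶠ s : ℝ in 𝓝 0, 2 * ((1 + s) ^ 2 - 1) < ε := by
    have : ContinuousAt (fun s : ℝ => 2 * ((1 + s) ^ 2 - 1)) 0 := by fun_prop
    exact this.eventually_lt_const (by simpa using hε0)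
  have c2 : ∀ᶠ s : ℝ in 𝓝 0, 4 * (d + 1) * (ρ s - 1) + 2 * (1 - (1 - s) ^ 2) < ε := by
    have : ContinuousAt (fun s : ℝ => 4 * ((d:ℝ) + 1) * (ρ s - 1) + 2 * (1 - (1 - s) ^ 2)) 0 :=
      ContinuousAt.add (ContinuousAt.mul continuousAt_const (hρc.sub continuousAt_const))
        (by fun_prop)
    exact this.eventually_lt_const (by simp only [hρ0]; simpa using hε0)
  have c3 : ∀ᶠ s : ℝ in 𝓝 0, (1 / (1 - s) ^ 2) * (ε + 2 * (1 - (1 - s) ^ 2)) < 2 * ε := by
    have : ContinuousAt (fun s : ℝ => (1 / (1 - s) ^ 2) * (ε + 2 * (1 - (1 - s) ^ 2))) 0 := by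
      apply ContinuousAt.mul _ (by fun_prop)
      apply ContinuousAt.div continuousAt_const (by fun_prop) (by norm_num)
    exact this.eventually_lt_const (by norm_num; linarith)
  have c4 : ∀ᶠ s : ℝ in 𝓝 0, (1 + s) ^ 2 < 6 / 5 := by
    have : ContinuousAt (fun s : ℝ => (1 + s) ^ 2) 0 := by fun_prop
    exact this.eventually_lt_const (by norm_num)
  have c5 : ∀ᶠ s : ℝ in 𝓝 0, s < 1 := by
    exact continuousAt_id.eventually_lt_const (by norm_num)
  obtain ⟨s, ⟨⟨h1, h2, h3, h4, h5⟩, hs0⟩⟩ :=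
    (((c1.and (c2.and (c3.and (c4.and c5)))).filter_mono nhdsWithin_le_nhds).and
      (self_mem_nhdsWithin : Set.Ioi (0:ℝ) ∈ 𝓝[>] 0)).exists
  have hs0' : 0 < s := hs0
  refine ⟨s, hs0', h5, ?_⟩
  intro C hC1 hC2
  have hs1 : 0 < 1 - s := by linarith
  -- the compact set
  let adm : Matrix (Fin d) (Fin d) ℝ → Prop := fun B => ∀ z : Fin d → ℤ, z ≠ 0 →
    B.mulVec (fun i => (z i : ℝ)) ∉ interior ((2:ℝ) • C)
  let K : Set (Matrix (Fin d) (Fin d) ℝ) := {B | (∀ i j, |G B i j - Q d i j| ≤ ε) ∧ adm B}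
  have hadm_lower : ∀ B, adm B → ∀ z : Fin d → ℤ, z ≠ 0 →
      2 * (1 - s) ^ 2 ≤ q (B.mulVec (fun i => (z i : ℝ))) := by
    intro B hB z hz
    by_contra hlt
    exact hB z hz (mem_interior_of_q_lt h5 hC1 (not_le.1 hlt))
  have hKclosed : IsClosed K := by
    have e1 : IsClosed {B : Matrix (Fin d) (Fin d) ℝ | ∀ i j, |G B i j - Q d i j| ≤ ε} := by
      simp only [Set.ofPred_forall]
      refine isClosed_iInter fun i => isClosed_iInter fun j => ?_
      refine isClosed_le ?_ continuous_const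
      have := G_continuous (d := d)
      fun_prop
    have e2 : IsClosed {B : Matrix (Fin d) (Fin d) ℝ | adm B} := by
      simp only [adm, Set.ofPred_forall]
      refine isClosed_iInter fun z => isClosed_iInter fun _ => ?_
      refine (isOpen_interior.preimage (f := fun B : Matrix (Fin d) (Fin d) ℝ =>
        B.mulVec (fun i => (z i : ℝ))) ?_).isClosed_compl
      fun_prop
    exact e1.inter e2
  have hKcomp : IsCompact K := by
    have hbox : IsCompact (Set.univ.pi fun _ : Fin d => Set.univ.pi fun _ : Fin d =>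
        Set.Icc (-2:ℝ) 2) :=
      isCompact_univ_pi fun _ => isCompact_univ_pi fun _ => isCompact_Icc
    refine IsCompact.of_isClosed_subset hbox hKclosed ?_
    intro B hB i _ j _
    have e1 : q (B *ᵥ (fun k => (((Pi.single j 1 : Fin d → ℤ) k : ℤ) : ℝ))) = G B j j :=
      q_single B j
    have e2 : (B *ᵥ (fun k => (((Pi.single j 1 : Fin d → ℤ) k : ℤ) : ℝ))) i = B i j := by
      have : (fun k => (((Pi.single j 1 : Fin d → ℤ) k : ℤ) : ℝ)) = Pi.single j 1 := by
        funext k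
        by_cases h : k = j
        · subst h; simp
        · simp [h]
      rw [this]; simp
    have e3 := sq_le_q (B *ᵥ (fun k => (((Pi.single j 1 : Fin d → ℤ) k : ℤ) : ℝ))) i
    rw [e1, e2] at e3
    have e4 := (abs_le.1 (hB.1 j j)).2
    have e5 := (abs_le.1 (abs_Q_le (d := d) j j)).2
    constructor <;> nlinarith
  have hKne : K.Nonempty := by
    refine ⟨(1 + s) • (1 : Matrix (Fin d) (Fin d) ℝ), ?_, ?_⟩
    · intro i j
      have e1 : G ((1 + s) • (1 : Matrix (Fin d) (Fin d) ℝ)) = (1 + s) ^ 2 • Q d := by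
        unfold G
        rw [Matrix.transpose_smul, Matrix.transpose_one, Matrix.smul_mul, Matrix.one_mul,
          Matrix.smul_mul, Matrix.mul_smul, Matrix.mul_one, smul_smul, sq]
      rw [e1, Matrix.smul_apply, smul_eq_mul]
      have e2 : (1 + s) ^ 2 * Q d i j - Q d i j = ((1 + s) ^ 2 - 1) * Q d i j := by ring
      rw [e2, abs_mul, abs_of_nonneg (by nlinarith : 0 ≤ (1 + s) ^ 2 - 1)]
      have e3 := abs_Q_le (d := d) i j
      have e4 : 0 ≤ (1 + s) ^ 2 - 1 := by nlinarith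
      nlinarith
    · intro z hz hmem
      have e1 := q_lt_of_mem_interior hs0'.le hC2 hmem
      rw [Matrix.smul_mulVec, Matrix.one_mulVec, q_smul, q_intCast] at e1
      have e2 : (2:ℝ) ≤ (N z : ℝ) := by exact_mod_cast two_le_N hz
      have e3 : 0 < (1 + s) ^ 2 := by positivity
      nlinarith
  obtain ⟨A, hAK, hAmin⟩ := hKcomp.exists_isMinOn hKne
    (f := fun B : Matrix (Fin d) (Fin d) ℝ => |B.det|)
    (Continuous.continuousOn (by fun_prop))
  have hAmin' : ∀ B ∈ K, |A.det| ≤ |B.det| := fun B hB => hAmin hB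
  -- H and its properties
  set H : Matrix (Fin d) (Fin d) ℝ := (1 / (1 - s) ^ 2) • G A - Q d with hH
  have hinv : 0 < 1 / (1 - s) ^ 2 := by positivity
  have hQH : Q d + H = (1 / (1 - s) ^ 2) • G A := by rw [hH]; abel
  have hH0 : ∀ i, 0 ≤ H i i := by
    intro i
    have e1 := hadm_lower A hAK.2 (Pi.single i 1) (by
      intro h; have := congrFun h i; simp at this)
    rw [q_single] at e1
    have e2 : Q d i i = 2 := by simp [Q, J]; norm_num
    rw [hH, Matrix.sub_apply, Matrix.smul_apply, smul_eq_mul, e2]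
    have e3 : 2 ≤ 1 / (1 - s) ^ 2 * G A i i := by
      rw [one_div, le_inv_mul_iff₀ (by positivity)]; linarith
    linarith
  have hH1 : ∀ i j, 0 ≤ H i i + H j j - 2 * H i j := by
    intro i j
    by_cases hij : i = j
    · subst hij; linarith [hH0 i]
    · have e1 := hadm_lower A hAK.2 (Pi.single i 1 - Pi.single j 1) (by
        intro h; have := congrFun h i; simp [hij] at this)
      rw [q_single_sub] at e1
      have e2 : Q d i i = 2 := by simp [Q, J]; norm_num
      have e2' : Q d j j = 2 := by simp [Q, J]; norm_num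
      have e2'' : Q d i j = 1 := by simp [Q, J, Matrix.one_apply, hij]
      simp only [hH, Matrix.sub_apply, Matrix.smul_apply, smul_eq_mul, e2, e2', e2'']
      have e3 : 2 ≤ 1 / (1 - s) ^ 2 * (G A i i + G A j j - 2 * G A i j) := by
        rw [one_div, le_inv_mul_iff₀ (by positivity)]; linarith
      linarith
  have hHabs : ∀ i j, |H i j| ≤ 2 * ε := by
    intro i j
    have e1 : H i j = (1 / (1 - s) ^ 2) * ((G A i j - Q d i j) + (1 - (1 - s) ^ 2) * Q d i j) := by
      rw [hH, Matrix.sub_apply, Matrix.smul_apply, smul_eq_mul]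
      field_simp
      ring
    rw [e1, abs_mul, abs_of_pos hinv]
    have e2 : |(G A i j - Q d i j) + (1 - (1 - s) ^ 2) * Q d i j| ≤ ε + 2 * (1 - (1 - s) ^ 2) := by
      have e3 : 0 ≤ 1 - (1 - s) ^ 2 := by nlinarith
      calc |(G A i j - Q d i j) + (1 - (1 - s) ^ 2) * Q d i j|
          ≤ |G A i j - Q d i j| + |(1 - (1 - s) ^ 2) * Q d i j| := abs_add_le _ _
        _ ≤ ε + (1 - (1 - s) ^ 2) * 2 := by
            rw [abs_mul, abs_of_nonneg e3]
            exact add_le_add (hAK.1 i j) (mul_le_mul_of_nonneg_left (abs_Q_le i j) e3)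
        _ = _ := by ring
    calc 1 / (1 - s) ^ 2 * |(G A i j - Q d i j) + (1 - (1 - s) ^ 2) * Q d i j|
        ≤ 1 / (1 - s) ^ 2 * (ε + 2 * (1 - (1 - s) ^ 2)) := by gcongr
      _ ≤ 2 * ε := h3.le
  have hTη : Tf H ≤ η := by
    have e1 : ∑ i, H i i ≤ d * (2 * ε) := by
      calc ∑ i, H i i ≤ ∑ _i : Fin d, 2 * ε :=
            Finset.sum_le_sum fun i _ => (abs_le.1 (hHabs i i)).2
        _ = d * (2 * ε) := by simp
    have e2 : ∑ i, ∑ j, (H i i + H j j - 2 * H i j) ≤ d * (d * (8 * ε)) := by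
      calc ∑ i, ∑ j, (H i i + H j j - 2 * H i j) ≤ ∑ _i : Fin d, ∑ _j : Fin d, 8 * ε := by
            refine Finset.sum_le_sum fun i _ => Finset.sum_le_sum fun j _ => ?_
            have a1 := (abs_le.1 (hHabs i i)).2
            have a2 := (abs_le.1 (hHabs j j)).2
            have a3 := (abs_le.1 (hHabs i j)).1
            linarith
        _ = d * (d * (8 * ε)) := by simp
    have hd2 : (2:ℝ) ≤ d := by exact_mod_cast hd
    have e3 : (d:ℝ) * ε ≤ (d:ℝ) ^ 2 * ε := by
      apply mul_le_mul_of_nonneg_right _ hε0.le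
      nlinarith
    have e4 : (d:ℝ) * (d * (8 * ε)) = 8 * ((d:ℝ) ^ 2 * ε) := by ring
    have e5 : (d:ℝ) * (2 * ε) = 2 * ((d:ℝ) * ε) := by ring
    rw [e4] at e2
    rw [e5] at e1
    unfold Tf
    linarith
  have hdet := hloc H hH0 hH1 hTη
  rw [hQH, Matrix.det_smul, Fintype.card_fin, det_G] at hdet
  -- bound the determinant of A
  have hdetA : A.det ^ 2 ≤ ((1 + s) ^ d) ^ 2 := by
    have e1 : |A.det| ≤ |((1 + s) • (1 : Matrix (Fin d) (Fin d) ℝ)).det| := by
      apply hAmin'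
      -- reuse the nonemptiness witness
      refine ⟨?_, ?_⟩
      · intro i j
        have e1 : G ((1 + s) • (1 : Matrix (Fin d) (Fin d) ℝ)) = (1 + s) ^ 2 • Q d := by
          unfold G
          rw [Matrix.transpose_smul, Matrix.transpose_one, Matrix.smul_mul, Matrix.one_mul,
            Matrix.smul_mul, Matrix.mul_smul, Matrix.mul_one, smul_smul, sq]
        rw [e1, Matrix.smul_apply, smul_eq_mul]
        have e2 : (1 + s) ^ 2 * Q d i j - Q d i j = ((1 + s) ^ 2 - 1) * Q d i j := by ring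
        rw [e2, abs_mul, abs_of_nonneg (by nlinarith : 0 ≤ (1 + s) ^ 2 - 1)]
        have e3 := abs_Q_le (d := d) i j
        have e4 : 0 ≤ (1 + s) ^ 2 - 1 := by nlinarith
        nlinarith
      · intro z hz hmem
        have e1 := q_lt_of_mem_interior hs0'.le hC2 hmem
        rw [Matrix.smul_mulVec, Matrix.one_mulVec, q_smul, q_intCast] at e1
        have e2 : (2:ℝ) ≤ (N z : ℝ) := by exact_mod_cast two_le_N hz
        have e3 : 0 < (1 + s) ^ 2 := by positivity
        nlinarith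
    rw [Matrix.det_smul, Fintype.card_fin, Matrix.det_one, mul_one] at e1
    rw [← sq_abs, ← sq_abs ((1 + s) ^ d)]
    exact pow_le_pow_left₀ (abs_nonneg _) e1 2
  have hTρ : Tf H ≤ 2 * (d + 1) * (ρ s - 1) := by
    have e1 : (1 / (1 - s) ^ 2) ^ d * (A.det ^ 2 * (Q d).det) ≤ ρ s * (Q d).det := by
      have : (1 / (1 - s) ^ 2) ^ d * (A.det ^ 2 * (Q d).det) =
          ((1 / (1 - s) ^ 2) ^ d * A.det ^ 2) * (Q d).det := by ring
      rw [this]
      apply mul_le_mul_of_nonneg_right _ det_Q_pos.le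
      show _ ≤ (1 / (1 - s) ^ 2) ^ d * ((1 + s) ^ d) ^ 2
      exact mul_le_mul_of_nonneg_left hdetA (by positivity)
    have e2 : (Q d).det * (1 + Tf H / (2 * (d + 1))) ≤ (Q d).det * ρ s := by
      calc _ ≤ _ := hdet
        _ ≤ _ := e1
        _ = _ := by ring
    have e3 := le_of_mul_le_mul_left e2 det_Q_pos
    have e4 : Tf H / (2 * ((d:ℝ) + 1)) ≤ ρ s - 1 := by linarith
    rw [div_le_iff₀ (by positivity)] at e4
    linarith
  have hstrict : ∀ i j, |G A i j - Q d i j| < ε := by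
    intro i j
    have e1 : G A i j - Q d i j = (1 - s) ^ 2 * H i j - (1 - (1 - s) ^ 2) * Q d i j := by
      rw [hH, Matrix.sub_apply, Matrix.smul_apply, smul_eq_mul]
      field_simp
      ring
    have e2 : 0 ≤ 1 - (1 - s) ^ 2 := by nlinarith
    have e3 : (1 - s) ^ 2 ≤ 1 := by linarith
    calc |G A i j - Q d i j| = |(1 - s) ^ 2 * H i j - (1 - (1 - s) ^ 2) * Q d i j| := by rw [e1]
      _ ≤ |(1 - s) ^ 2 * H i j| + |(1 - (1 - s) ^ 2) * Q d i j| := abs_sub _ _
      _ = (1 - s) ^ 2 * |H i j| + (1 - (1 - s) ^ 2) * |Q d i j| := by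
          rw [abs_mul, abs_mul, abs_of_nonneg e2, abs_of_nonneg (by positivity : 0 ≤ (1 - s) ^ 2)]
      _ ≤ 1 * |H i j| + (1 - (1 - s) ^ 2) * 2 := by
          apply add_le_add
          · exact mul_le_mul_of_nonneg_right e3 (abs_nonneg _)
          · exact mul_le_mul_of_nonneg_left (abs_Q_le i j) e2
      _ ≤ 2 * (2 * (d + 1) * (ρ s - 1)) + 2 * (1 - (1 - s) ^ 2) := by
          have := abs_le_Tf hH0 hH1 i j
          linarith
      _ < ε := by linarith
  refine ⟨A, ?_, hAK.2, ?_, ?_⟩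
  · intro h0
    rw [h0] at hdet
    have e1 : 0 ≤ Tf H := by
      unfold Tf
      have := Finset.sum_nonneg (s := Finset.univ) fun i _ => hH0 i
      have := Finset.sum_nonneg (s := Finset.univ) fun i _ =>
        Finset.sum_nonneg (s := Finset.univ) fun j _ => hH1 i j
      positivity
    have e2 := det_Q_pos (d := d)
    have e3 : 0 < (Q d).det * (1 + Tf H / (2 * (d + 1))) := by positivity
    simp at hdet
    linarith
  · have hopen : IsOpen {B : Fin d → Fin d → ℝ | ∀ i j, |G (Matrix.of B) i j - Q d i j| < ε} := by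
      simp only [Set.ofPred_forall]
      refine isOpen_iInter_of_finite fun i => isOpen_iInter_of_finite fun j => ?_
      refine isOpen_lt ?_ continuous_const
      have h1 : Continuous (fun B : Fin d → Fin d → ℝ => G (Matrix.of B)) :=
        G_continuous.comp continuous_id
      have h2 : Continuous (fun B : Fin d → Fin d → ℝ => G (Matrix.of B) i j) :=
        (continuous_apply j).comp ((continuous_apply i).comp h1)
      fun_prop
    obtain ⟨A', hA'⟩ : ∃ A' : Fin d → Fin d → ℝ, Matrix.of A' = A := ⟨fun i j => A i j, rfl⟩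
    have hmem : A' ∈ {B : Fin d → Fin d → ℝ | ∀ i j, |G (Matrix.of B) i j - Q d i j| < ε} := by
      intro i j; rw [hA']; exact hstrict i j
    obtain ⟨δ, hδ, hball⟩ := Metric.isOpen_iff.1 hopen A' hmem
    refine ⟨δ, hδ, ?_⟩
    intro B hB hBadm
    apply hAmin'
    refine ⟨?_, hBadm⟩
    obtain ⟨B', hB'⟩ : ∃ B' : Fin d → Fin d → ℝ, Matrix.of B' = B := ⟨fun i j => B i j, rfl⟩
    have hBb : B' ∈ Metric.ball A' δ := by
      rw [Metric.mem_ball, dist_pi_lt_iff hδ]
      intro i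
      rw [dist_pi_lt_iff hδ]
      intro j
      rw [Real.dist_eq]
      have := hB i j
      rw [← hB', ← hA'] at this
      exact this
    intro i j
    have := hball hBb i j
    rw [hB'] at this
    exact this.le
  · have hfin := short_finite_card d
    have hsub : {v : Fin d → ℝ | v ≠ 0 ∧ v ∈ (2:ℝ) • C ∧
          ∃ z : Fin d → ℤ, v = A.mulVec (fun i => (z i : ℝ))} ⊆
        (fun z : Fin d → ℤ => A.mulVec (fun i => (z i : ℝ))) '' {z | z ≠ 0 ∧ N z < 4} := by
      rintro v ⟨hv0, hv2, z, rfl⟩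
      refine ⟨z, ⟨?_, ?_⟩, rfl⟩
      · rintro rfl
        apply hv0
        have : (fun i => (((0 : Fin d → ℤ) i : ℤ) : ℝ)) = 0 := by funext i; simp
        rw [this, Matrix.mulVec_zero]
      · have e1 := q_of_mem_smul hs0'.le hC2 hv2
        have e2 := q_lower hε0.le hAK.1 (fun i => (z i : ℝ))
        rw [q_intCast] at e2
        have e3 : (N z : ℝ) < 4 := by
          have e4 : (0:ℝ) ≤ N z := by rw [← q_intCast]; exact q_nonneg _
          nlinarith
        exact_mod_cast e3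
    calc _ ≤ ((fun z : Fin d → ℤ => A.mulVec (fun i => (z i : ℝ))) '' {z | z ≠ 0 ∧ N z < 4}).ncard :=
          Set.ncard_le_ncard hsub (hfin.1.image _)
      _ ≤ _ := Set.ncard_image_le hfin.1
      _ ≤ _ := hfin.2

end Pool.Agent.Helper876
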