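import Mathlib
import Pool.Agent.Helper876.Cav
import Pool.Agent.Helper876.FirstVar

set_option autoImplicit false

namespace Pool.Agent.Helper876

open MeasureTheory Set Filter Topology
open scoped Pointwise

/-- coordinate functionals -/
noncomputable def pr3 (i : Fin 3) : E3 →L[ℝ] ℝ := EuclideanSpace.proj i

noncomputable def nX : Fin 6 → E3 →L[ℝ] ℝ :=
  ![-pr3 0, pr3 0, -pr3 1, pr3 1, -pr3 2, pr3 2]

noncomputable def bX (h : ℝ) : Fin 6 → ℝ := ![1, 1, 1, 1, h, h]

/-- the plate -/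
def plate (h : ℝ) : Set E3 := {x | |x 0| ≤ 1 ∧ |x 1| ≤ 1 ∧ |x 2| ≤ h}

lemma PX_eq (h : ℝ) (t : Fin 6 → ℝ) : P nX (bX h) t = WithLp.ofLp ⁻¹'
    (Set.Icc (![-(1 + t 0), -(1 + t 2), -(h + t 4)] : Fin 3 → ℝ) ![1 + t 1, 1 + t 3, h + t 5]) := by
  ext x
  simp only [P, mem_ofPred_eq, mem_preimage, mem_Icc, Pi.le_def]
  constructor
  · intro hx
    have h0 := hx 0
    have h1 := hx 1
    have h2 := hx 2
    have h3 := hx 3
    have h4 := hx 4
    have h5 := hx 5
    simp [nX, bX, pr3] at h0 h1 h2 h3 h4 h5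
    constructor
    · intro i
      fin_cases i
      · simp; linarith
      · simp; linarith
      · simp; linarith
    · intro i
      fin_cases i
      · simp; linarith
      · simp; linarith
      · simp; linarith
  · rintro ⟨h1, h2⟩ i
    have a0 := h1 0
    have a1 := h1 1
    have a2 := h1 2
    have b0 := h2 0
    have b1 := h2 1
    have b2 := h2 2
    simp at a0 a1 a2 b0 b1 b2
    fin_cases i
    · simp [nX, bX, pr3]; linarith
    · simp [nX, bX, pr3]; linarith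
    · simp [nX, bX, pr3]; linarith
    · simp [nX, bX, pr3]; linarith
    · simp [nX, bX, pr3]; linarith
    · simp [nX, bX, pr3]; linarith

lemma vol_PX (h : ℝ) (t : Fin 6 → ℝ) : volume (P nX (bX h) t) =
    ENNReal.ofReal (2 + t 0 + t 1) * (ENNReal.ofReal (2 + t 2 + t 3) *
      ENNReal.ofReal (2 * h + t 4 + t 5)) := by
  rw [PX_eq, (PiLp.volume_preserving_ofLp (Fin 3)).measure_preimage
    measurableSet_Icc.nullMeasurableSet, Real.volume_Icc_pi, Fin.prod_univ_three]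
  simp only [Matrix.cons_val_zero, Matrix.cons_val_one, Matrix.cons_val]
  have e1 : 1 + t 1 - -(1 + t 0) = 2 + t 0 + t 1 := by ring
  have e2 : 1 + t 3 - -(1 + t 2) = 2 + t 2 + t 3 := by ring
  have e3 : h + t 5 - -(h + t 4) = 2 * h + t 4 + t 5 := by ring
  rw [e1, e2, e3, mul_assoc]

lemma fin_PX (h : ℝ) (t : Fin 6 → ℝ) : volume (P nX (bX h) t) ≠ ⊤ := by
  rw [vol_PX]
  exact ENNReal.mul_ne_top ENNReal.ofReal_ne_top
    (ENNReal.mul_ne_top ENNReal.ofReal_ne_top ENNReal.ofReal_ne_top)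

lemma plate_eq (h : ℝ) : plate h = P nX (bX h) 0 := by
  ext x
  simp only [plate, P, mem_ofPred_eq, abs_le]
  constructor
  · rintro ⟨h0, h1, h2⟩ i
    fin_cases i
    · simp [nX, bX, pr3]; linarith
    · simp [nX, bX, pr3]; linarith
    · simp [nX, bX, pr3]; linarith
    · simp [nX, bX, pr3]; linarith
    · simp [nX, bX, pr3]; linarith
    · simp [nX, bX, pr3]; linarith
  · intro hx
    have h0 := hx 0
    have h1 := hx 1
    have h2 := hx 2
    have h3 := hx 3
    have h4 := hx 4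
    have h5 := hx 5
    simp [nX, bX, pr3] at h0 h1 h2 h3 h4 h5
    exact ⟨⟨by linarith, h1⟩, ⟨by linarith, h3⟩, ⟨by linarith, h5⟩⟩

lemma vol_plate {h : ℝ} (hh : 0 < h) : (volume (plate h)).toReal = 8 * h := by
  rw [plate_eq, vol_PX, ENNReal.toReal_mul, ENNReal.toReal_mul]
  simp only [Pi.zero_apply, add_zero]
  rw [ENNReal.toReal_ofReal (by norm_num), ENNReal.toReal_ofReal (by positivity)]
  ring

lemma fderiv_X {h : ℝ} (hh : 0 < h) : ∃ D : (Fin 6 → ℝ) →L[ℝ] ℝ,
    HasFDerivAt (fun t : Fin 6 → ℝ => (volume (P nX (bX h) t)).toReal) D 0 ∧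
    ∀ t, D t = ∑ i, (![4 * h, 4 * h, 4 * h, 4 * h, 4, 4] : Fin 6 → ℝ) i * t i := by
  have hfg : (fun t : Fin 6 → ℝ => (volume (P nX (bX h) t)).toReal) =ᶠ[𝓝 0]
      fun t => (2 + t 0 + t 1) * ((2 + t 2 + t 3) * (2 * h + t 4 + t 5)) := by
    have c1 : ∀ᶠ t : Fin 6 → ℝ in 𝓝 0, 0 < 2 + t 0 + t 1 := by
      have : ContinuousAt (fun t : Fin 6 → ℝ => 2 + t 0 + t 1) 0 := by fun_prop
      exact this.eventually_const_lt (by simp)
    have c2 : ∀ᶠ t : Fin 6 → ℝ in 𝓝 0, 0 < 2 + t 2 + t 3 := by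
      have : ContinuousAt (fun t : Fin 6 → ℝ => 2 + t 2 + t 3) 0 := by fun_prop
      exact this.eventually_const_lt (by simp)
    have c3 : ∀ᶠ t : Fin 6 → ℝ in 𝓝 0, 0 < 2 * h + t 4 + t 5 := by
      have : ContinuousAt (fun t : Fin 6 → ℝ => 2 * h + t 4 + t 5) 0 := by fun_prop
      exact this.eventually_const_lt (by simp [hh])
    filter_upwards [c1, c2, c3] with t h1 h2 h3
    rw [vol_PX, ENNReal.toReal_mul, ENNReal.toReal_mul, ENNReal.toReal_ofReal h1.le,
      ENNReal.toReal_ofReal h2.le, ENNReal.toReal_ofReal h3.le]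
  have hg : DifferentiableAt ℝ (fun t : Fin 6 → ℝ =>
      (2 + t 0 + t 1) * ((2 + t 2 + t 3) * (2 * h + t 4 + t 5))) 0 := by fun_prop
  refine ⟨fderiv ℝ _ 0, (hg.hasFDerivAt).congr_of_eventuallyEq hfg, ?_⟩
  intro t
  have h2 : HasDerivAt (fun r : ℝ => r • t) ((1:ℝ) • t) 0 := (hasDerivAt_id (0:ℝ)).smul_const t
  rw [one_smul] at h2
  have h3 : HasFDerivAt (fun t : Fin 6 → ℝ =>
      (2 + t 0 + t 1) * ((2 + t 2 + t 3) * (2 * h + t 4 + t 5))) (fderiv ℝ (fun t : Fin 6 → ℝ =>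
      (2 + t 0 + t 1) * ((2 + t 2 + t 3) * (2 * h + t 4 + t 5))) 0) ((0:ℝ) • t) := by
    rw [zero_smul]; exact hg.hasFDerivAt
  have h4 := h3.comp_hasDerivAt (0:ℝ) h2
  have h5 : ∀ a b c : ℝ, HasDerivAt (fun r : ℝ => a + r * b + r * c) (b + c) 0 := by
    intro a b c
    have e0 : HasDerivAt (fun r : ℝ => r * b) b 0 := by
      simpa using (hasDerivAt_id (0:ℝ)).mul_const b
    have e0' : HasDerivAt (fun r : ℝ => r * c) c 0 := by
      simpa using (hasDerivAt_id (0:ℝ)).mul_const c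
    exact (e0.const_add a).add e0'
  have h6 := (h5 2 (t 0) (t 1)).mul ((h5 2 (t 2) (t 3)).mul (h5 (2 * h) (t 4) (t 5)))
  have h7 := h4.unique h6
  rw [h7]
  simp only [Fin.sum_univ_succ, Fin.sum_univ_zero]
  simp
  ring_nf

lemma sup_ball (i : Fin 3) : sSup ((fun x : E3 => (pr3 i) x) '' Metric.closedBall 0 1) = 1 := by
  apply IsGreatest.csSup_eq
  constructor
  · refine ⟨EuclideanSpace.single i 1, by simp, by simp [pr3]⟩
  · rintro _ ⟨x, hx, rfl⟩
    rw [mem_closedBall_zero_iff] at hx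
    have : |x i| ≤ ‖x‖ := by
      have := EuclideanSpace.norm_eq x
      rw [this]
      apply Real.abs_le_sqrt
      have h2 := Finset.single_le_sum (f := fun i => ‖x i‖ ^ 2) (fun i _ => sq_nonneg _)
        (Finset.mem_univ i)
      simpa using h2
    show x i ≤ 1
    linarith [le_abs_self (x i)]

lemma sup_ball' (i : Fin 3) : sSup ((fun x : E3 => (-pr3 i) x) '' Metric.closedBall 0 1) = 1 := by
  have : ((fun x : E3 => (-pr3 i) x) '' Metric.closedBall 0 1) =
      ((fun x : E3 => (pr3 i) x) '' Metric.closedBall 0 1) := ?_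
  · rw [this, sup_ball i]
  ext y
  constructor
  · rintro ⟨x, hx, rfl⟩
    exact ⟨-x, by simpa using hx, by simp⟩
  · rintro ⟨x, hx, rfl⟩
    exact ⟨-x, by simpa using hx, by simp⟩

lemma isCompact_plate (h : ℝ) : IsCompact (plate h) := by
  rw [plate_eq]
  have hcl := isClosed_P nX (bX h) 0
  rw [Metric.isCompact_iff_isClosed_bounded]
  refine ⟨hcl, ?_⟩
  rw [← plate_eq]
  refine (Metric.isBounded_closedBall (x := (0 : E3)) (r := Real.sqrt (1 ^ 2 + 1 ^ 2 + h ^ 2))).subset ?_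
  rintro x ⟨h0, h1, h2⟩
  rw [mem_closedBall_zero_iff, EuclideanSpace.norm_eq, Fin.sum_univ_three]
  apply Real.sqrt_le_sqrt
  simp only [Real.norm_eq_abs]
  have e0 := pow_le_pow_left₀ (abs_nonneg _) h0 2
  have e1 := pow_le_pow_left₀ (abs_nonneg _) h1 2
  have e2 := pow_le_pow_left₀ (abs_nonneg _) h2 2
  linarith

lemma convex_plate (h : ℝ) : Convex ℝ (plate h) := by
  rw [plate_eq]
  intro x hx y hy a c ha hc hac i
  have h1 := hx i
  have h2 := hy i
  simp only [map_add, map_smul, smul_eq_mul]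
  have h3 := mul_le_mul_of_nonneg_left h1 ha
  have h4 := mul_le_mul_of_nonneg_left h2 hc
  have h5 : a * (bX h i + (0 : Fin 6 → ℝ) i) + c * (bX h i + (0 : Fin 6 → ℝ) i) =
    bX h i + (0 : Fin 6 → ℝ) i := by rw [← add_mul, hac, one_mul]
  linarith

lemma interior_plate {h : ℝ} (hh : 0 < h) : (interior (plate h)).Nonempty := by
  have hopen : IsOpen ({x : E3 | |x 0| < 1} ∩ {x : E3 | |x 1| < 1} ∩ {x : E3 | |x 2| < h}) := by
    refine IsOpen.inter (IsOpen.inter ?_ ?_) ?_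
    all_goals exact isOpen_lt (continuous_abs.comp (by fun_prop)) (by fun_prop)
  refine ⟨0, interior_maximal ?_ hopen ?_⟩
  · rintro x ⟨⟨h0, h1⟩, h2⟩
    simp only [mem_ofPred_eq] at h0 h1 h2
    exact ⟨h0.le, h1.le, h2.le⟩
  · simp only [mem_inter_iff, mem_ofPred_eq]
    simp [hh]

/-- half the surface area of the plate as a Steiner limit -/
lemma tendsto_S {h : ℝ} (hh : 0 < h) :
    Tendsto (fun t : ℝ => ((volume (plate h + Metric.closedBall (0 : E3) t)).toReal
          - (volume (plate h)).toReal) / (2 * t)) (𝓝[>] 0) (𝓝 (4 + 8 * h)) := by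
  obtain ⟨D, hD, hDw⟩ := fderiv_X hh
  have h1 := first_variation volume nX (bX h) _ (fin_PX h) D hD hDw (by
    intro x
    simp only [Fin.sum_univ_succ, Fin.sum_univ_zero]
    simp [nX]) (Metric.closedBall (0 : E3) 1) (isCompact_closedBall _ _) ⟨0, by simp⟩
  rw [← plate_eq] at h1
  have h2 : ∑ i, (![4 * h, 4 * h, 4 * h, 4 * h, 4, 4] : Fin 6 → ℝ) i *
      sSup ((fun x => (nX i) x) '' Metric.closedBall (0 : E3) 1) = 2 * (4 + 8 * h) := by
    simp only [Fin.sum_univ_succ, Fin.sum_univ_zero]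
    have a0 := sup_ball 0
    have a1 := sup_ball 1
    have a2 := sup_ball 2
    have b0 := sup_ball' 0
    have b1 := sup_ball' 1
    have b2 := sup_ball' 2
    simp only [nX, Matrix.cons_val_zero, Matrix.cons_val_succ]
    rw [a0, a1, a2, b0, b1, b2]
    ring
  rw [h2, hasDerivWithinAt_iff_tendsto_slope] at h1
  have h3 : Tendsto (slope (fun ε : ℝ => (volume (plate h + ε • Metric.closedBall (0 : E3) 1)).toReal) 0)
      (𝓝[>] 0) (𝓝 (2 * (4 + 8 * h))) := by
    refine h1.mono_left (nhdsWithin_mono _ ?_)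
    intro x hx
    have hx' : 0 < x := hx
    exact ⟨hx'.le, hx'.ne'⟩
  have h4 := h3.div_const 2
  have e : 2 * (4 + 8 * h) / 2 = 4 + 8 * h := by ring
  rw [e] at h4
  refine h4.congr' ?_
  filter_upwards [self_mem_nhdsWithin] with t ht
  have ht' : 0 < t := ht
  rw [slope_def_field]
  have e1 : t • Metric.closedBall (0 : E3) 1 = Metric.closedBall (0 : E3) t := by
    rw [smul_closedBall _ _ zero_le_one, smul_zero, mul_one, Real.norm_of_nonneg ht'.le]
  have e2 : plate h + (0 : ℝ) • Metric.closedBall (0 : E3) 1 = plate h := by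
    rw [Set.zero_smul_set ⟨0, by simp⟩, add_zero]
  rw [e1, e2, sub_zero, div_div, mul_comm t 2]

end Pool.Agent.Helper876
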