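import Mathlib
import Pool.Agent.Helper876.Plate

set_option autoImplicit false

namespace Pool.Agent.Helper876

open MeasureTheory Set Filter Topology
open scoped Pointwise

/-- an isometry sending the unit vector `u` to `e0` -/
lemma exists_rot {u : E3} (hu : ‖u‖ = 1) : ∃ Φ : E3 ≃ₗᵢ[ℝ] E3, Φ u = e0 ∧
    ∀ x : E3, Φ x 0 = inner ℝ u x := by
  have hcard : Module.finrank ℝ E3 = Fintype.card (Fin 3) := by simp
  have horth : Orthonormal ℝ (({0} : Set (Fin 3)).domRestrict (fun _ : Fin 3 => u)) := by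
    constructor
    · intro i; exact hu
    · intro i j hij
      exact absurd (Subtype.ext (i.2.trans j.2.symm)) hij
  obtain ⟨b, hb⟩ := horth.exists_orthonormalBasis_extension_of_card_eq hcard
  have hb0 : b 0 = u := hb 0 rfl
  refine ⟨b.repr, ?_, ?_⟩
  · rw [← hb0]
    exact b.repr_self 0
  · intro x
    rw [b.repr_apply_apply, hb0]

lemma vol_image (Φ : E3 ≃ₗᵢ[ℝ] E3) {S : Set E3} (hS : MeasurableSet S) :
    volume (Φ '' S) = volume S := by
  have h : Φ '' S = Φ.symm ⁻¹' S := by
    ext x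
    constructor
    · rintro ⟨y, hy, rfl⟩; simpa using hy
    · intro hx; exact ⟨Φ.symm x, hx, by simp⟩
  rw [h]
  exact (Φ.symm.measurePreserving).measure_preimage hS.nullMeasurableSet

/-- key estimate for the planar projection -/
lemma limit_bounds {M : Set E3} (hM : IsCompact M) (hc : Convex ℝ M) {r R : ℝ} (hr : 0 < r)
    (hR : 0 < R) (hd : disc r ⊆ tl '' M) (hD : tl '' M ⊆ disc R)
    (hA : 0 < (volume (tl '' M)).toReal) {L : ℝ}
    (hL : Tendsto (fun t : ℝ => ((volume (pz '' M + Metric.closedBall (0 : E3) t)).toReal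
      - 2 * t * (volume (tl '' M)).toReal) / (Real.pi * t ^ 2)) (𝓝[>] 0) (𝓝 L)) :
    0 < L ∧ L ≤ 4 * (volume (tl '' M)).toReal / (Real.pi * r) := by
  set A : ℝ := (volume (tl '' M)).toReal with hAdef
  have hpi := Real.pi_pos
  constructor
  · have h1 : 48 * A / (25 * R * Real.pi) ≤ L := by
      refine ge_of_tendsto hL ?_
      filter_upwards [self_mem_nhdsWithin] with t ht
      have ht' : 0 < t := ht
      have := lower_vol hM hR ht' hD
      rw [le_div_iff₀ (by positivity)]
      have e : 48 * A / (25 * R * Real.pi) * (Real.pi * t ^ 2) = A * (48 * t ^ 2 / (25 * R)) := by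
        field_simp
      rw [e]
      rw [← hAdef] at this
      linarith
    have h2 : 0 < 48 * A / (25 * R * Real.pi) := by positivity
    linarith
  · have h1 : Tendsto (fun t : ℝ => 2 * A / Real.pi * (2 / r + t / r ^ 2)) (𝓝[>] 0)
        (𝓝 (2 * A / Real.pi * (2 / r + 0 / r ^ 2))) := by
      have : ContinuousAt (fun t : ℝ => 2 * A / Real.pi * (2 / r + t / r ^ 2)) 0 := by fun_prop
      exact this.tendsto.mono_left nhdsWithin_le_nhds
    have h2 : L ≤ 2 * A / Real.pi * (2 / r + 0 / r ^ 2) := by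
      refine le_of_tendsto_of_tendsto hL h1 ?_
      filter_upwards [self_mem_nhdsWithin] with t ht
      have ht' : 0 < t := ht
      have := upper_vol hM hc hr ht' hd
      rw [← hAdef] at this
      rw [div_le_iff₀ (by positivity)]
      have e : 2 * A / Real.pi * (2 / r + t / r ^ 2) * (Real.pi * t ^ 2) =
          2 * t * (1 + t / r) ^ 2 * A - 2 * t * A := by
        field_simp
        ring
      rw [e]
      linarith
    have e : 2 * A / Real.pi * (2 / r + 0 / r ^ 2) = 4 * A / (Real.pi * r) := by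
      field_simp; ring
    rw [e] at h2
    exact h2

lemma plate_check {h : ℝ} (hh : 0 < h) (hh1 : h ≤ 1) (u : E3) (hu : ‖u‖ = 1) (L : ℝ)
    (hL : Tendsto (fun t : ℝ =>
        ((volume ((fun x : E3 => x - (inner ℝ u x) • u) '' (plate h)
              + Metric.closedBall (0 : E3) t)).toReal
          - 2 * t * ((volume (plate h + segment ℝ (0 : E3) u)).toReal
              - (volume (plate h)).toReal)) / (Real.pi * t ^ 2)) (𝓝[>] 0) (𝓝 L)) :
    Real.pi ^ 3 * h / 1024 ≤ Real.pi * ((volume (plate h + segment ℝ (0 : E3) u)).toReal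
              - (volume (plate h)).toReal) / L ^ 2 := by
  obtain ⟨Φ, hΦu, hΦ0⟩ := exists_rot hu
  set K := plate h with hK
  have hKc := isCompact_plate h
  have hKconv := convex_plate h
  set M : Set E3 := Φ '' K with hMdef
  have hM : IsCompact M := hKc.image Φ.continuous
  have hc : Convex ℝ M := hKconv.is_linear_image Φ.toLinearEquiv.toLinearMap.isLinear
  have hseg : IsCompact (segment ℝ (0 : E3) u) := by
    rw [segment_eq_image]
    exact isCompact_Icc.image (by fun_prop)
  -- transport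
  have t1 : volume (K + segment ℝ (0 : E3) u) = volume (M + segment ℝ (0 : E3) e0) := by
    rw [← vol_image Φ (hKc.add hseg).measurableSet]
    congr 1
    rw [Set.image_add Φ]
    congr 1
    have := image_segment ℝ Φ.toLinearEquiv.toLinearMap.toAffineMap (0 : E3) u
    have e1 : (Φ.toLinearEquiv.toLinearMap.toAffineMap : E3 → E3) = Φ := rfl
    rw [e1] at this
    rw [this, map_zero, hΦu]
  have t2 : volume K = volume M := (vol_image Φ hKc.measurableSet).symm
  have hcav := cavalieri hM hc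
  have hLk : IsCompact (tl '' M) := hM.image continuous_tl
  have hA : (volume (K + segment ℝ (0 : E3) u)).toReal - (volume K).toReal =
      (volume (tl '' M)).toReal := by
    rw [t1, t2, hcav, ENNReal.toReal_add hM.measure_lt_top.ne hLk.measure_lt_top.ne]
    ring
  have t3 : ∀ t : ℝ, volume ((fun x : E3 => x - (inner ℝ u x) • u) '' K
      + Metric.closedBall (0 : E3) t) = volume (pz '' M + Metric.closedBall (0 : E3) t) := by
    intro t
    have hc1 : IsCompact ((fun x : E3 => x - (inner ℝ u x) • u) '' K) := by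
      apply hKc.image
      fun_prop
    rw [← vol_image Φ (hc1.add (isCompact_closedBall _ _)).measurableSet]
    congr 1
    rw [Set.image_add Φ]
    congr 1
    · rw [← Set.image_comp, hMdef, ← Set.image_comp]
      apply Set.image_congr
      intro x _
      simp only [Function.comp, pz, map_sub, map_smul, hΦu, hΦ0]
    · rw [LinearIsometryEquiv.image_closedBall, map_zero]
  rw [hA]
  simp only [t3, hA] at hL
  -- radii
  set r : ℝ := max |u 2| h with hr
  have hr0 : 0 < r := lt_max_of_lt_right hh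
  have husq : u 0 ^ 2 + u 1 ^ 2 + u 2 ^ 2 = 1 := by
    have := EuclideanSpace.norm_sq_eq u
    rw [hu, Fin.sum_univ_three] at this
    simp only [Real.norm_eq_abs, sq_abs] at this
    linarith
  have hu2 : |u 2| ≤ 1 := by
    refine abs_le_of_sq_le_sq ?_ zero_le_one
    nlinarith [sq_nonneg (u 0), sq_nonneg (u 1)]
  have hr1 : r ≤ 1 := max_le hu2 hh1
  have hd : disc r ⊆ tl '' M := by
    intro w hw
    simp only [disc, mem_ofPred_eq] at hw
    set y : E3 := Φ.symm (gl (0, w)) with hy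
    have hΦy : Φ y = gl (0, w) := by simp [hy]
    have hysq : y 0 ^ 2 + y 1 ^ 2 + y 2 ^ 2 = w 0 ^ 2 + w 1 ^ 2 := by
      have e1 : ‖y‖ = ‖gl (0, w)‖ := by rw [hy, LinearIsometryEquiv.norm_map]
      have e2 : ‖y‖ ^ 2 = y 0 ^ 2 + y 1 ^ 2 + y 2 ^ 2 := by
        rw [EuclideanSpace.norm_sq_eq, Fin.sum_univ_three]
        simp only [Real.norm_eq_abs, sq_abs]
      rw [← e2, e1, norm_sq_E3, gl_zero, tl_gl]
      simp
    have hyu : u 0 * y 0 + u 1 * y 1 + u 2 * y 2 = 0 := by
      have e1 := hΦ0 y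
      rw [hΦy, gl_zero] at e1
      have e2 : inner ℝ u y = u 0 * y 0 + u 1 * y 1 + u 2 * y 2 := by
        rw [PiLp.inner_apply, Fin.sum_univ_three]
        simp [mul_comm]
      rw [← e2, ← e1]
    rcases le_total |u 2| h with hcase | hcase
    · -- r = h
      have hrh : r = h := max_eq_right hcase
      rw [hrh] at hw
      refine ⟨Φ y, ⟨y, ?_, rfl⟩, by rw [hΦy, tl_gl]⟩
      have b0 : |y 0| ≤ h := abs_le_of_sq_le_sq (by nlinarith [sq_nonneg (y 1), sq_nonneg (y 2)]) hh.le
      have b1 : |y 1| ≤ h := abs_le_of_sq_le_sq (by nlinarith [sq_nonneg (y 0), sq_nonneg (y 2)]) hh.le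
      have b2 : |y 2| ≤ h := abs_le_of_sq_le_sq (by nlinarith [sq_nonneg (y 0), sq_nonneg (y 1)]) hh.le
      exact ⟨by linarith, by linarith, b2⟩
    · have hru : r = |u 2| := max_eq_left hcase
      rw [hru, sq_abs] at hw
      have hu0 : u 2 ≠ 0 := by
        intro h0; rw [h0, abs_zero] at hcase; linarith
      have hu2sq : 0 < u 2 ^ 2 := by positivity
      set s : ℝ := -(y 2) / u 2 with hs
      set x : E3 := y + s • u with hx
      have hx2 : x 2 = 0 := by
        simp only [hx, hs, PiLp.add_apply, PiLp.smul_apply, smul_eq_mul]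
        field_simp; ring
      have hΦx : tl (Φ x) = w := by
        rw [hx, map_add, map_smul, hΦu, hΦy, gl_add, tl_gl]
      have hcs : (u 2 * y 2) ^ 2 ≤ (y 0 ^ 2 + y 1 ^ 2) * (u 0 ^ 2 + u 1 ^ 2) := by
        have e1 : u 2 * y 2 = -(u 0 * y 0 + u 1 * y 1) := by linarith
        rw [e1]
        nlinarith [sq_nonneg (u 0 * y 1 - u 1 * y 0)]
      have hy2 : y 2 ^ 2 ≤ (w 0 ^ 2 + w 1 ^ 2) * (1 - u 2 ^ 2) := by
        have e1 : y 0 ^ 2 + y 1 ^ 2 = w 0 ^ 2 + w 1 ^ 2 - y 2 ^ 2 := by linarith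
        have e2 : u 0 ^ 2 + u 1 ^ 2 = 1 - u 2 ^ 2 := by linarith
        rw [e1, e2] at hcs
        nlinarith
      have hxsq : x 0 ^ 2 + x 1 ^ 2 + x 2 ^ 2 ≤ 1 := by
        have e1 : x 0 ^ 2 + x 1 ^ 2 + x 2 ^ 2 = (y 0 ^ 2 + y 1 ^ 2 + y 2 ^ 2) +
            2 * s * (u 0 * y 0 + u 1 * y 1 + u 2 * y 2) + s ^ 2 * (u 0 ^ 2 + u 1 ^ 2 + u 2 ^ 2) := by
          simp only [hx, PiLp.add_apply, PiLp.smul_apply, smul_eq_mul]; ring
        rw [e1, hyu, husq, hysq, mul_zero, add_zero, mul_one]
        have e2 : s ^ 2 = y 2 ^ 2 / u 2 ^ 2 := by rw [hs]; field_simp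
        have e3 : y 2 ^ 2 / u 2 ^ 2 ≤ (w 0 ^ 2 + w 1 ^ 2) * (1 - u 2 ^ 2) / u 2 ^ 2 := by gcongr
        have e4 : w 0 ^ 2 + w 1 ^ 2 + (w 0 ^ 2 + w 1 ^ 2) * (1 - u 2 ^ 2) / u 2 ^ 2 =
            (w 0 ^ 2 + w 1 ^ 2) / u 2 ^ 2 := by field_simp; ring
        have e5 : (w 0 ^ 2 + w 1 ^ 2) / u 2 ^ 2 ≤ 1 := by rw [div_le_one hu2sq]; exact hw
        rw [e2]
        linarith
      refine ⟨Φ x, ⟨x, ?_, rfl⟩, hΦx⟩
      have b0 : |x 0| ≤ 1 := abs_le_of_sq_le_sq
        (by rw [one_pow]; linarith [sq_nonneg (x 1), sq_nonneg (x 2)]) zero_le_one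
      have b1 : |x 1| ≤ 1 := abs_le_of_sq_le_sq
        (by rw [one_pow]; linarith [sq_nonneg (x 0), sq_nonneg (x 2)]) zero_le_one
      refine ⟨b0, b1, ?_⟩
      rw [hx2, abs_zero]; exact hh.le
  have hD : tl '' M ⊆ disc 2 := by
    rintro _ ⟨_, ⟨x, ⟨h0, h1, h2⟩, rfl⟩, rfl⟩
    simp only [disc, mem_ofPred_eq]
    have e1 := norm_sq_E3 (Φ x)
    rw [LinearIsometryEquiv.norm_map, EuclideanSpace.norm_sq_eq, Fin.sum_univ_three] at e1
    simp only [Real.norm_eq_abs] at e1
    have a0 := pow_le_pow_left₀ (abs_nonneg _) h0 2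
    have a1 := pow_le_pow_left₀ (abs_nonneg _) h1 2
    have a2 := pow_le_pow_left₀ (abs_nonneg _) (h2.trans hh1) 2
    nlinarith [sq_nonneg ((Φ x) 0)]
  have hApos : 0 < (volume (tl '' M)).toReal := by
    apply ENNReal.toReal_pos _ hLk.measure_lt_top.ne
    have hsub : Set.Icc (fun _ : Fin 2 => -(r / 2)) (fun _ : Fin 2 => r / 2) ⊆ tl '' M := by
      refine subset_trans ?_ hd
      rintro w ⟨hw1, hw2⟩
      simp only [disc, mem_ofPred_eq]
      have c0 := sq_le_sq' (hw1 0) (hw2 0)
      have c1 := sq_le_sq' (hw1 1) (hw2 1)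
      nlinarith [sq_nonneg r]
    have hpos : 0 < volume (Set.Icc (fun _ : Fin 2 => -(r / 2)) (fun _ : Fin 2 => r / 2)) := by
      rw [Real.volume_Icc_pi, Fin.prod_univ_two]
      apply ENNReal.mul_pos <;>
      · apply ne_of_gt
        rw [ENNReal.ofReal_pos]; linarith
    exact (lt_of_lt_of_le hpos (measure_mono hsub)).ne'
  obtain ⟨hLpos, hLle⟩ := limit_bounds hM hc hr0 (by norm_num : (0:ℝ) < 2) hd hD hApos hL
  -- upper bound for the area
  have hAle : (volume (tl '' M)).toReal ≤ 64 * r := by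
    have h1 : (volume (tl '' M)).toReal ≤ (volume (K + segment ℝ (0 : E3) u)).toReal := by
      rw [← hA]
      have : 0 ≤ (volume K).toReal := ENNReal.toReal_nonneg
      linarith
    refine h1.trans ?_
    have hsub : K + segment ℝ (0 : E3) u ⊆ WithLp.ofLp ⁻¹'
        (Set.Icc (![-2, -2, -(h + |u 2|)] : Fin 3 → ℝ) ![2, 2, h + |u 2|]) := by
      rintro _ ⟨x, ⟨h0, h1, h2⟩, y, hy, rfl⟩
      rw [segment_eq_image] at hy
      obtain ⟨a, ⟨ha0, ha1⟩, rfl⟩ := hy
      have hb : ∀ i, |u i| ≤ 1 := by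
        intro i
        refine abs_le_of_sq_le_sq ?_ zero_le_one
        rw [one_pow]
        fin_cases i
        · show (u 0) ^ 2 ≤ 1
          linarith [sq_nonneg (u 1), sq_nonneg (u 2)]
        · show (u 1) ^ 2 ≤ 1
          linarith [sq_nonneg (u 0), sq_nonneg (u 2)]
        · show (u 2) ^ 2 ≤ 1
          linarith [sq_nonneg (u 0), sq_nonneg (u 1)]
      have hau : ∀ i, |a * u i| ≤ |u i| := by
        intro i
        rw [abs_mul, abs_of_nonneg ha0]
        nlinarith [abs_nonneg (u i)]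
      have k0 := abs_le.1 ((hau 0).trans (hb 0))
      have k1 := abs_le.1 ((hau 1).trans (hb 1))
      have k2 := abs_le.1 (hau 2)
      rw [abs_le] at h0 h1 h2
      constructor
      · intro i
        fin_cases i
        · simp; linarith
        · simp; linarith
        · simp; linarith
      · intro i
        fin_cases i
        · simp; linarith
        · simp; linarith
        · simp; linarith
    have hvol : volume ((WithLp.ofLp : E3 → (Fin 3 → ℝ)) ⁻¹'
        (Set.Icc (![-2, -2, -(h + |u 2|)] : Fin 3 → ℝ) ![2, 2, h + |u 2|])) =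
        ENNReal.ofReal (32 * (h + |u 2|)) := by
      rw [(PiLp.volume_preserving_ofLp (Fin 3)).measure_preimage
        measurableSet_Icc.nullMeasurableSet, Real.volume_Icc_pi, Fin.prod_univ_three]
      simp only [Matrix.cons_val_zero, Matrix.cons_val_one, Matrix.cons_val]
      rw [← ENNReal.ofReal_mul (by norm_num), ← ENNReal.ofReal_mul (by norm_num)]
      congr 1; ring
    calc (volume (K + segment ℝ (0 : E3) u)).toReal ≤ (ENNReal.ofReal (32 * (h + |u 2|))).toReal := by
          rw [← hvol]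
          apply ENNReal.toReal_mono _ (measure_mono hsub)
          rw [hvol]; exact ENNReal.ofReal_ne_top
      _ = 32 * (h + |u 2|) := ENNReal.toReal_ofReal (by positivity)
      _ ≤ 64 * r := by
          have := le_max_left |u 2| h
          have := le_max_right |u 2| h
          linarith
  set A : ℝ := (volume (tl '' M)).toReal with hAd
  have hpi := Real.pi_pos
  have hrh : h ≤ r := le_max_right _ _
  have hL2 : L ^ 2 ≤ (4 * A / (Real.pi * r)) ^ 2 := pow_le_pow_left₀ hLpos.le hLle 2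
  have hstep : Real.pi * A / (4 * A / (Real.pi * r)) ^ 2 ≤ Real.pi * A / L ^ 2 := by
    apply div_le_div_of_nonneg_left (by positivity) (by positivity) hL2
  refine le_trans ?_ hstep
  have e1 : Real.pi * A / (4 * A / (Real.pi * r)) ^ 2 = Real.pi ^ 3 * r ^ 2 / (16 * A) := by
    field_simp; ring
  rw [e1, div_le_div_iff₀ (by norm_num) (by positivity)]
  have e2 : Real.pi ^ 3 * h * (16 * A) ≤ Real.pi ^ 3 * h * (16 * (64 * r)) := by gcongr
  have e3 : Real.pi ^ 3 * h * (16 * (64 * r)) ≤ Real.pi ^ 3 * r * (16 * (64 * r)) := by gcongr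
  calc _ ≤ _ := e2
    _ ≤ _ := e3
    _ = _ := by ring

end Pool.Agent.Helper876
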