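import Mathlib
import Pool.Agent.Helper876.Area

set_option autoImplicit false

namespace Pool.Agent.Helper876.Surf

open MeasureTheory Set Filter Topology
open scoped Pointwise

abbrev E3 := EuclideanSpace ℝ (Fin 3)
abbrev E2 := EuclideanSpace ℝ (Fin 2)

/-- Hlawka's inequality in a real inner product space. -/
lemma hlawka {V : Type*} [NormedAddCommGroup V] [InnerProductSpace ℝ V] (x y z : V) :
    ‖x + y‖ + ‖y + z‖ + ‖z + x‖ ≤ ‖x‖ + ‖y‖ + ‖z‖ + ‖x + y + z‖ := by
  have hid : ‖x + y‖ ^ 2 + ‖y + z‖ ^ 2 + ‖z + x‖ ^ 2 =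
      ‖x‖ ^ 2 + ‖y‖ ^ 2 + ‖z‖ ^ 2 + ‖x + y + z‖ ^ 2 := by
    have h1 := norm_add_sq_real x y
    have h2 := norm_add_sq_real y z
    have h3 := norm_add_sq_real z x
    have h4 := norm_add_sq_real (x + y) z
    rw [inner_add_left] at h4
    have h5 : inner ℝ z x = inner ℝ x z := real_inner_comm _ _
    rw [h5] at h3
    linarith
  have p1 : ‖x + y‖ ≤ ‖x‖ + ‖y‖ := norm_add_le _ _
  have p2 : ‖y + z‖ ≤ ‖y‖ + ‖z‖ := norm_add_le _ _
  have p3 : ‖z + x‖ ≤ ‖z‖ + ‖x‖ := norm_add_le _ _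
  have q1 : ‖x + y‖ ≤ ‖z‖ + ‖x + y + z‖ := by
    have := norm_sub_le (x + y + z) z
    rw [add_sub_cancel_right] at this; linarith
  have q2 : ‖y + z‖ ≤ ‖x‖ + ‖x + y + z‖ := by
    have := norm_sub_le (x + y + z) x
    have e : x + y + z - x = y + z := by abel
    rw [e] at this; linarith
  have q3 : ‖z + x‖ ≤ ‖y‖ + ‖x + y + z‖ := by
    have := norm_sub_le (x + y + z) y
    have e : x + y + z - y = z + x := by abel
    rw [e] at this; linarith
  set a := ‖x‖
  set b := ‖y‖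
  set c := ‖z‖
  set d := ‖x + y + z‖
  set p := ‖x + y‖
  set q := ‖y + z‖
  set r := ‖z + x‖
  have ha : 0 ≤ a := norm_nonneg _
  have hb : 0 ≤ b := norm_nonneg _
  have hc : 0 ≤ c := norm_nonneg _
  have hd : 0 ≤ d := norm_nonneg _
  have hprod : 0 ≤ (a + b + c + d) * (a + b + c + d - (p + q + r)) := by
    have e : (a + b + c + d) * (a + b + c + d - (p + q + r)) =
        (a + b - p) * (c + d - p) + (b + c - q) * (a + d - q) + (c + a - r) * (b + d - r) := by
      linear_combination -hid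
    rw [e]
    have t1 : 0 ≤ (a + b - p) * (c + d - p) := mul_nonneg (by linarith) (by linarith)
    have t2 : 0 ≤ (b + c - q) * (a + d - q) := mul_nonneg (by linarith) (by linarith)
    have t3 : 0 ≤ (c + a - r) * (b + d - r) := mul_nonneg (by linarith) (by linarith)
    linarith
  rcases (by positivity : 0 ≤ a + b + c + d).eq_or_lt with h0 | h0
  · linarith
  · have := nonneg_of_mul_nonneg_right hprod h0
    linarith

/-- the four-term form of Hlawka's inequality -/
lemma hlawka' {V : Type*} [NormedAddCommGroup V] [InnerProductSpace ℝ V] (u v w : V) :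
    2 * (‖u‖ + ‖v‖ + ‖w‖) ≤ ‖u + v + w‖ + ‖u + v - w‖ + ‖u - v + w‖ + ‖-u + v + w‖ := by
  have h := hlawka (u + v - w) (u - v + w) (-u + v + w)
  have e1 : u + v - w + (u - v + w) = (2:ℝ) • u := by rw [two_smul]; abel
  have e2 : u - v + w + (-u + v + w) = (2:ℝ) • w := by rw [two_smul]; abel
  have e3 : -u + v + w + (u + v - w) = (2:ℝ) • v := by rw [two_smul]; abel
  have e4 : u + v - w + (u - v + w) + (-u + v + w) = u + v + w := by abel
  rw [e4, e1, e2, e3, norm_smul, norm_smul, norm_smul, Real.norm_of_nonneg zero_le_two] at h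
  linarith

/-- cross product -/
noncomputable def cr (a b : E3) : E3 :=
  WithLp.toLp 2 ![a 1 * b 2 - a 2 * b 1, a 2 * b 0 - a 0 * b 2, a 0 * b 1 - a 1 * b 0]

lemma norm_cr_sq (a b : E3) : ‖cr a b‖ ^ 2 = ‖a‖ ^ 2 * ‖b‖ ^ 2 - (inner ℝ a b) ^ 2 := by
  rw [EuclideanSpace.norm_sq_eq, EuclideanSpace.norm_sq_eq, EuclideanSpace.norm_sq_eq,
    PiLp.inner_apply, Fin.sum_univ_three, Fin.sum_univ_three, Fin.sum_univ_three,
    Fin.sum_univ_three]
  simp only [Real.norm_eq_abs, sq_abs, cr]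
  simp
  ring

/-- the linear parametrisation of a plane -/
noncomputable def pl (a b : E3) : E2 →ₗ[ℝ] E3 where
  toFun w := w 0 • a + w 1 • b
  map_add' x y := by simp only [PiLp.add_apply, add_smul]; abel
  map_smul' c x := by simp only [PiLp.smul_apply, smul_eq_mul, mul_smul, smul_add, RingHom.id_apply]

lemma normDet_pl (a b : E3) : (pl a b).normDet = ‖cr a b‖ := by
  have h := LinearMap.normDet_sq_eq_det_gram (pl a b) (EuclideanSpace.basisFun (Fin 2) ℝ)
  have h1 : (pl a b) ((EuclideanSpace.basisFun (Fin 2) ℝ) 0) = a := by simp [pl]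
  have h2 : (pl a b) ((EuclideanSpace.basisFun (Fin 2) ℝ) 1) = b := by simp [pl]
  rw [Matrix.det_fin_two] at h
  simp only [Matrix.gram_apply, h1, h2] at h
  have h3 : (pl a b).normDet ^ 2 = ‖cr a b‖ ^ 2 := by
    rw [norm_cr_sq]
    have h4 : ((pl a b).normDet ^ 2 : ℝ) = inner ℝ a a * inner ℝ b b - inner ℝ a b * inner ℝ b a := h
    rw [h4, real_inner_self_eq_norm_sq, real_inner_self_eq_norm_sq, real_inner_comm a b]
    ring
  exact (pow_left_inj₀ (LinearMap.normDet_nonneg _) (norm_nonneg _) two_ne_zero).1 h3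

/-- area of a planar piece -/
lemma area_piece (c a b : E3) (S : Set (ℝ × ℝ)) (hS : MeasurableSet S) :
    μHE[2] ((fun p : ℝ × ℝ => c + (p.1 • a + p.2 • b)) '' S) =
      ENNReal.ofReal ‖cr a b‖ * volume S := by
  have h1 : (fun p : ℝ × ℝ => c + (p.1 • a + p.2 • b)) '' S =
      (fun x : E3 => c + x) '' ((pl a b) '' {w : E2 | (w 0, w 1) ∈ S}) := by
    ext x
    constructor
    · rintro ⟨p, hp, rfl⟩
      exact ⟨_, ⟨WithLp.toLp 2 ![p.1, p.2], hp, rfl⟩, rfl⟩
    · rintro ⟨_, ⟨w, hw, rfl⟩, rfl⟩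
      exact ⟨(w 0, w 1), hw, rfl⟩
  have h2 : Isometry (fun x : E3 => c + x) := isometry_add_left c
  rw [h1, h2.euclideanHausdorffMeasure_image]
  have h3 := (pl a b).euclideanHausdorffMeasure_image_eq_normDet_mul_volume
    {w : E2 | (w 0, w 1) ∈ S}
  rw [finrank_euclideanSpace_fin, normDet_pl] at h3
  rw [h3]
  congr 1
  have e1 := (volume_preserving_finTwoArrow ℝ).comp (PiLp.volume_preserving_ofLp (Fin 2))
  exact e1.measure_preimage hS.nullMeasurableSet

lemma area_tri_open {s : ℝ} (hs : 0 ≤ s) :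
    volume {p : ℝ × ℝ | 0 < p.1 ∧ 0 < p.2 ∧ p.1 + p.2 < s} = ENNReal.ofReal (s ^ 2 / 2) := by
  have hm : MeasurableSet {p : ℝ × ℝ | 0 < p.1 ∧ 0 < p.2 ∧ p.1 + p.2 < s} := by
    measurability
  rw [Measure.volume_eq_prod, Measure.prod_apply hm, ← lintegral_tri hs]
  apply lintegral_congr_ae
  have hne : ∀ᵐ x : ℝ, x ≠ 0 := by
    rw [ae_iff]; simp
  filter_upwards [hne] with x hx
  by_cases h0 : 0 ≤ x
  · have h0' : 0 < x := lt_of_le_of_ne h0 (Ne.symm hx)
    have : Prod.mk x ⁻¹' {p : ℝ × ℝ | 0 < p.1 ∧ 0 < p.2 ∧ p.1 + p.2 < s} = Ioo 0 (s - x) := by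
      ext y
      simp only [mem_preimage, mem_ofPred_eq, mem_Ioo]
      constructor
      · rintro ⟨_, h1, h2⟩; exact ⟨h1, by linarith⟩
      · rintro ⟨h1, h2⟩; exact ⟨h0', h1, by linarith⟩
    rw [this, Real.volume_Ioo, if_pos h0, sub_zero]
  · have : Prod.mk x ⁻¹' {p : ℝ × ℝ | 0 < p.1 ∧ 0 < p.2 ∧ p.1 + p.2 < s} = ∅ := by
      ext y
      simp only [mem_preimage, mem_ofPred_eq, mem_empty_iff_false, iff_false]
      rintro ⟨h1, _⟩; exact h0 h1.le
    rw [this, measure_empty, if_neg h0]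

/-- the hexagon (in a facet of the octahedron) -/
def hexS : Set (ℝ × ℝ) := {p : ℝ × ℝ | (-p.1 ≤ 0 ∧ p.1 ≤ 2/3) ∧ (-p.2 ≤ 0 ∧ p.2 ≤ 2/3) ∧
  (-(p.1 + p.2) ≤ -(5/12) ∧ p.1 + p.2 ≤ 13/12)}

lemma meas_hexS : MeasurableSet hexS := by unfold hexS; measurability

lemma vol_hexS : volume hexS = ENNReal.ofReal (47/144) := by
  unfold hexS
  rw [area_H 0 (2/3) 0 (2/3) (-(5/12)) (13/12) (by norm_num) (by norm_num) (by norm_num)
    (by norm_num) (by norm_num) (by norm_num) (by norm_num)]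
  norm_num

/-- the square (facet of the truncated octahedron) -/
def sqS : Set (ℝ × ℝ) := {p : ℝ × ℝ | |p.1| + |p.2| ≤ 5/12}

lemma meas_sqS : MeasurableSet sqS := by
  unfold sqS
  exact measurableSet_le ((measurable_fst.abs).add (measurable_snd.abs)) measurable_const

lemma vol_sqS : volume sqS ≤ ENNReal.ofReal (25/72) := by
  set T : Set (ℝ × ℝ) := {p : ℝ × ℝ | 0 ≤ p.1 ∧ 0 ≤ p.2 ∧ p.1 + p.2 ≤ 5/12} with hT
  have hvT : volume T = ENNReal.ofReal (25/288) := by
    rw [hT, area_tri (by norm_num)]; norm_num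
  have hTm : MeasurableSet T := by rw [hT]; measurability
  have r1 : MeasurePreserving (fun p : ℝ × ℝ => (-p.1, p.2)) volume volume :=
    (Measure.measurePreserving_neg (volume : Measure ℝ)).prod (MeasurePreserving.id volume)
  have r2 : MeasurePreserving (fun p : ℝ × ℝ => (p.1, -p.2)) volume volume :=
    (MeasurePreserving.id volume).prod (Measure.measurePreserving_neg (volume : Measure ℝ))
  have r3 : MeasurePreserving (fun p : ℝ × ℝ => (-p.1, -p.2)) volume volume :=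
    (Measure.measurePreserving_neg (volume : Measure ℝ)).prod
      (Measure.measurePreserving_neg (volume : Measure ℝ))
  have hsub : sqS ⊆ (T ∪ (fun p : ℝ × ℝ => (-p.1, p.2)) ⁻¹' T) ∪
      ((fun p : ℝ × ℝ => (p.1, -p.2)) ⁻¹' T ∪ (fun p : ℝ × ℝ => (-p.1, -p.2)) ⁻¹' T) := by
    intro p hp
    simp only [sqS, mem_ofPred_eq] at hp
    simp only [mem_union, mem_preimage, hT, mem_ofPred_eq]
    rcases le_total 0 p.1 with h1 | h1 <;> rcases le_total 0 p.2 with h2 | h2
    · rw [abs_of_nonneg h1, abs_of_nonneg h2] at hp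
      exact Or.inl (Or.inl ⟨h1, h2, hp⟩)
    · rw [abs_of_nonneg h1, abs_of_nonpos h2] at hp
      exact Or.inr (Or.inl ⟨h1, by linarith, hp⟩)
    · rw [abs_of_nonpos h1, abs_of_nonneg h2] at hp
      exact Or.inl (Or.inr ⟨by linarith, h2, hp⟩)
    · rw [abs_of_nonpos h1, abs_of_nonpos h2] at hp
      exact Or.inr (Or.inr ⟨by linarith, by linarith, hp⟩)
  calc volume sqS ≤ _ := measure_mono hsub
    _ ≤ (volume T + volume ((fun p : ℝ × ℝ => (-p.1, p.2)) ⁻¹' T)) +
        (volume ((fun p : ℝ × ℝ => (p.1, -p.2)) ⁻¹' T) +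
          volume ((fun p : ℝ × ℝ => (-p.1, -p.2)) ⁻¹' T)) :=
        (measure_union_le _ _).trans (add_le_add (measure_union_le _ _) (measure_union_le _ _))
    _ = ENNReal.ofReal (25/72) := by
        rw [r1.measure_preimage hTm.nullMeasurableSet, r2.measure_preimage hTm.nullMeasurableSet,
          r3.measure_preimage hTm.nullMeasurableSet, hvT,
          ← ENNReal.ofReal_add (by norm_num) (by norm_num),
          ← ENNReal.ofReal_add (by norm_num) (by norm_num)]
        norm_num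

/-- the open triangle -/
def triS : Set (ℝ × ℝ) := {p : ℝ × ℝ | 0 < p.1 ∧ 0 < p.2 ∧ p.1 + p.2 < 1}

lemma meas_triS : MeasurableSet triS := by unfold triS; measurability

lemma vol_triS : volume triS = ENNReal.ofReal (1/2) := by
  unfold triS; rw [area_tri_open zero_le_one]; norm_num

end Pool.Agent.Helper876.Surf
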