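import Mathlib
import Pool.Agent.Helper876.Area
import Pool.Agent.Helper876.FirstVar

set_option autoImplicit false

namespace Pool.Agent.Helper876

open MeasureTheory Set Filter Topology
open scoped Pointwise

abbrev E4 := EuclideanSpace ℝ (Fin 4)

/-- coordinate functionals -/
noncomputable def pr (i : Fin 4) : E4 →L[ℝ] ℝ := EuclideanSpace.proj i

lemma pr_apply (i : Fin 4) (x : E4) : pr i x = x i := rfl

/-- facet functionals of the product of two triangles -/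
noncomputable def nK : Fin 6 → E4 →L[ℝ] ℝ :=
  ![-pr 0, -pr 1, pr 0 + pr 1, -pr 2, -pr 3, pr 2 + pr 3]

noncomputable def bK : Fin 6 → ℝ := ![0, 0, 1, 0, 0, 1]

/-- facet functionals of the product of two hexagons -/
noncomputable def nB : Fin 12 → E4 →L[ℝ] ℝ :=
  ![-pr 0, pr 0, -pr 1, pr 1, -(pr 0 + pr 1), pr 0 + pr 1,
    -pr 2, pr 2, -pr 3, pr 3, -(pr 2 + pr 3), pr 2 + pr 3]

lemma PK_eq (t : Fin 6 → ℝ) : P nK bK t = {x : E4 |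
    (x 0, x 1) ∈ {p : ℝ × ℝ | -p.1 ≤ t 0 ∧ -p.2 ≤ t 1 ∧ p.1 + p.2 ≤ 1 + t 2} ∧
    (x 2, x 3) ∈ {p : ℝ × ℝ | -p.1 ≤ t 3 ∧ -p.2 ≤ t 4 ∧ p.1 + p.2 ≤ 1 + t 5}} := by
  ext x
  simp only [P, mem_ofPred_eq]
  rw [Fin.forall_fin_succ, Fin.forall_fin_succ, Fin.forall_fin_succ, Fin.forall_fin_succ,
    Fin.forall_fin_succ, Fin.forall_fin_one]
  simp [nK, bK, pr_apply]
  tauto

lemma PB_eq (m : ℝ) (t : Fin 12 → ℝ) : P nB (fun _ => m) t = {x : E4 |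
    (x 0, x 1) ∈ {p : ℝ × ℝ | (-p.1 ≤ m + t 0 ∧ p.1 ≤ m + t 1) ∧ (-p.2 ≤ m + t 2 ∧ p.2 ≤ m + t 3) ∧
      (-(p.1 + p.2) ≤ m + t 4 ∧ p.1 + p.2 ≤ m + t 5)} ∧
    (x 2, x 3) ∈ {p : ℝ × ℝ | (-p.1 ≤ m + t 6 ∧ p.1 ≤ m + t 7) ∧ (-p.2 ≤ m + t 8 ∧ p.2 ≤ m + t 9) ∧
      (-(p.1 + p.2) ≤ m + t 10 ∧ p.1 + p.2 ≤ m + t 11)}} := by
  ext x
  simp only [P, mem_ofPred_eq]
  constructor
  · intro h
    have h0 := h 0
    have h1 := h 1
    have h2 := h 2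
    have h3 := h 3
    have h4 := h 4
    have h5 := h 5
    have h6 := h 6
    have h7 := h 7
    have h8 := h 8
    have h9 := h 9
    have h10 := h 10
    have h11 := h 11
    exact ⟨⟨⟨h0, h1⟩, ⟨h2, h3⟩, h4, h5⟩, ⟨⟨h6, h7⟩, ⟨h8, h9⟩, h10, h11⟩⟩
  · rintro ⟨⟨⟨h0, h1⟩, ⟨h2, h3⟩, h4, h5⟩, ⟨⟨h6, h7⟩, ⟨h8, h9⟩, h10, h11⟩⟩ i
    fin_cases i
    exacts [h0, h1, h2, h3, h4, h5, h6, h7, h8, h9, h10, h11]

lemma meas_T (a b c : ℝ) : MeasurableSet {p : ℝ × ℝ | -p.1 ≤ a ∧ -p.2 ≤ b ∧ p.1 + p.2 ≤ c} := by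
  measurability

lemma meas_H (a b c a' b' c' : ℝ) : MeasurableSet {p : ℝ × ℝ | (-p.1 ≤ a ∧ p.1 ≤ a') ∧
    (-p.2 ≤ b ∧ p.2 ≤ b') ∧ (-(p.1 + p.2) ≤ c ∧ p.1 + p.2 ≤ c')} := by
  measurability

lemma fin_T (a b c : ℝ) : volume {p : ℝ × ℝ | -p.1 ≤ a ∧ -p.2 ≤ b ∧ p.1 + p.2 ≤ c} ≠ ⊤ := by
  by_cases h : 0 ≤ a + b + c
  · rw [area_T a b c h]; exact ENNReal.ofReal_ne_top
  · have : {p : ℝ × ℝ | -p.1 ≤ a ∧ -p.2 ≤ b ∧ p.1 + p.2 ≤ c} = ∅ := by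
      ext p
      simp only [mem_ofPred_eq, mem_empty_iff_false, iff_false]
      rintro ⟨h1, h2, h3⟩
      apply h; linarith
    rw [this, measure_empty]; exact ENNReal.zero_ne_top

lemma fin_H (a b c a' b' c' : ℝ) : volume {p : ℝ × ℝ | (-p.1 ≤ a ∧ p.1 ≤ a') ∧
    (-p.2 ≤ b ∧ p.2 ≤ b') ∧ (-(p.1 + p.2) ≤ c ∧ p.1 + p.2 ≤ c')} ≠ ⊤ := by
  have h1 : {p : ℝ × ℝ | (-p.1 ≤ a ∧ p.1 ≤ a') ∧
    (-p.2 ≤ b ∧ p.2 ≤ b') ∧ (-(p.1 + p.2) ≤ c ∧ p.1 + p.2 ≤ c')} ⊆ Icc (-a) a' ×ˢ Icc (-b) b' := by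
    rintro p ⟨⟨h1, h2⟩, ⟨h3, h4⟩, _⟩
    exact ⟨⟨by linarith, h2⟩, ⟨by linarith, h4⟩⟩
  refine ne_top_of_le_ne_top ?_ (measure_mono h1)
  rw [Measure.volume_eq_prod, Measure.prod_prod, Real.volume_Icc, Real.volume_Icc]
  exact ENNReal.mul_ne_top ENNReal.ofReal_ne_top ENNReal.ofReal_ne_top

lemma fin_PK (t : Fin 6 → ℝ) : volume (P nK bK t) ≠ ⊤ := by
  rw [PK_eq, vol_prod4 (meas_T _ _ _) (meas_T _ _ _)]
  exact ENNReal.mul_ne_top (fin_T _ _ _) (fin_T _ _ _)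

lemma fin_PB (m : ℝ) (t : Fin 12 → ℝ) : volume (P nB (fun _ => m) t) ≠ ⊤ := by
  rw [PB_eq, vol_prod4 (meas_H _ _ _ _ _ _) (meas_H _ _ _ _ _ _)]
  exact ENNReal.mul_ne_top (fin_H _ _ _ _ _ _) (fin_H _ _ _ _ _ _)

lemma vol_PK : (fun t : Fin 6 → ℝ => (volume (P nK bK t)).toReal) =ᶠ[𝓝 0]
    fun t => (t 0 + t 1 + (1 + t 2)) ^ 2 / 2 * ((t 3 + t 4 + (1 + t 5)) ^ 2 / 2) := by
  have c1 : ∀ᶠ t : Fin 6 → ℝ in 𝓝 0, 0 < t 0 + t 1 + (1 + t 2) := by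
    have : ContinuousAt (fun t : Fin 6 → ℝ => t 0 + t 1 + (1 + t 2)) 0 := by fun_prop
    exact this.eventually_const_lt (by simp)
  have c2 : ∀ᶠ t : Fin 6 → ℝ in 𝓝 0, 0 < t 3 + t 4 + (1 + t 5) := by
    have : ContinuousAt (fun t : Fin 6 → ℝ => t 3 + t 4 + (1 + t 5)) 0 := by fun_prop
    exact this.eventually_const_lt (by simp)
  filter_upwards [c1, c2] with t h1 h2
  rw [PK_eq, vol_prod4 (meas_T _ _ _) (meas_T _ _ _), area_T _ _ _ h1.le, area_T _ _ _ h2.le,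
    ENNReal.toReal_mul, ENNReal.toReal_ofReal (by positivity), ENNReal.toReal_ofReal (by positivity)]

lemma vol_PB {m : ℝ} (hm : 0 < m) :
    (fun t : Fin 12 → ℝ => (volume (P nB (fun _ => m) t)).toReal) =ᶠ[𝓝 0]
    fun t => ((m + t 0 + (m + t 1)) * (m + t 2 + (m + t 3)) - (m + t 1 + (m + t 3) - (m + t 5)) ^ 2 / 2
        - (m + t 0 + (m + t 2) - (m + t 4)) ^ 2 / 2) *
      ((m + t 6 + (m + t 7)) * (m + t 8 + (m + t 9)) - (m + t 7 + (m + t 9) - (m + t 11)) ^ 2 / 2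
        - (m + t 6 + (m + t 8) - (m + t 10)) ^ 2 / 2) := by
  have c : ∀ᶠ t : Fin 12 → ℝ in 𝓝 0, ∀ i, |t i| < m / 8 := by
    rw [Filter.eventually_all]
    intro i
    have : ContinuousAt (fun t : Fin 12 → ℝ => |t i|) 0 :=
      (continuous_abs.comp (continuous_apply i)).continuousAt
    exact this.eventually_lt_const (by simpa using hm)
  filter_upwards [c] with t ht
  have b : ∀ i, -(m / 8) < t i ∧ t i < m / 8 := fun i => abs_lt.1 (ht i)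
  have b0 := b 0
  have b1 := b 1
  have b2 := b 2
  have b3 := b 3
  have b4 := b 4
  have b5 := b 5
  have b6 := b 6
  have b7 := b 7
  have b8 := b 8
  have b9 := b 9
  have b10 := b 10
  have b11 := b 11
  have key : ∀ u0 u1 u2 u3 u4 u5 : ℝ, (-(m / 8) < u0 ∧ u0 < m / 8) → (-(m / 8) < u1 ∧ u1 < m / 8) →
      (-(m / 8) < u2 ∧ u2 < m / 8) → (-(m / 8) < u3 ∧ u3 < m / 8) → (-(m / 8) < u4 ∧ u4 < m / 8) →
      (-(m / 8) < u5 ∧ u5 < m / 8) →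
      0 ≤ (m + u0 + (m + u1)) * (m + u2 + (m + u3)) - (m + u1 + (m + u3) - (m + u5)) ^ 2 / 2
        - (m + u0 + (m + u2) - (m + u4)) ^ 2 / 2 := by
    intro u0 u1 u2 u3 u4 u5 h0 h1 h2 h3 h4 h5
    have e1 : (m * (7 / 4)) * (m * (7 / 4)) ≤ (m + u0 + (m + u1)) * (m + u2 + (m + u3)) := by
      apply mul_le_mul <;> linarith
    have e2 : (m + u1 + (m + u3) - (m + u5)) ^ 2 ≤ (m * (11 / 8)) ^ 2 :=
      pow_le_pow_left₀ (by linarith) (by linarith) 2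
    have e3 : (m + u0 + (m + u2) - (m + u4)) ^ 2 ≤ (m * (11 / 8)) ^ 2 :=
      pow_le_pow_left₀ (by linarith) (by linarith) 2
    nlinarith [mul_pos hm hm]
  rw [PB_eq, vol_prod4 (meas_H _ _ _ _ _ _) (meas_H _ _ _ _ _ _),
    area_H _ _ _ _ _ _ (by linarith) (by linarith) (by linarith) (by linarith) (by linarith)
      (by linarith) (by linarith),
    area_H _ _ _ _ _ _ (by linarith) (by linarith) (by linarith) (by linarith) (by linarith)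
      (by linarith) (by linarith),
    ENNReal.toReal_mul, ENNReal.toReal_ofReal (key _ _ _ _ _ _ b0 b1 b2 b3 b4 b5),
    ENNReal.toReal_ofReal (key _ _ _ _ _ _ b6 b7 b8 b9 b10 b11)]

/-- From differentiability and directional derivatives get the Frechet derivative. -/
lemma fderiv_of_dir {k : ℕ} {f g : (Fin k → ℝ) → ℝ} (hfg : f =ᶠ[𝓝 0] g) (hg : DifferentiableAt ℝ g 0)
    (w : Fin k → ℝ) (hdir : ∀ t : Fin k → ℝ, HasDerivAt (fun r : ℝ => g (r • t)) (∑ i, w i * t i) 0) :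
    ∃ D : (Fin k → ℝ) →L[ℝ] ℝ, HasFDerivAt f D 0 ∧ ∀ t, D t = ∑ i, w i * t i := by
  refine ⟨fderiv ℝ g 0, (hg.hasFDerivAt).congr_of_eventuallyEq hfg, ?_⟩
  intro t
  have h2 : HasDerivAt (fun r : ℝ => r • t) ((1:ℝ) • t) 0 := (hasDerivAt_id (0:ℝ)).smul_const t
  rw [one_smul] at h2
  have h3 : HasFDerivAt g (fderiv ℝ g 0) ((0:ℝ) • t) := by rw [zero_smul]; exact hg.hasFDerivAt
  exact (h3.comp_hasDerivAt (0:ℝ) h2).unique (hdir t)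

lemma fderiv_K : ∃ D : (Fin 6 → ℝ) →L[ℝ] ℝ,
    HasFDerivAt (fun t : Fin 6 → ℝ => (volume (P nK bK t)).toReal) D 0 ∧
    ∀ t, D t = ∑ i, (1 / 2 : ℝ) * t i := by
  refine fderiv_of_dir vol_PK (by fun_prop) _ ?_
  intro t
  have h : ∀ A : ℝ, HasDerivAt (fun r : ℝ => (1 + r * A) ^ 2 / 2) A 0 := by
    intro A
    have h1 : HasDerivAt (fun r : ℝ => 1 + r * A) A 0 := by
      simpa using ((hasDerivAt_id (0:ℝ)).mul_const A).const_add 1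
    have h2 := (h1.pow 2).div_const 2
    simpa using h2
  have h3 := (h (t 0 + t 1 + t 2)).mul (h (t 3 + t 4 + t 5))
  have e : (fun r : ℝ => ((r • t) 0 + (r • t) 1 + (1 + (r • t) 2)) ^ 2 / 2 *
      (((r • t) 3 + (r • t) 4 + (1 + (r • t) 5)) ^ 2 / 2)) =
      (fun r => (1 + r * (t 0 + t 1 + t 2)) ^ 2 / 2) * fun r => (1 + r * (t 3 + t 4 + t 5)) ^ 2 / 2 := by
    funext r
    simp only [Pi.smul_apply, smul_eq_mul, Pi.mul_apply]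
    ring
  rw [e]
  refine h3.congr_deriv ?_
  simp only [Fin.sum_univ_succ, Fin.sum_univ_zero]
  simp
  ring_nf

lemma fderiv_B {m : ℝ} (hm : 0 < m) : ∃ D : (Fin 12 → ℝ) →L[ℝ] ℝ,
    HasFDerivAt (fun t : Fin 12 → ℝ => (volume (P nB (fun _ => m) t)).toReal) D 0 ∧
    ∀ t, D t = ∑ i, (3 * m ^ 3 : ℝ) * t i := by
  refine fderiv_of_dir (vol_PB hm) (by fun_prop) _ ?_
  intro t
  have h : ∀ u0 u1 u2 u3 u4 u5 : ℝ, HasDerivAt (fun r : ℝ =>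
      (m + r * u0 + (m + r * u1)) * (m + r * u2 + (m + r * u3)) -
        (m + r * u1 + (m + r * u3) - (m + r * u5)) ^ 2 / 2
        - (m + r * u0 + (m + r * u2) - (m + r * u4)) ^ 2 / 2) (m * (u0 + u1 + u2 + u3 + u4 + u5)) 0 := by
    intro u0 u1 u2 u3 u4 u5
    have h1 : ∀ a b : ℝ, HasDerivAt (fun r : ℝ => a + r * b) b 0 := by
      intro a b
      simpa using ((hasDerivAt_id (0:ℝ)).mul_const b).const_add a
    have h2 := (((h1 m u0).add (h1 m u1)).mul ((h1 m u2).add (h1 m u3))).sub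
      (((((h1 m u1).add (h1 m u3)).sub (h1 m u5)).pow 2).div_const 2)
    have h3 := h2.sub (((((h1 m u0).add (h1 m u2)).sub (h1 m u4)).pow 2).div_const 2)
    refine h3.congr_deriv ?_
    simp
    ring
  have h3 := (h (t 0) (t 1) (t 2) (t 3) (t 4) (t 5)).mul (h (t 6) (t 7) (t 8) (t 9) (t 10) (t 11))
  refine h3.congr_deriv ?_
  simp only [Fin.sum_univ_succ, Fin.sum_univ_zero]
  simp
  ring_nf

end Pool.Agent.Helper876
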