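import Mathlib
import Pool.Agent.Helper876.TT

set_option autoImplicit false

namespace Pool.Agent.Helper876

open MeasureTheory Set Filter Topology
open scoped Pointwise

/-- the product of two triangles in `ℝ⁴` -/
def KTT : Set E4 := {x | 0 ≤ x 0 ∧ 0 ≤ x 1 ∧ x 0 + x 1 ≤ 1 ∧ 0 ≤ x 2 ∧ 0 ≤ x 3 ∧ x 2 + x 3 ≤ 1}

/-- the product of two hexagons -/
def BHH (m : ℝ) : Set E4 := {x | |x 0| ≤ m ∧ |x 1| ≤ m ∧ |x 0 + x 1| ≤ m ∧
  |x 2| ≤ m ∧ |x 3| ≤ m ∧ |x 2 + x 3| ≤ m}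

lemma KTT_eq : KTT = P nK bK 0 := by
  rw [PK_eq]
  ext x
  simp only [KTT, mem_ofPred_eq, Pi.zero_apply, add_zero]
  constructor
  · rintro ⟨h0, h1, h2, h3, h4, h5⟩
    exact ⟨⟨by linarith, by linarith, h2⟩, ⟨by linarith, by linarith, h5⟩⟩
  · rintro ⟨⟨h0, h1, h2⟩, ⟨h3, h4, h5⟩⟩
    exact ⟨by linarith, by linarith, h2, by linarith, by linarith, h5⟩

lemma BHH_eq (m : ℝ) : BHH m = P nB (fun _ => m) 0 := by
  rw [PB_eq]
  ext x
  simp only [BHH, mem_ofPred_eq, Pi.zero_apply, add_zero, abs_le]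
  constructor
  · rintro ⟨h0, h1, h2, h3, h4, h5⟩
    exact ⟨⟨⟨by linarith, h0.2⟩, ⟨by linarith, h1.2⟩, by linarith, h2.2⟩,
      ⟨⟨by linarith, h3.2⟩, ⟨by linarith, h4.2⟩, by linarith, h5.2⟩⟩
  · rintro ⟨⟨⟨a1, a2⟩, ⟨a3, a4⟩, a5, a6⟩, ⟨⟨a7, a8⟩, ⟨a9, a10⟩, a11, a12⟩⟩
    exact ⟨⟨by linarith, a2⟩, ⟨by linarith, a4⟩, ⟨by linarith, a6⟩, ⟨by linarith, a8⟩,
      ⟨by linarith, a10⟩, ⟨by linarith, a12⟩⟩

lemma isClosed_KTT : IsClosed KTT := by rw [KTT_eq]; exact isClosed_P _ _ _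

lemma isClosed_BHH (m : ℝ) : IsClosed (BHH m) := by rw [BHH_eq]; exact isClosed_P _ _ _

lemma isCompact_of_coord {S : Set E4} (hS : IsClosed S) (R : ℝ) (hR : ∀ x ∈ S, ∀ i, |x i| ≤ R) :
    IsCompact S := by
  rw [Metric.isCompact_iff_isClosed_bounded]
  refine ⟨hS, ?_⟩
  refine (Metric.isBounded_closedBall (x := (0 : E4)) (r := Real.sqrt (∑ _i : Fin 4, R ^ 2))).subset ?_
  intro x hx
  rw [mem_closedBall_zero_iff, EuclideanSpace.norm_eq]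
  apply Real.sqrt_le_sqrt
  apply Finset.sum_le_sum
  intro i _
  rw [Real.norm_eq_abs]
  exact pow_le_pow_left₀ (abs_nonneg _) (hR x hx i) 2

lemma isCompact_KTT : IsCompact KTT := by
  refine isCompact_of_coord isClosed_KTT 1 ?_
  rintro x ⟨h0, h1, h2, h3, h4, h5⟩ i
  rw [abs_le]
  fin_cases i
  · exact ⟨by show (-1:ℝ) ≤ x 0; linarith, by show x 0 ≤ 1; linarith⟩
  · exact ⟨by show (-1:ℝ) ≤ x 1; linarith, by show x 1 ≤ 1; linarith⟩
  · exact ⟨by show (-1:ℝ) ≤ x 2; linarith, by show x 2 ≤ 1; linarith⟩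
  · exact ⟨by show (-1:ℝ) ≤ x 3; linarith, by show x 3 ≤ 1; linarith⟩

lemma isCompact_BHH (m : ℝ) : IsCompact (BHH m) := by
  refine isCompact_of_coord (isClosed_BHH m) m ?_
  rintro x ⟨h0, h1, _, h3, h4, _⟩ i
  fin_cases i
  · exact h0
  · exact h1
  · exact h3
  · exact h4

lemma convex_P {ι : Type*} (n : ι → E4 →L[ℝ] ℝ) (b t : ι → ℝ) : Convex ℝ (P n b t) := by
  intro x hx y hy a c ha hc hac i
  have h1 := hx i
  have h2 := hy i
  simp only [map_add, map_smul, smul_eq_mul]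
  have h3 := mul_le_mul_of_nonneg_left h1 ha
  have h4 := mul_le_mul_of_nonneg_left h2 hc
  have h5 : a * (b i + t i) + c * (b i + t i) = b i + t i := by rw [← add_mul, hac, one_mul]
  linarith

lemma convex_KTT : Convex ℝ KTT := by rw [KTT_eq]; exact convex_P _ _ _

lemma convex_BHH (m : ℝ) : Convex ℝ (BHH m) := by rw [BHH_eq]; exact convex_P _ _ _

lemma interior_KTT : (interior KTT).Nonempty := by
  have hopen : IsOpen ({x : E4 | 0 < x 0} ∩ {x : E4 | 0 < x 1} ∩ {x : E4 | x 0 + x 1 < 1} ∩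
      {x : E4 | 0 < x 2} ∩ {x : E4 | 0 < x 3} ∩ {x : E4 | x 2 + x 3 < 1}) := by
    refine IsOpen.inter (IsOpen.inter (IsOpen.inter (IsOpen.inter (IsOpen.inter ?_ ?_) ?_) ?_) ?_) ?_
    all_goals exact isOpen_lt (by fun_prop) (by fun_prop)
  refine ⟨(WithLp.toLp 2 (fun _ => (1/4 : ℝ)) : E4), interior_maximal ?_ hopen ?_⟩
  · rintro x ⟨⟨⟨⟨⟨h0, h1⟩, h2⟩, h3⟩, h4⟩, h5⟩
    simp only [mem_ofPred_eq] at h0 h1 h2 h3 h4 h5
    exact ⟨h0.le, h1.le, h2.le, h3.le, h4.le, h5.le⟩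
  · simp only [mem_inter_iff, mem_ofPred_eq]
    norm_num

lemma interior_BHH {m : ℝ} (hm : 0 < m) : (interior (BHH m)).Nonempty := by
  have hopen : IsOpen ({x : E4 | |x 0| < m} ∩ {x : E4 | |x 1| < m} ∩ {x : E4 | |x 0 + x 1| < m} ∩
      {x : E4 | |x 2| < m} ∩ {x : E4 | |x 3| < m} ∩ {x : E4 | |x 2 + x 3| < m}) := by
    refine IsOpen.inter (IsOpen.inter (IsOpen.inter (IsOpen.inter (IsOpen.inter ?_ ?_) ?_) ?_) ?_) ?_
    all_goals exact isOpen_lt (continuous_abs.comp (by fun_prop)) (by fun_prop)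
  refine ⟨0, interior_maximal ?_ hopen ?_⟩
  · rintro x ⟨⟨⟨⟨⟨h0, h1⟩, h2⟩, h3⟩, h4⟩, h5⟩
    simp only [mem_ofPred_eq] at h0 h1 h2 h3 h4 h5
    exact ⟨h0.le, h1.le, h2.le, h3.le, h4.le, h5.le⟩
  · simp only [mem_inter_iff, mem_ofPred_eq]
    simp [hm]

lemma neg_BHH (m : ℝ) : -(BHH m) = BHH m := by
  ext x
  simp only [BHH, Set.mem_neg, mem_ofPred_eq, PiLp.neg_apply, abs_neg]
  have e1 : |-x 0 + -x 1| = |x 0 + x 1| := by rw [← abs_neg]; congr 1; ring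
  have e2 : |-x 2 + -x 3| = |x 2 + x 3| := by rw [← abs_neg]; congr 1; ring
  rw [e1, e2]

lemma split_hex {a b : ℝ} (ha : |a| ≤ 1) (hb : |b| ≤ 1) (hab : |a + b| ≤ 1) :
    max a 0 + max b 0 ≤ 1 ∧ max (-a) 0 + max (-b) 0 ≤ 1 := by
  rw [abs_le] at ha hb hab
  constructor
  · rcases max_cases a 0 with ⟨h1, _⟩ | ⟨h1, _⟩ <;> rcases max_cases b 0 with ⟨h2, _⟩ | ⟨h2, _⟩ <;>
      rw [h1, h2] <;> linarith
  · rcases max_cases (-a) 0 with ⟨h1, _⟩ | ⟨h1, _⟩ <;> rcases max_cases (-b) 0 with ⟨h2, _⟩ | ⟨h2, _⟩ <;>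
      rw [h1, h2] <;> linarith

lemma KTT_sub : KTT + -KTT = BHH 1 := by
  ext x
  constructor
  · rintro ⟨k, ⟨h0, h1, h2, h3, h4, h5⟩, k', hk', rfl⟩
    rw [Set.mem_neg] at hk'
    obtain ⟨g0, g1, g2, g3, g4, g5⟩ := hk'
    simp only [PiLp.neg_apply] at g0 g1 g2 g3 g4 g5
    simp only [BHH, mem_ofPred_eq, PiLp.add_apply, abs_le]
    refine ⟨⟨?_, ?_⟩, ⟨?_, ?_⟩, ⟨?_, ?_⟩, ⟨?_, ?_⟩, ⟨?_, ?_⟩, ⟨?_, ?_⟩⟩ <;> linarith
  · rintro ⟨h0, h1, h2, h3, h4, h5⟩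
    refine ⟨(WithLp.toLp 2 (fun i => max (x i) 0) : E4), ?_,
      (WithLp.toLp 2 (fun i => -max (-x i) 0) : E4), ?_, ?_⟩
    · have a := split_hex h0 h1 h2
      have b := split_hex h3 h4 h5
      exact ⟨le_max_right _ _, le_max_right _ _, a.1, le_max_right _ _, le_max_right _ _, b.1⟩
    · rw [Set.mem_neg]
      have a := split_hex h0 h1 h2
      have b := split_hex h3 h4 h5
      simp only [KTT, mem_ofPred_eq, PiLp.neg_apply, neg_neg]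
      exact ⟨le_max_right _ _, le_max_right _ _, a.2, le_max_right _ _, le_max_right _ _, b.2⟩
    · ext i
      simp only [PiLp.add_apply]
      rcases max_cases (x i) 0 with ⟨h1, h1'⟩ | ⟨h1, h1'⟩ <;>
        rcases max_cases (-x i) 0 with ⟨h2, h2'⟩ | ⟨h2, h2'⟩ <;> rw [h1, h2] <;> linarith

lemma BHH_smul {m : ℝ} (hm : 0 < m) : BHH m = (2 * m) • ((1 / 2 : ℝ) • (BHH 1)) := by
  rw [smul_smul]
  have e : 2 * m * (1 / 2) = m := by ring
  rw [e]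
  ext x
  rw [mem_smul_set_iff_inv_smul_mem₀ hm.ne']
  simp only [BHH, mem_ofPred_eq, PiLp.smul_apply, smul_eq_mul, ← mul_add, abs_mul, abs_inv,
    abs_of_pos hm, inv_mul_le_iff₀ hm, mul_one]

/-- support function of `L` -/
noncomputable def hS (L : Set E4) (f : E4 →L[ℝ] ℝ) : ℝ := sSup ((fun x => f x) '' L)

lemma deriv_K (L : Set E4) (hL : IsCompact L) (hne : L.Nonempty) :
    HasDerivWithinAt (fun ε : ℝ => (volume (KTT + ε • L)).toReal)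
      (∑ i, (1 / 2 : ℝ) * hS L (nK i)) (Set.Ici 0) 0 := by
  obtain ⟨D, hD, hDw⟩ := fderiv_K
  have := first_variation volume nK bK (fun _ => 1 / 2) fin_PK D hD hDw (by
    intro x
    simp [Fin.sum_univ_succ, nK]
    ring) L hL hne
  rw [← KTT_eq] at this
  exact this

lemma deriv_negK (L : Set E4) (hL : IsCompact L) (hne : L.Nonempty) :
    HasDerivWithinAt (fun ε : ℝ => (volume (-KTT + ε • L)).toReal)
      (∑ i, (1 / 2 : ℝ) * hS L (-nK i)) (Set.Ici 0) 0 := by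
  obtain ⟨D, hD, hDw⟩ := fderiv_K
  have hneg : ∀ t, P (fun i => -nK i) bK t = -(P nK bK t) := by
    intro t
    ext x
    simp only [P, Set.mem_neg, mem_ofPred_eq]
    refine forall_congr' fun i => ?_
    rw [map_neg]; rfl
  have hvol : ∀ t, volume (P (fun i => -nK i) bK t) = volume (P nK bK t) := by
    intro t
    rw [hneg, Measure.measure_neg]
  have := first_variation volume (fun i => -nK i) bK (fun _ => 1 / 2)
    (fun t => by rw [hvol]; exact fin_PK t) D (by simp only [hvol]; exact hD) hDw (by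
    intro x
    simp [Fin.sum_univ_succ, nK]
    ring) L hL hne
  rw [hneg, ← KTT_eq] at this
  exact this

lemma deriv_B {m : ℝ} (hm : 0 < m) (L : Set E4) (hL : IsCompact L) (hne : L.Nonempty) :
    HasDerivWithinAt (fun ε : ℝ => (volume (BHH m + ε • L)).toReal)
      (∑ i, (3 * m ^ 3 : ℝ) * hS L (nB i)) (Set.Ici 0) 0 := by
  obtain ⟨D, hD, hDw⟩ := fderiv_B hm
  have := first_variation volume nB (fun _ => m) (fun _ => 3 * m ^ 3) (fin_PB m) D hD hDw (by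
    intro x
    simp only [Fin.sum_univ_succ, Fin.sum_univ_zero]
    simp [nB]
    ring) L hL hne
  rw [← BHH_eq] at this
  exact this

lemma sum_eq (L : Set E4) {m : ℝ} (hm : m ^ 3 = 1 / 12) :
    ∑ i, (3 * m ^ 3 : ℝ) * hS L (nB i) -
      (∑ i, (1 / 2 : ℝ) * hS L (nK i) + ∑ i, (1 / 2 : ℝ) * hS L (-nK i)) / 2 = 0 := by
  rw [hm]
  simp only [Fin.sum_univ_succ, Fin.sum_univ_zero]
  simp [nB, nK]
  ring

lemma not_symm : ¬ ∃ c : E4, ∀ y : E4, y ∈ KTT ↔ (2 : ℝ) • c - y ∈ KTT := by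
  rintro ⟨c, hc⟩
  have h0 : (0 : E4) ∈ KTT := by simp [KTT]
  have h1 : (EuclideanSpace.single 0 1 : E4) ∈ KTT := by simp [KTT]
  have h2 : (EuclideanSpace.single 1 1 : E4) ∈ KTT := by simp [KTT]
  rw [hc] at h0 h1 h2
  obtain ⟨a0, a1, a2, a3, a4, a5⟩ := h0
  obtain ⟨b0, b1, b2, b3, b4, b5⟩ := h1
  obtain ⟨c0, c1, c2, c3, c4, c5⟩ := h2
  simp at a0 a1 a2 b0 b1 b2 c0 c1 c2
  linarith

end Pool.Agent.Helper876
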